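import Pool.Agent.Lib.H89.Arr.ASLocal

set_option autoImplicit false

/-!
An Ahlfors–Schwarz lemma with local data at the points where the function does not vanish.
-/

open Filter Topology ComplexConjugate

namespace Pool.Agent.H89.AS

variable {ι : Type*} [Fintype ι]

/-- **Ahlfors–Schwarz lemma**, local version with data only where `H` does not vanish. -/
theorem eq_zero_of_local' {H : ℂ → ℝ} (hHc : Continuous H) (hH0 : ∀ z, 0 ≤ H z)
    {p r : ℕ} (hp : 1 ≤ p) (hr : 1 ≤ r) {C : ℝ} (hCpos : 0 ≤ C)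
    (hH : ∀ z₀, H z₀ ≠ 0 → ∃ (y : ℂ → ι → ℂ) (Q : ℂ → ℂ),
      (∀ i, ∀ᶠ z in 𝓝 z₀, DifferentiableAt ℂ (fun z => y z i) z) ∧
      (∀ᶠ z in 𝓝 z₀, DifferentiableAt ℂ Q z) ∧ y z₀ ≠ 0 ∧
      (∀ᶠ z in 𝓝 z₀, H z = ‖Q z‖ ^ 2 * nsq (y z) ^ p) ∧
      ‖Q z₀‖ ^ 2 * nsq (y z₀) ^ (p + 2 * r) ≤
        C * wsq (y z₀) (fun i => deriv (fun z => y z i) z₀) ^ r)
    (w : ℂ) : H w = 0 := by
  by_contra hHw
  have hp' : (0 : ℝ) < p := by exact_mod_cast hp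
  have hr' : (0 : ℝ) < r := by exact_mod_cast hr
  have hHwpos : 0 < H w := lt_of_le_of_ne (hH0 w) (Ne.symm hHw)
  -- bound on discs
  have hdisc : ∀ R : ℝ, ‖w‖ < R → H w * (R ^ 2 - ‖w‖ ^ 2) ^ (2 * r) ≤
      C * (4 * r * R ^ 2 / p) ^ r := by
    intro R hR
    have hRpos : 0 < R := lt_of_le_of_lt (norm_nonneg _) hR
    set G : ℂ → ℝ := fun z => H z * (R ^ 2 - ‖z‖ ^ 2) ^ (2 * r) with hG
    have hGc : Continuous G := by
      simp only [hG]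
      exact hHc.mul (by fun_prop)
    obtain ⟨z₀, hz₀, hmax⟩ := (isCompact_closedBall (0 : ℂ) R).exists_isMaxOn
      ⟨w, by simpa using hR.le⟩ hGc.continuousOn
    have hw' : G w ≤ G z₀ := hmax (by simpa using hR.le)
    have hGw : 0 < G w := by
      simp only [hG]
      have h2 : 0 < R ^ 2 - ‖w‖ ^ 2 := by
        have : 0 ≤ ‖w‖ := norm_nonneg _
        nlinarith
      positivity
    refine hw'.trans ?_
    have hz₀' : ‖z₀‖ ≤ R := by simpa using hz₀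
    have hz₀lt : ‖z₀‖ < R := by
      refine lt_of_le_of_ne hz₀' fun heq => ?_
      have : G z₀ = 0 := by
        simp only [hG, heq, sub_self]
        rw [zero_pow (by omega), mul_zero]
      linarith
    have hHz₀ : H z₀ ≠ 0 := by
      intro h0
      have : G z₀ = 0 := by simp only [hG, h0, zero_mul]
      linarith
    obtain ⟨y, Q, hy, hQ, hy0, hHe, hb⟩ := hH z₀ hHz₀
    have hGe : ∀ᶠ z in 𝓝 z₀, G z = ‖Q z‖ ^ 2 * nsq (y z) ^ p * (R ^ 2 - ‖z‖ ^ 2) ^ (2 * r) := by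
      filter_upwards [hHe] with z hz
      simp only [hG]
      rw [hz]
    have hGz₀ := hGe.self_of_nhds
    have hQ0 : Q z₀ ≠ 0 := by
      intro h0
      have : G z₀ = 0 := by rw [hGz₀, h0]; simp
      linarith
    have hloc := local_bound (x := y) (Q := Q) (z₀ := z₀) hy hQ hy0 hQ0 hz₀lt p r (by
        filter_upwards [Metric.isOpen_ball.mem_nhds
          (show z₀ ∈ Metric.ball (0 : ℂ) R by simpa using hz₀lt), hGe] with z hz hz'
        rw [← hz', ← hGz₀]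
        exact hmax (by simpa using (mem_ball_zero_iff.mp hz).le))
    have hDpos : 0 < R ^ 2 - ‖z₀‖ ^ 2 := by
      have : 0 ≤ ‖z₀‖ := norm_nonneg _
      nlinarith
    have hN0 := nsq_pos hy0
    have hW0 := wsq_nonneg (y z₀) (fun i => deriv (fun z => y z i) z₀)
    set W₀ := wsq (y z₀) (fun i => deriv (fun z => y z i) z₀) with hW₀
    set N₀ := nsq (y z₀)
    set D := R ^ 2 - ‖z₀‖ ^ 2 with hD
    have h1 : W₀ ≤ N₀ ^ 2 * (4 * r * R ^ 2 / p / D ^ 2) := by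
      have e : W₀ = (p * (W₀ / 2 / N₀ ^ 2)) * (2 * N₀ ^ 2 / p) := by field_simp
      rw [e]
      calc _ ≤ ((2 * r : ℕ) * (R ^ 2 / D ^ 2)) * (2 * N₀ ^ 2 / p) := by gcongr
        _ = _ := by push_cast; field_simp; ring
    have h2 : ‖Q z₀‖ ^ 2 * N₀ ^ p * N₀ ^ (2 * r) ≤
        C * (N₀ ^ 2 * (4 * r * R ^ 2 / p / D ^ 2)) ^ r := by
      calc ‖Q z₀‖ ^ 2 * N₀ ^ p * N₀ ^ (2 * r) = ‖Q z₀‖ ^ 2 * N₀ ^ (p + 2 * r) := by
            rw [pow_add]; ring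
        _ ≤ C * W₀ ^ r := hb
        _ ≤ _ := by gcongr
    have h3 : ‖Q z₀‖ ^ 2 * N₀ ^ p ≤ C * (4 * r * R ^ 2 / p / D ^ 2) ^ r := by
      have h2' : N₀ ^ (2 * r) * (‖Q z₀‖ ^ 2 * N₀ ^ p) ≤
          N₀ ^ (2 * r) * (C * (4 * r * R ^ 2 / p / D ^ 2) ^ r) := by
        calc _ = ‖Q z₀‖ ^ 2 * N₀ ^ p * N₀ ^ (2 * r) := by ring
          _ ≤ _ := h2
          _ = _ := by rw [mul_pow, ← pow_mul]; ring
      exact le_of_mul_le_mul_left h2' (by positivity)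
    calc G z₀ = ‖Q z₀‖ ^ 2 * N₀ ^ p * D ^ (2 * r) := hGz₀
      _ ≤ C * (4 * r * R ^ 2 / p / D ^ 2) ^ r * D ^ (2 * r) := by gcongr
      _ = C * (4 * r * R ^ 2 / p) ^ r := by
        rw [div_pow _ (D ^ 2), ← pow_mul]
        field_simp
  -- let `R → ∞`
  set K : ℝ := H w with hK
  set M : ℝ := C * (16 * r / p) ^ r with hM
  have hM0 : 0 ≤ M := by positivity
  obtain ⟨R, hR1, hR2⟩ : ∃ R : ℝ, (2 * ‖w‖ + 1 ≤ R) ∧ M < K * R ^ 2 := by
    refine ⟨max (2 * ‖w‖ + 1) (M / K + 1), le_max_left _ _, ?_⟩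
    set R := max (2 * ‖w‖ + 1) (M / K + 1)
    have h1 : M / K + 1 ≤ R := le_max_right _ _
    have h2 : 1 ≤ R := by
      have : 0 ≤ M / K := by positivity
      linarith
    have h3 : M / K < R ^ 2 := by nlinarith
    rw [div_lt_iff₀ hHwpos] at h3
    linarith
  have hwn : 0 ≤ ‖w‖ := norm_nonneg _
  have hR0 : 1 ≤ R := by linarith
  have h1 := hdisc R (by linarith)
  have h2 : R ^ 2 / 2 ≤ R ^ 2 - ‖w‖ ^ 2 := by nlinarith
  have h3 : K * (R ^ 2 / 2) ^ (2 * r) ≤ C * (4 * r * R ^ 2 / p) ^ r := by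
    refine le_trans ?_ h1
    gcongr
  have h4 : K * (R ^ 2) ^ r ≤ M := by
    have e1 : (R ^ 2 / 2) ^ (2 * r) = (R ^ 2) ^ r * ((R ^ 2) ^ r / 4 ^ r) := by
      rw [div_pow, two_mul, pow_add, pow_add]
      rw [show (4 : ℝ) ^ r = 2 ^ r * 2 ^ r by rw [← mul_pow]; norm_num]
      ring
    have e2 : (4 * r * R ^ 2 / p : ℝ) ^ r = (16 * r / p) ^ r * ((R ^ 2) ^ r / 4 ^ r) := by
      rw [← div_pow, ← mul_pow]
      congr 1
      ring
    rw [e1, e2, ← mul_assoc, ← mul_assoc] at h3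
    have e3 : 0 < (R ^ 2) ^ r / (4 : ℝ) ^ r := by positivity
    exact le_of_mul_le_mul_right h3 e3
  have h5 : R ^ 2 ≤ (R ^ 2) ^ r := by
    calc R ^ 2 = (R ^ 2) ^ 1 := (pow_one _).symm
      _ ≤ (R ^ 2) ^ r := pow_le_pow_right₀ (by nlinarith) hr
  have h6 : K * R ^ 2 ≤ K * (R ^ 2) ^ r := by gcongr
  linarith

end Pool.Agent.H89.AS
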