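import Pool.Agent.Lib.H89.Ci.Brody2

set_option autoImplicit false

/-!
Openness of Brody hyperbolicity and of smoothness.
-/

open Filter Topology Finset
open MvPolynomial (coeff eval pderiv monomial)

namespace Pool.Agent.H89.Ci

variable {ι : Type*} [Fintype ι]

theorem eq_sum_monomial [DecidableEq ι] {d : ℕ} {F : MvPolynomial ι ℂ} (hF : F.IsHomogeneous d) :
    F = ∑ m ∈ Finset.finsuppAntidiag (univ : Finset ι) d,
      coeff m F • (monomial m (1 : ℂ) : MvPolynomial ι ℂ) := by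
  conv_lhs => rw [F.as_sum]
  have h1 : F.support ⊆ Finset.finsuppAntidiag (univ : Finset ι) d := by
    intro m hm
    rw [Finset.mem_finsuppAntidiag]
    refine ⟨?_, Finset.subset_univ _⟩
    have h2 : m.degree = d := by
      by_contra hcon
      exact (MvPolynomial.mem_support_iff.mp hm) (hF.coeff_eq_zero hcon)
    rw [← h2, Finsupp.degree_eq_sum]
  rw [Finset.sum_subset h1]
  · refine Finset.sum_congr rfl fun m _ => ?_
    rw [MvPolynomial.smul_monomial, smul_eq_mul, mul_one]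
  · intro m _ hm
    rw [MvPolynomial.notMem_support_iff.mp hm, MvPolynomial.monomial_zero]

/-- Convergence of the values. -/
theorem tendsto_eval {l : Filter ℕ} {d : ℕ} {F : ℕ → MvPolynomial ι ℂ} {F₀ : MvPolynomial ι ℂ}
    (hF : ∀ k, (F k).IsHomogeneous d) (h0 : F₀.IsHomogeneous d)
    (hc : ∀ m, Tendsto (fun k => coeff m (F k)) l (𝓝 (coeff m F₀)))
    (D : MvPolynomial ι ℂ →ₗ[ℂ] MvPolynomial ι ℂ) {x : ℕ → ι → ℂ} {x₀ : ι → ℂ}
    (hx : Tendsto x l (𝓝 x₀)) :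
    Tendsto (fun k => eval (x k) (D (F k))) l (𝓝 (eval x₀ (D F₀))) := by
  classical
  have key : ∀ (G : MvPolynomial ι ℂ), G.IsHomogeneous d → ∀ y : ι → ℂ, eval y (D G) =
      ∑ m ∈ Finset.finsuppAntidiag (univ : Finset ι) d,
        coeff m G * eval y (D (monomial m (1 : ℂ))) := by
    intro G hG y
    conv_lhs => rw [eq_sum_monomial hG]
    rw [map_sum, map_sum]
    refine Finset.sum_congr rfl fun m _ => ?_
    rw [map_smul, MvPolynomial.smul_eval]
  rw [key F₀ h0]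
  simp only [fun k => key (F k) (hF k)]
  refine tendsto_finsetSum _ fun m _ => (hc m).mul ?_
  exact ((MvPolynomial.continuous_eval _).tendsto _).comp hx

theorem eval_smul' {d : ℕ} {F : MvPolynomial ι ℂ} (hF : F.IsHomogeneous d) (b : ℂ)
    (x : ι → ℂ) : eval (b • x) F = b ^ d * eval x F := by
  rw [MvPolynomial.eval_eq', MvPolynomial.eval_eq', Finset.mul_sum]
  refine Finset.sum_congr rfl fun m hm => ?_
  have h2 : m.degree = d := by
    by_contra hcon
    exact (MvPolynomial.mem_support_iff.mp hm) (hF.coeff_eq_zero hcon)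
  simp only [Pi.smul_apply, smul_eq_mul, mul_pow, Finset.prod_mul_distrib]
  rw [Finset.prod_pow_eq_pow_sum, ← Finsupp.degree_eq_sum, h2]
  ring

/-- Two vectors define the same point of projective space. -/
def Pt (x y : ι → ℂ) : Prop := ∃ c : ℂ, c ≠ 0 ∧ x = c • y

theorem DD_of_const {Φ : ℂ → ι → ℂ} (h : Hol Φ) (hc : ∀ z w, ∃ c : ℂ, c ≠ 0 ∧ Φ z = c • Φ w)
    (z₀ : ℂ) : DD Φ z₀ = 0 := by
  refine tendsto_nhds_unique (tendsto_DD h z₀) ?_
  refine tendsto_const_nhds.congr fun z => ?_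
  obtain ⟨c, hc0, hce⟩ := hc z z₀
  have h1 : wd (Φ z) (Φ z₀) = 0 := by
    rw [hce]
    have h2 := wd_smul hc0 one_ne_zero (Φ z₀) (Φ z₀)
    rw [one_smul] at h2
    rw [h2]
    unfold wd
    rw [wsq_eq_zero_iff.mpr fun i j => by ring, zero_div]
  rw [h1, zero_div]

/-- **Openness of Brody hyperbolicity.** -/
theorem brody_open [Nonempty ι] {m : ℕ} (d : Fin m → ℕ) {f₀ : Fin m → MvPolynomial ι ℂ}
    (h₀ : ∀ l, (f₀ l).IsHomogeneous (d l))
    (hyp : ∀ φ : ℂ → ι → ℂ, Hol φ → (∀ z l, eval (φ z) (f₀ l) = 0) →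
      ∀ z w, ∃ c : ℂ, c ≠ 0 ∧ φ z = c • φ w) :
    ∃ ε > 0, ∀ f : Fin m → MvPolynomial ι ℂ, (∀ l, (f l).IsHomogeneous (d l)) →
      (∀ l s, ‖coeff s (f l) - coeff s (f₀ l)‖ < ε) →
      ∀ φ : ℂ → ι → ℂ, Hol φ → (∀ z l, eval (φ z) (f l) = 0) →
        ∀ z w, ∃ c : ℂ, c ≠ 0 ∧ φ z = c • φ w := by
  by_contra hcon
  push Not at hcon
  have h1 : ∀ k : ℕ, ∃ (f : Fin m → MvPolynomial ι ℂ) (φ : ℂ → ι → ℂ),
      (∀ l, (f l).IsHomogeneous (d l)) ∧
      (∀ l s, ‖coeff s (f l) - coeff s (f₀ l)‖ < 1 / ((k : ℝ) + 1)) ∧ Hol φ ∧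
      (∀ z l, eval (φ z) (f l) = 0) ∧ DD φ 0 = 1 ∧ ∀ w, ‖w‖ ≤ (k : ℝ) → DD φ w ≤ 4 := by
    intro k
    obtain ⟨f, hf, hfc, φ, hφ, hφf, z, w, hzw⟩ := hcon (1 / ((k : ℝ) + 1)) (by positivity)
    have hnc : ∃ z, 0 < DD φ z := by
      by_contra hcon2
      push Not at hcon2
      obtain ⟨c, hc, hce⟩ := const_of_DD hφ hcon2 z w
      exact hzw c hc hce
    obtain ⟨φ', h2, h3, h4, h5⟩ := rescale hφ hnc (M := (k : ℝ) + 1) (by positivity)
    refine ⟨f, φ', hf, hfc, h2, fun z l => ?_, h4, fun w hw => h5 w (by linarith)⟩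
    obtain ⟨z', hz'⟩ := h3 z
    rw [hz']
    exact hφf z' l
  choose f φ hf hfc hφ hφf hD1 hD4 using h1
  obtain ⟨Φ, hΦ, hΦ1, hΦx⟩ := brody_limit hφ hD1 (fun k w hw => hD4 k w hw)
  have hcoeff : ∀ l s, Tendsto (fun k => coeff s (f k l)) (hyperfilter ℕ)
      (𝓝 (coeff s (f₀ l))) := by
    intro l s
    have h2 : Tendsto (fun k => coeff s (f k l)) atTop (𝓝 (coeff s (f₀ l))) := by
      rw [tendsto_iff_norm_sub_tendsto_zero]
      refine squeeze_zero (fun _ => norm_nonneg _) (fun k => (hfc k l s).le) ?_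
      exact tendsto_one_div_add_atTop_nhds_zero_nat
    exact h2.mono_left Nat.hyperfilter_le_atTop
  have hzero : ∀ w l, eval (Φ w) (f₀ l) = 0 := by
    intro w l
    obtain ⟨x, hx1, hx2⟩ := hΦx w
    have h2 := tendsto_eval (fun k => hf k l) (h₀ l) (hcoeff l) LinearMap.id hx2
    simp only [LinearMap.id_coe, id_eq] at h2
    refine tendsto_nhds_unique h2 (tendsto_const_nhds.congr' ?_)
    filter_upwards [hx1] with k hk
    obtain ⟨b, -, hbe⟩ := hk
    rw [hbe, eval_smul' (hf k l), hφf, mul_zero]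
  have h3 := DD_of_const hΦ (hyp Φ hΦ hzero) 0
  rw [hΦ1] at h3
  exact one_ne_zero h3

/-- The gradients are linearly independent at the common zeros. -/
def Smooth {m : ℕ} (f : Fin m → MvPolynomial ι ℂ) : Prop :=
  ∀ x : ι → ℂ, x ≠ 0 → (∀ l, eval x (f l) = 0) →
    LinearIndependent ℂ fun l => (fun i => eval x (pderiv i (f l)) : ι → ℂ)

/-- **Openness of smoothness.** -/
theorem smooth_open {m : ℕ} {d : Fin m → ℕ} {f₀ : Fin m → MvPolynomial ι ℂ}
    (h₀ : ∀ l, (f₀ l).IsHomogeneous (d l)) (hyp : Smooth f₀) :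
    ∃ ε > 0, ∀ f : Fin m → MvPolynomial ι ℂ, (∀ l, (f l).IsHomogeneous (d l)) →
      (∀ l s, ‖coeff s (f l) - coeff s (f₀ l)‖ < ε) → Smooth f := by
  by_contra hcon
  push Not at hcon
  have h1 : ∀ k : ℕ, ∃ (f : Fin m → MvPolynomial ι ℂ) (x : ι → ℂ) (t : Fin m → ℂ),
      (∀ l, (f l).IsHomogeneous (d l)) ∧
      (∀ l s, ‖coeff s (f l) - coeff s (f₀ l)‖ < 1 / ((k : ℝ) + 1)) ∧ ‖x‖ = 1 ∧ ‖t‖ = 1 ∧
      (∀ l, eval x (f l) = 0) ∧ ∀ i, ∑ l, t l * eval x (pderiv i (f l)) = 0 := by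
    intro k
    obtain ⟨f, hf, hfc, hns⟩ := hcon (1 / ((k : ℝ) + 1)) (by positivity)
    unfold Smooth at hns
    push Not at hns
    obtain ⟨x, hx0, hx, hli⟩ := hns
    rw [Fintype.not_linearIndependent_iff] at hli
    obtain ⟨t', ht', l₀, hl₀⟩ := hli
    have hxn : ‖x‖ ≠ 0 := norm_ne_zero_iff.mpr hx0
    have hxnC : ((‖x‖ : ℝ) : ℂ) ≠ 0 := by exact_mod_cast hxn
    set t : Fin m → ℂ := fun l => t' l * ((‖x‖ : ℝ) : ℂ) ^ (d l - 1) with htdef
    have ht0 : t ≠ 0 := fun h => mul_ne_zero hl₀ (pow_ne_zero _ hxnC) (congrFun h l₀)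
    have htn : ‖t‖ ≠ 0 := norm_ne_zero_iff.mpr ht0
    refine ⟨f, ((‖x‖⁻¹ : ℝ) : ℂ) • x, ((‖t‖⁻¹ : ℝ) : ℂ) • t, hf, hfc, ?_, ?_, fun l => ?_,
      fun i => ?_⟩
    · rw [norm_smul, Complex.norm_real, norm_inv, norm_norm, inv_mul_cancel₀ hxn]
    · rw [norm_smul, Complex.norm_real, norm_inv, norm_norm, inv_mul_cancel₀ htn]
    · rw [eval_smul' (hf l), hx l, mul_zero]
    · have h2 := congrFun ht' i
      simp only [Finset.sum_apply, Pi.smul_apply, smul_eq_mul, Pi.zero_apply] at h2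
      have h3 : ∀ l, (((‖t‖⁻¹ : ℝ) : ℂ) • t) l *
          eval (((‖x‖⁻¹ : ℝ) : ℂ) • x) (pderiv i (f l)) =
          ((‖t‖⁻¹ : ℝ) : ℂ) * (t' l * eval x (pderiv i (f l))) := by
        intro l
        rw [eval_smul' (hf l).pderiv]
        simp only [Pi.smul_apply, smul_eq_mul, htdef]
        have h4 : ((‖x‖ : ℝ) : ℂ) ^ (d l - 1) * ((‖x‖⁻¹ : ℝ) : ℂ) ^ (d l - 1) = 1 := by
          rw [← mul_pow, Complex.ofReal_inv, mul_inv_cancel₀ hxnC, one_pow]
        linear_combination (((‖t‖⁻¹ : ℝ) : ℂ) * (t' l * eval x (pderiv i (f l)))) * h4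
      simp only [h3]
      rw [← Finset.mul_sum, h2, mul_zero]
  choose f x t hf hfc hx ht hx0 ht0 using h1
  have hcoeff : ∀ l s, Tendsto (fun k => coeff s (f k l)) (hyperfilter ℕ)
      (𝓝 (coeff s (f₀ l))) := by
    intro l s
    have h2 : Tendsto (fun k => coeff s (f k l)) atTop (𝓝 (coeff s (f₀ l))) := by
      rw [tendsto_iff_norm_sub_tendsto_zero]
      refine squeeze_zero (fun _ => norm_nonneg _) (fun k => (hfc k l s).le) ?_
      exact tendsto_one_div_add_atTop_nhds_zero_nat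
    exact h2.mono_left Nat.hyperfilter_le_atTop
  obtain ⟨X, hXs, hX⟩ := (isCompact_sphere (0 : ι → ℂ) 1).ultrafilter_le_nhds
    ((hyperfilter ℕ).map x) (by
      rw [le_principal_iff]
      change ∀ᶠ k in (hyperfilter ℕ : Filter ℕ), x k ∈ Metric.sphere 0 1
      exact Eventually.of_forall fun k => by rw [mem_sphere_zero_iff_norm]; exact hx k)
  obtain ⟨T, hTs, hT⟩ := (isCompact_sphere (0 : Fin m → ℂ) 1).ultrafilter_le_nhds
    ((hyperfilter ℕ).map t) (by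
      rw [le_principal_iff]
      change ∀ᶠ k in (hyperfilter ℕ : Filter ℕ), t k ∈ Metric.sphere 0 1
      exact Eventually.of_forall fun k => by rw [mem_sphere_zero_iff_norm]; exact ht k)
  have hX' : Tendsto x (hyperfilter ℕ) (𝓝 X) := hX
  have hT' : Tendsto t (hyperfilter ℕ) (𝓝 T) := hT
  rw [mem_sphere_zero_iff_norm] at hXs hTs
  have hX0 : X ≠ 0 := by
    rintro rfl
    rw [norm_zero] at hXs
    exact zero_ne_one hXs
  have hT0 : T ≠ 0 := by
    rintro rfl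
    rw [norm_zero] at hTs
    exact zero_ne_one hTs
  have hXf : ∀ l, eval X (f₀ l) = 0 := by
    intro l
    have h2 := tendsto_eval (fun k => hf k l) (h₀ l) (hcoeff l) LinearMap.id hX'
    simp only [LinearMap.id_coe, id_eq, hx0] at h2
    exact tendsto_nhds_unique h2 tendsto_const_nhds |>.symm ▸ rfl
  have hgrad : ∀ i, ∑ l, T l * eval X (pderiv i (f₀ l)) = 0 := by
    intro i
    have h2 : Tendsto (fun k => ∑ l, t k l * eval (x k) (pderiv i (f k l))) (hyperfilter ℕ)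
        (𝓝 (∑ l, T l * eval X (pderiv i (f₀ l)))) := by
      refine tendsto_finsetSum _ fun l _ => ((tendsto_pi_nhds.mp hT') l).mul ?_
      exact tendsto_eval (fun k => hf k l) (h₀ l) (hcoeff l) (pderiv i).toLinearMap hX'
    simp only [ht0] at h2
    exact (tendsto_nhds_unique h2 tendsto_const_nhds)
  have hli := Fintype.linearIndependent_iff.mp (hyp X hX0 hXf) T (by
    ext i
    simp only [Finset.sum_apply, Pi.smul_apply, smul_eq_mul, Pi.zero_apply]
    exact hgrad i)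
  exact hT0 (funext hli)

end Pool.Agent.H89.Ci
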