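import Pool.Agent.Lib.H89.Ci.Trdeg
import Pool.Agent.Lib.H89.Ci.Open

set_option autoImplicit false

/-!
Complete intersections with algebraically independent coefficients are smooth.
-/

open Finset
open MvPolynomial (coeff eval pderiv monomial)

namespace Pool.Agent.H89.Ci

/-- Algebraically independent approximations. -/
theorem exists_algInd_near (I : Type) [Finite I] : ∀ (b : I → ℂ) (ε : ℝ), 0 < ε →
    ∃ a : I → ℂ, AlgebraicIndependent ℚ a ∧ ∀ i, ‖a i - b i‖ < ε := by
  induction I using Finite.induction_empty_option with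
  | of_equiv e h =>
    rename_i α β
    intro b ε hε
    obtain ⟨a, ha, hab⟩ := h (b ∘ e) ε hε
    refine ⟨a ∘ e.symm, ha.comp _ e.symm.injective, fun i => ?_⟩
    have h1 := hab (e.symm i)
    simpa using h1
  | h_empty =>
    intro b ε hε
    refine ⟨fun i => i.elim, ?_, fun i => i.elim⟩
    rw [algebraicIndependent_empty_type_iff]
    exact (algebraMap ℚ ℂ).injective
  | h_option h =>
    rename_i α _
    intro b ε hε
    obtain ⟨a, ha, hab⟩ := h (fun i => b (some i)) ε hε
    have hcount := countable_algebraic a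
    have hdense := hcount.dense_compl ℂ
    obtain ⟨z, hz, hzb⟩ := hdense.exists_dist_lt (b none) hε
    refine ⟨fun o => o.elim z a, ?_, fun i => ?_⟩
    · rw [ha.option_iff_transcendental]
      exact hz
    · cases i with
      | none =>
        rw [dist_comm, dist_eq_norm] at hzb
        exact hzb
      | some i => exact hab i

variable {ι : Type} [Fintype ι] [DecidableEq ι]

/-- The monomials of degree `d`. -/
def mons (ι : Type) [Fintype ι] [DecidableEq ι] (d : ℕ) : Finset (ι →₀ ℕ) :=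
  Finset.finsuppAntidiag (univ : Finset ι) d

theorem mem_mons {d : ℕ} {s : ι →₀ ℕ} : s ∈ mons ι d ↔ s.degree = d := by
  unfold mons
  rw [Finset.mem_finsuppAntidiag, Finsupp.degree_eq_sum]
  exact ⟨fun h => h.1, fun h => ⟨h, Finset.subset_univ _⟩⟩

omit [DecidableEq ι] in
/-- The value of the derivative of a monomial. -/
theorem eval_pderiv_monomial (i : ι) (s : ι →₀ ℕ) (a : ℂ) (x : ι → ℂ) :
    eval x (pderiv i (monomial s a)) = a * (s i : ℂ) * ∏ j, x j ^ ((s - Finsupp.single i 1 : ι →₀ ℕ) j) := by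
  rw [MvPolynomial.pderiv_monomial, MvPolynomial.eval_monomial]
  congr 1
  rw [Finsupp.prod_fintype]
  intro j
  rw [pow_zero]

theorem eval_eq_mons {d : ℕ} {F : MvPolynomial ι ℂ} (hF : F.IsHomogeneous d) (x : ι → ℂ) :
    eval x F = ∑ s ∈ mons ι d, coeff s F * ∏ j, x j ^ s j := by
  conv_lhs => rw [eq_sum_monomial hF]
  rw [map_sum]
  refine Finset.sum_congr rfl fun s _ => ?_
  rw [MvPolynomial.smul_eval, MvPolynomial.eval_monomial, one_mul, Finsupp.prod_fintype]
  intro j
  rw [pow_zero]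

theorem eval_pderiv_eq_mons {d : ℕ} {F : MvPolynomial ι ℂ} (hF : F.IsHomogeneous d) (i : ι)
    (x : ι → ℂ) : eval x (pderiv i F) =
      ∑ s ∈ mons ι d, coeff s F * ((s i : ℂ) * ∏ j, x j ^ ((s - Finsupp.single i 1 : ι →₀ ℕ) j)) := by
  conv_lhs => rw [eq_sum_monomial hF]
  rw [map_sum, map_sum]
  refine Finset.sum_congr rfl fun s _ => ?_
  rw [Derivation.map_smul, MvPolynomial.smul_eval, eval_pderiv_monomial]
  ring

theorem prod_single_pow {i₀ : ι} {x : ι → ℂ} (hx : x i₀ = 1) (k : ℕ) :
    ∏ j, x j ^ ((Finsupp.single i₀ k : ι →₀ ℕ) j) = 1 := by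
  refine Finset.prod_eq_one fun j _ => ?_
  by_cases hj : j = i₀
  · rw [hj, hx, one_pow]
  · rw [Finsupp.single_apply, if_neg (Ne.symm hj), pow_zero]

omit [DecidableEq ι] in
theorem coeff_smul_mem {K : IntermediateField ℚ ℂ} {x : ι → ℂ} (hx : ∀ i, x i ∈ K)
    (s : ι →₀ ℕ) : ∏ j, x j ^ s j ∈ K := prod_mem fun j _ => pow_mem (hx j) _

/-- **Smoothness** of complete intersections with algebraically independent coefficients. -/
theorem smooth_of_algInd {c : ℕ} {d : Fin c → ℕ} (hd : ∀ l, 1 ≤ d l)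
    {f : Fin c → MvPolynomial ι ℂ} (hf : ∀ l, (f l).IsHomogeneous (d l))
    (hind : AlgebraicIndependent ℚ fun p : (l : Fin c) × {s // s ∈ mons ι (d l)} =>
      coeff p.2.1 (f p.1)) : Smooth f := by
  intro x hx0 hx
  rw [Fintype.linearIndependent_iff]
  by_contra hcon
  push Not at hcon
  obtain ⟨t, ht, l₀, hl₀⟩ := hcon
  obtain ⟨i₀, hi₀⟩ := Function.ne_iff.mp hx0
  have hi₀' : x i₀ ≠ 0 := hi₀
  have ht' : ∀ i, ∑ l, t l * eval x (pderiv i (f l)) = 0 := by
    intro i
    have h1 := congrFun ht i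
    simpa only [Finset.sum_apply, Pi.smul_apply, smul_eq_mul, Pi.zero_apply] using h1
  -- normalisation
  set X : ι → ℂ := (x i₀)⁻¹ • x with hX
  have hX1 : X i₀ = 1 := by
    rw [hX, Pi.smul_apply, smul_eq_mul, inv_mul_cancel₀ hi₀']
  have hXf : ∀ l, eval X (f l) = 0 := fun l => by
    rw [hX, eval_smul' (hf l), hx l, mul_zero]
  set T : Fin c → ℂ := fun l => (t l₀)⁻¹ * (x i₀) ^ (d l - 1) * ((x i₀)⁻¹) ^ (d l₀ - 1) * t l
    with hT
  have hT1 : T l₀ = 1 := by
    simp only [hT]
    rw [inv_pow]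
    have : x i₀ ^ (d l₀ - 1) ≠ 0 := pow_ne_zero _ hi₀'
    field_simp
  have hTf : ∀ i, ∑ l, T l * eval X (pderiv i (f l)) = 0 := by
    intro i
    have h1 : ∀ l, T l * eval X (pderiv i (f l)) =
        (t l₀)⁻¹ * ((x i₀)⁻¹) ^ (d l₀ - 1) * (t l * eval x (pderiv i (f l))) := by
      intro l
      rw [hX, eval_smul' (hf l).pderiv]
      simp only [hT]
      have h2 : x i₀ ^ (d l - 1) * (x i₀)⁻¹ ^ (d l - 1) = 1 := by
        rw [← mul_pow, mul_inv_cancel₀ hi₀', one_pow]
      linear_combination ((t l₀)⁻¹ * ((x i₀)⁻¹) ^ (d l₀ - 1) * (t l * eval x (pderiv i (f l)))) *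
        h2
    simp only [h1]
    rw [← Finset.mul_sum, ht' i, mul_zero]
  -- the special monomials
  let A : (l : Fin c) → {s // s ∈ mons ι (d l)} := fun l =>
    ⟨Finsupp.single i₀ (d l), mem_mons.mpr (by simp)⟩
  let B : ι → {s // s ∈ mons ι (d l₀)} := fun i =>
    ⟨Finsupp.single i₀ (d l₀ - 1) + Finsupp.single i 1, mem_mons.mpr (by
      rw [map_add, Finsupp.degree_single, Finsupp.degree_single]
      have := hd l₀
      omega)⟩
  let I := (l : Fin c) × {s // s ∈ mons ι (d l)}
  set SB : Finset I := (univ.image fun l : Fin c => (⟨l, A l⟩ : I)) ∪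
    ((univ.erase i₀).image fun i => (⟨l₀, B i⟩ : I)) with hSB
  have hBne : ∀ i, i ≠ i₀ → (Finsupp.single i₀ (d l₀ - 1) + Finsupp.single i 1 : ι →₀ ℕ) i = 1 := by
    intro i hi
    rw [Finsupp.add_apply, Finsupp.single_apply, if_neg (Ne.symm hi), Finsupp.single_eq_same,
      zero_add]
  have hBval : ∀ i, ((B i : ι →₀ ℕ)) =
    Finsupp.single i₀ (d l₀ - 1) + Finsupp.single i 1 := fun i => rfl
  have hAval : ∀ l, ((A l : ι →₀ ℕ)) = Finsupp.single i₀ (d l) := fun l => rfl
  have hBinj : Set.InjOn (fun i => (⟨l₀, B i⟩ : I)) (univ.erase i₀ : Finset ι) := by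
    intro i hi j hj hij
    have h1 : B i = B j := by
      have h2 := (Sigma.mk.inj_iff.mp hij).2
      exact eq_of_heq h2
    have h2 := congrArg (fun s : {s // s ∈ mons ι (d l₀)} => (s : ι →₀ ℕ)) h1
    simp only [hBval] at h2
    have h3 : (Finsupp.single i 1 : ι →₀ ℕ) = Finsupp.single j 1 := add_left_cancel h2
    exact (Finsupp.single_left_inj one_ne_zero).mp h3
  have hdisj : Disjoint (univ.image fun l : Fin c => (⟨l, A l⟩ : I))
      ((univ.erase i₀).image fun i => (⟨l₀, B i⟩ : I)) := by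
    rw [Finset.disjoint_left]
    intro p hp hp'
    rw [Finset.mem_image] at hp hp'
    obtain ⟨l, -, rfl⟩ := hp
    obtain ⟨i, hi, hil⟩ := hp'
    have hii₀ : i ≠ i₀ := (Finset.mem_erase.mp hi).1
    obtain ⟨h1, h2⟩ := Sigma.mk.inj_iff.mp hil
    subst h1
    have h3 : B i = A l₀ := eq_of_heq h2
    have h4 := congrArg (fun s : {s // s ∈ mons ι (d l₀)} => (s : ι →₀ ℕ) i) h3
    simp only [hBval, hAval] at h4
    rw [hBne i hii₀, Finsupp.single_apply, if_neg (Ne.symm hii₀)] at h4
    exact one_ne_zero h4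
  have hSBcard : SB.card = c + (Fintype.card ι - 1) := by
    rw [hSB, Finset.card_union_of_disjoint hdisj, Finset.card_image_of_injective _ (by
      intro l l' h
      exact (Sigma.mk.inj_iff.mp h).1), Finset.card_image_of_injOn hBinj,
      Finset.card_erase_of_mem (mem_univ _), Finset.card_univ, Finset.card_univ, Fintype.card_fin]
  -- the generators
  set S : Finset ℂ := (univ.erase i₀).image X ∪ ((univ.erase l₀).image T ∪
    (univ \ SB).image fun p : I => coeff p.2.1 (f p.1)) with hS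
  have hScard : S.card ≤ (Fintype.card ι - 1) + ((c - 1) +
      (Fintype.card I - (c + (Fintype.card ι - 1)))) := by
    rw [hS]
    refine (Finset.card_union_le _ _).trans (add_le_add ?_ ?_)
    · refine Finset.card_image_le.trans ?_
      rw [Finset.card_erase_of_mem (mem_univ _), Finset.card_univ]
    refine (Finset.card_union_le _ _).trans (add_le_add ?_ ?_)
    · refine Finset.card_image_le.trans ?_
      rw [Finset.card_erase_of_mem (mem_univ _), Finset.card_univ, Fintype.card_fin]
    · refine Finset.card_image_le.trans ?_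
      rw [Finset.card_sdiff_of_subset (Finset.subset_univ _), hSBcard, Finset.card_univ]
  set K := IntermediateField.adjoin ℚ (S : Set ℂ) with hK
  have hSK : ∀ z ∈ S, z ∈ K := fun z hz => IntermediateField.subset_adjoin ℚ _ hz
  have hXK : ∀ i, X i ∈ K := by
    intro i
    by_cases hi : i = i₀
    · rw [hi, hX1]
      exact one_mem _
    · refine hSK _ ?_
      rw [hS]
      exact Finset.mem_union_left _ (Finset.mem_image_of_mem _
        (Finset.mem_erase.mpr ⟨hi, mem_univ _⟩))
  have hTK : ∀ l, T l ∈ K := by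
    intro l
    by_cases hl : l = l₀
    · rw [hl, hT1]
      exact one_mem _
    · refine hSK _ ?_
      rw [hS]
      exact Finset.mem_union_right _ (Finset.mem_union_left _ (Finset.mem_image_of_mem _
        (Finset.mem_erase.mpr ⟨hl, mem_univ _⟩)))
  have hrest : ∀ p : I, p ∉ SB → coeff p.2.1 (f p.1) ∈ K := by
    intro p hp
    refine hSK _ ?_
    rw [hS]
    exact Finset.mem_union_right _ (Finset.mem_union_right _ (Finset.mem_image_of_mem
      (fun p : I => coeff p.2.1 (f p.1)) (Finset.mem_sdiff.mpr ⟨mem_univ _, hp⟩)))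
  have hnat : ∀ (k : ℕ), (k : ℂ) ∈ K := fun k => natCast_mem K k
  -- first step: the coefficients of the monomials `B i`
  have hstep1 : ∀ i, i ≠ i₀ →
      coeff (Finsupp.single i₀ (d l₀ - 1) + Finsupp.single i 1) (f l₀) ∈ K := by
    intro i hi
    set b : ι →₀ ℕ := Finsupp.single i₀ (d l₀ - 1) + Finsupp.single i 1 with hb
    have hbm : b ∈ mons ι (d l₀) := (B i).2
    -- every other term of the equation lies in `K`
    have hterm : ∀ l, ∀ s ∈ mons ι (d l), ¬ (l = l₀ ∧ s = b) →
        coeff s (f l) * ((s i : ℂ) * ∏ j, X j ^ ((s - Finsupp.single i 1 : ι →₀ ℕ) j)) ∈ K := by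
      intro l s hs hne
      by_cases hp : (⟨l, ⟨s, hs⟩⟩ : I) ∈ SB
      · -- the exponent of `i` vanishes
        have hsi : s i = 0 := by
          rw [hSB, Finset.mem_union, Finset.mem_image, Finset.mem_image] at hp
          rcases hp with ⟨l', -, hl'⟩ | ⟨i', hi', hl'⟩
          · obtain ⟨h1, h2⟩ := Sigma.mk.inj_iff.mp hl'
            subst h1
            have h3 : A l' = ⟨s, hs⟩ := eq_of_heq h2
            have h4 := congrArg (fun s : {s // s ∈ mons ι (d l')} => (s : ι →₀ ℕ) i) h3
            simp only [hAval] at h4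
            rw [← h4, Finsupp.single_apply, if_neg (Ne.symm hi)]
          · obtain ⟨h1, h2⟩ := Sigma.mk.inj_iff.mp hl'
            subst h1
            have h3 : B i' = ⟨s, hs⟩ := eq_of_heq h2
            have h4 : (B i' : ι →₀ ℕ) = s := congrArg (fun s : {s // s ∈ mons ι (d l₀)} =>
              (s : ι →₀ ℕ)) h3
            rw [hBval] at h4
            have hii' : i' ≠ i := by
              rintro rfl
              exact hne ⟨rfl, h4.symm⟩
            rw [← h4, Finsupp.add_apply, Finsupp.single_apply, if_neg (Ne.symm hi),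
              Finsupp.single_apply, if_neg hii', zero_add]
        rw [hsi]
        simp only [Nat.cast_zero, zero_mul, mul_zero]
        exact zero_mem _
      · exact mul_mem (hrest _ hp) (mul_mem (hnat _) (coeff_smul_mem hXK _))
    have h1 := hTf i
    simp only [fun l => eval_pderiv_eq_mons (hf l) i X] at h1
    rw [← Finset.add_sum_erase univ _ (mem_univ l₀), hT1, one_mul,
      ← Finset.add_sum_erase (mons ι (d l₀)) _ hbm] at h1
    have h2 : coeff b (f l₀) * ((b i : ℂ) * ∏ j, X j ^ ((b - Finsupp.single i 1 : ι →₀ ℕ) j)) =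
        coeff b (f l₀) := by
      rw [hb, hBne i hi, add_tsub_cancel_right, prod_single_pow hX1]
      simp
    rw [h2] at h1
    have h3 : ∑ s ∈ (mons ι (d l₀)).erase b,
        coeff s (f l₀) * ((s i : ℂ) * ∏ j, X j ^ ((s - Finsupp.single i 1 : ι →₀ ℕ) j)) ∈ K :=
      sum_mem fun s hs => hterm l₀ s (Finset.mem_of_mem_erase hs)
        fun h => (Finset.mem_erase.mp hs).1 h.2
    have h4 : ∑ l ∈ univ.erase l₀, T l * ∑ s ∈ mons ι (d l),
        coeff s (f l) * ((s i : ℂ) * ∏ j, X j ^ ((s - Finsupp.single i 1 : ι →₀ ℕ) j)) ∈ K :=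
      sum_mem fun l hl => mul_mem (hTK l) (sum_mem fun s hs => hterm l s hs
        fun h => (Finset.mem_erase.mp hl).1 h.1)
    have h5 : coeff b (f l₀) = -(∑ s ∈ (mons ι (d l₀)).erase b,
        coeff s (f l₀) * ((s i : ℂ) * ∏ j, X j ^ ((s - Finsupp.single i 1 : ι →₀ ℕ) j)) +
        ∑ l ∈ univ.erase l₀, T l * ∑ s ∈ mons ι (d l),
        coeff s (f l) * ((s i : ℂ) * ∏ j, X j ^ ((s - Finsupp.single i 1 : ι →₀ ℕ) j))) := by
      linear_combination h1
    rw [h5]
    exact neg_mem (add_mem h3 h4)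
  -- second step
  have hstep2 : ∀ l, coeff (Finsupp.single i₀ (d l)) (f l) ∈ K := by
    intro l
    set b : ι →₀ ℕ := Finsupp.single i₀ (d l) with hb
    have hbm : b ∈ mons ι (d l) := (A l).2
    have h1 := hXf l
    rw [eval_eq_mons (hf l), ← Finset.add_sum_erase (mons ι (d l)) _ hbm, hb,
      prod_single_pow hX1, mul_one, ← hb] at h1
    have h3 : ∑ s ∈ (mons ι (d l)).erase b, coeff s (f l) * ∏ j, X j ^ s j ∈ K := by
      refine sum_mem fun s hs => mul_mem ?_ (coeff_smul_mem hXK _)
      have hs' := Finset.mem_of_mem_erase hs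
      by_cases hp : (⟨l, ⟨s, hs'⟩⟩ : I) ∈ SB
      · rw [hSB, Finset.mem_union, Finset.mem_image, Finset.mem_image] at hp
        rcases hp with ⟨l', -, hl'⟩ | ⟨i', hi', hl'⟩
        · obtain ⟨h1, h2⟩ := Sigma.mk.inj_iff.mp hl'
          subst h1
          have h3 : A l' = ⟨s, hs'⟩ := eq_of_heq h2
          have h4 : (A l' : ι →₀ ℕ) = s := congrArg (fun s : {s // s ∈ mons ι (d l')} =>
            (s : ι →₀ ℕ)) h3
          exact absurd h4.symm (Finset.mem_erase.mp hs).1
        · obtain ⟨h1, h2⟩ := Sigma.mk.inj_iff.mp hl'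
          subst h1
          have h3 : B i' = ⟨s, hs'⟩ := eq_of_heq h2
          have h4 : (B i' : ι →₀ ℕ) = s := congrArg (fun s : {s // s ∈ mons ι (d l₀)} =>
            (s : ι →₀ ℕ)) h3
          rw [← h4, hBval]
          exact hstep1 i' (Finset.mem_erase.mp hi').1
      · exact hrest _ hp
    rw [eq_neg_of_add_eq_zero_left h1]
    exact neg_mem h3
  have hall : ∀ p : I, coeff p.2.1 (f p.1) ∈ K := by
    intro p
    by_cases hp : p ∈ SB
    · rw [hSB, Finset.mem_union, Finset.mem_image, Finset.mem_image] at hp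
      rcases hp with ⟨l', -, hl'⟩ | ⟨i', hi', hl'⟩
      · rw [← hl']
        exact hstep2 l'
      · rw [← hl']
        exact hstep1 i' (Finset.mem_erase.mp hi').1
    · exact hrest p hp
  have hfin := card_le_of_mem_adjoin hind (S := S) hall
  have hSBle : SB.card ≤ Fintype.card I := Finset.card_le_univ _
  rw [hSBcard] at hSBle
  have hc1 : 1 ≤ c := by
    have := l₀.2
    omega
  have hfin' : Fintype.card I ≤ S.card := hfin
  omega

end Pool.Agent.H89.Ci
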