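import Pool.Agent.Lib.H89.Ci.Units

set_option autoImplicit false

/-!
Existence of units for every group with `∑ (d l - 1) ≥ 4` (quadratic), `≥ 3` (linear).
-/

open Finset

namespace Pool.Agent.H89.Ci

variable {n c : ℕ}

theorem sum_le_card {G : Finset (Fin c)} {f : Fin c → ℕ} (h1 : ∀ l ∈ G, f l ≤ 1) :
    ∑ l ∈ G, f l ≤ (G.filter fun l => f l = 1).card := by
  rw [Finset.card_filter]
  refine Finset.sum_le_sum fun l hl => ?_
  have := h1 l hl
  split_ifs with h
  · omega
  · omega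

theorem exists_inj_of_card {G : Finset (Fin c)} {k : ℕ} (h : k ≤ G.card) :
    ∃ σ : Fin k → Fin c, Function.Injective σ ∧ ∀ i, σ i ∈ G := by
  obtain ⟨T, hT, hTc⟩ := Finset.exists_subset_card_eq h
  exact ⟨T.orderEmbOfFin hTc, (T.orderEmbOfFin hTc).injective, fun i =>
    hT (Finset.orderEmbOfFin_mem T hTc i)⟩

/-- Quadratic units. -/
theorem exists_un_two {d : Fin c → ℕ} {G : Finset (Fin c)} (hd : ∀ l, d l ≠ 0)
    (hG : 4 ≤ ∑ l ∈ G, (d l - 1)) (j : Fin (n + 1)) {Q : MvPolynomial (Fin (n + 1 + c)) ℂ}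
    (hQ : Q.IsHomogeneous 2) : ∃ H, Un 2 d G j Q H := by
  by_cases h5 : ∃ l ∈ G, 5 ≤ d l
  · obtain ⟨l, hl, h5⟩ := h5
    exact un_A hd j hQ hl h5
  push Not at h5
  by_cases h4 : ∃ l ∈ G, d l = 4
  · obtain ⟨l, hl, h4⟩ := h4
    have h1 : ∃ l' ∈ G.erase l, d l' - 1 ≠ 0 := by
      by_contra hcon
      push Not at hcon
      rw [← Finset.add_sum_erase G _ hl, Finset.sum_eq_zero hcon, h4] at hG
      omega
    obtain ⟨l', hl', h2⟩ := h1
    rw [Finset.mem_erase] at hl'
    exact un_B hd j hQ hl hl'.2 hl'.1.symm h4 (by omega)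
  push Not at h4
  by_cases h3 : ∃ l ∈ G, d l = 3
  · obtain ⟨l, hl, h3⟩ := h3
    by_cases h3' : ∃ l' ∈ G.erase l, d l' = 3
    · obtain ⟨l', hl', h3'⟩ := h3'
      rw [Finset.mem_erase] at hl'
      exact un_C hd j hQ hl hl'.2 hl'.1.symm h3 h3'
    · push Not at h3'
      have h1 := sum_le_card (G := G.erase l) (f := fun l => d l - 1) (by
        intro l' hl'
        have h1 := h3' l' hl'
        rw [Finset.mem_erase] at hl'
        have h2 := h4 l' hl'.2
        have h3 := h5 l' hl'.2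
        show d l' - 1 ≤ 1
        omega)
      rw [← Finset.add_sum_erase G _ hl, h3] at hG
      obtain ⟨σ, hσ, hσG⟩ := exists_inj_of_card (k := 2) (G := (G.erase l).filter fun l =>
        d l - 1 = 1) (by omega)
      have h2 := fun i => Finset.mem_filter.mp (hσG i)
      have h6 := fun i => Finset.mem_erase.mp (h2 i).1
      have hne : σ 0 ≠ σ 1 := fun h => by
        have := hσ h
        exact absurd this (by decide)
      have e0 := (h2 0).2
      have e1 := (h2 1).2
      exact un_D hd j hQ hl (h6 0).2 (h6 1).2 (h6 0).1.symm (h6 1).1.symm hne h3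
        (by omega) (by omega)
  push Not at h3
  have h1 := sum_le_card (G := G) (f := fun l => d l - 1) (by
    intro l' hl'
    have h1 := h3 l' hl'
    have h2 := h4 l' hl'
    have h3 := h5 l' hl'
    show d l' - 1 ≤ 1
    omega)
  obtain ⟨σ, hσ, hσG⟩ := exists_inj_of_card (k := 4) (G := G.filter fun l => d l - 1 = 1)
    (hG.trans h1)
  have h2 := fun i => Finset.mem_filter.mp (hσG i)
  exact un_E hd j hQ hσ (fun i => (h2 i).1) fun i => by
    have := (h2 i).2
    omega

/-- Linear units. -/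
theorem exists_un_one {d : Fin c → ℕ} {G : Finset (Fin c)} (hd : ∀ l, d l ≠ 0)
    (hG : 3 ≤ ∑ l ∈ G, (d l - 1)) (j : Fin (n + 1)) {Q : MvPolynomial (Fin (n + 1 + c)) ℂ}
    (hQ : Q.IsHomogeneous 1) : ∃ H, Un 1 d G j Q H := by
  by_cases h5 : ∃ l ∈ G, 4 ≤ d l
  · obtain ⟨l, hl, h5⟩ := h5
    exact un_A1 hd j hQ hl h5
  push Not at h5
  by_cases h4 : ∃ l ∈ G, d l = 3
  · obtain ⟨l, hl, h4⟩ := h4
    have h1 : ∃ l' ∈ G.erase l, d l' - 1 ≠ 0 := by
      by_contra hcon
      push Not at hcon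
      rw [← Finset.add_sum_erase G _ hl, Finset.sum_eq_zero hcon, h4] at hG
      omega
    obtain ⟨l', hl', h2⟩ := h1
    rw [Finset.mem_erase] at hl'
    exact un_B1 hd j hQ hl hl'.2 hl'.1.symm h4 (by omega)
  push Not at h4
  have h1 := sum_le_card (G := G) (f := fun l => d l - 1) (by
    intro l' hl'
    have h2 := h4 l' hl'
    have h3 := h5 l' hl'
    show d l' - 1 ≤ 1
    omega)
  obtain ⟨σ, hσ, hσG⟩ := exists_inj_of_card (k := 3) (G := G.filter fun l => d l - 1 = 1)
    (hG.trans h1)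
  have h2 := fun i => Finset.mem_filter.mp (hσG i)
  exact un_C1 hd j hQ hσ (fun i => (h2 i).1) fun i => by
    have := (h2 i).2
    omega

end Pool.Agent.H89.Ci
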