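import Pool.Agent.Lib.H89.Ci.LemF
import Pool.Agent.Lib.H89.Ci.Pick
import Pool.Agent.Lib.H89.Ci.GenSmooth

set_option autoImplicit false

/-!
Smooth Brody hyperbolic complete intersections of low degree.
-/

open Finset Filter Topology
open MvPolynomial (X C aeval eval coeff rename monomial)

namespace Pool.Agent.H89.Ci

variable {n c : ℕ}

theorem aeval_mul_const {M : Type} [Field M] [Algebra ℂ M] {m r : ℕ}
    {Q : MvPolynomial (Fin m) ℂ} (hQ : Q.IsHomogeneous r)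
    {w : Fin m → M} {a : Fin m → ℂ} {t : M} (hw : ∀ k, w k = algebraMap ℂ M (a k) * t) :
    aeval w Q = algebraMap ℂ M (eval a Q) * t ^ r := by
  rw [MvPolynomial.aeval_def, MvPolynomial.eval₂_eq', MvPolynomial.eval_eq', map_sum,
    Finset.sum_mul]
  refine Finset.sum_congr rfl fun s hs => ?_
  have h2 : s.degree = r := by
    by_contra hcon
    exact (MvPolynomial.mem_support_iff.mp hs) (hQ.coeff_eq_zero hcon)
  rw [map_mul, map_prod, mul_assoc, ← h2, Finsupp.degree_eq_sum, ← Finset.prod_pow_eq_pow_sum,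
    ← Finset.prod_mul_distrib]
  congr 1
  refine Finset.prod_congr rfl fun k _ => ?_
  rw [hw k, mul_pow, map_pow]

/-- Curves in the special complete intersection are constant. -/
theorem special_units {d : Fin c → ℕ} (hd : ∀ l, 1 ≤ d l) {P : PI n → ℂ}
    (hP : AlgebraicIndependent ℚ P) {B : Finset (Fin n)} (hBc : B.card ≤ 1)
    {G : Fin n → Finset (Fin c)} {H : Fin n → Fin c → MvPolynomial (Fin (n + 1 + c)) ℂ}
    (hUA : ∀ j, j ∉ B → Un 2 d (G j) j.castSucc (rename (Fin.castAdd c) (quadP P j)) (H j))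
    (hUB : ∀ j ∈ B, Un 1 d (G j) j.castSucc (rename (Fin.castAdd c) (linP P j)) (H j))
    {F : Fin c → MvPolynomial (Fin (n + 1 + c)) ℂ} (hFh : ∀ l, (F l).IsHomogeneous (d l))
    (hF : ∀ j, ∀ l ∈ G j, F l = X (Fin.natAdd (n + 1) l) ^ d l - H j l)
    (hF0 : ∀ l, (∀ j, l ∉ G j) → F l = X (Fin.natAdd (n + 1) l) ^ d l)
    {φ : ℂ → Fin (n + 1 + c) → ℂ} (hφ : Hol φ) (hφF : ∀ z l, eval (φ z) (F l) = 0) :
    ∃ κ : Fin (n + 1 + c) → ℂ, ∀ z, ∃ b : ℂ, b ≠ 0 ∧ φ z = b • κ := by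
  classical
  obtain ⟨j₀, u, huj₀, hne0, hrep, hconst⟩ := hol_mer hφ
  apply hconst
  have heq : ∀ l, aeval u (F l) = 0 := by
    intro l
    apply eq_zero_of_rep (z := 0)
    refine Eventually.frequently ?_
    filter_upwards [rep_aeval u (F l) 0, hrep, hne0] with z h1 h2 h3
    have h4 : (fun i => rep (u i) z) = (φ z j₀)⁻¹ • φ z := by
      ext i
      rw [h2 i, Pi.smul_apply, smul_eq_mul, div_eq_inv_mul]
    rw [h1, h4, eval_smul' (hFh l), hφF, mul_zero]
  have hU : ∀ j, ∀ l ∈ G j, u (Fin.natAdd (n + 1) l) ^ d l = aeval u (H j l) := by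
    intro j l hl
    have h1 := heq l
    rw [hF j l hl, map_sub, map_pow, MvPolynomial.aeval_X, sub_eq_zero] at h1
    exact h1
  have hU0 : ∀ l, (∀ j, l ∉ G j) → u (Fin.natAdd (n + 1) l) = 0 := by
    intro l hl
    have h1 := heq l
    rw [hF0 l hl, map_pow, MvPolynomial.aeval_X] at h1
    exact (pow_eq_zero_iff (by have := hd l; omega)).mp h1
  set w : Fin (n + 1) → Mer := fun k => u (Fin.castAdd c k) with hw
  have hren : ∀ Q : MvPolynomial (Fin (n + 1)) ℂ, aeval u (rename (Fin.castAdd c) Q) =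
      aeval w Q := by
    intro Q
    rw [MvPolynomial.aeval_rename]
    rfl
  obtain ⟨t, a, hta⟩ := lemmaF hP hBc (w := w) (by
    intro j hj hwj
    obtain ⟨κ, hκ⟩ := (hUA j hj).rig u (hU j) hwj
    exact ⟨κ, by rw [← hren, hκ]⟩) (by
    intro j hj hwj
    obtain ⟨κ, hκ⟩ := (hUB j hj).rig u (hU j) hwj
    exact ⟨κ, by rw [← hren, hκ]⟩)
  have hz : ∀ l, ∃ b : ℂ, u (Fin.natAdd (n + 1) l) = algebraMap ℂ Mer b * t := by
    intro l
    by_cases hl : ∃ j, l ∈ G j
    · obtain ⟨j, hl⟩ := hl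
      by_cases hj : j ∈ B
      · refine (hUB j hj).con u (hU j) t (a j.castSucc) (eval a (linP P j)) (hta _) ?_ l hl
        rw [hren]
        exact aeval_mul_const (hom_linP P j) hta
      · refine (hUA j hj).con u (hU j) t (a j.castSucc) (eval a (quadP P j)) (hta _) ?_ l hl
        rw [hren]
        exact aeval_mul_const (hom_quadP P j) hta
    · push Not at hl
      exact ⟨0, by rw [hU0 l hl, map_zero, zero_mul]⟩
  have hall : ∀ i, ∃ b : ℂ, u i = algebraMap ℂ Mer b * t := by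
    intro i
    refine Fin.addCases (fun k => ?_) (fun l => ?_) i
    · exact ⟨a k, hta k⟩
    · exact hz l
  choose b hb using hall
  have ht : t = algebraMap ℂ Mer (b j₀)⁻¹ := by
    have h1 := hb j₀
    rw [huj₀] at h1
    rw [map_inv₀]
    exact eq_inv_of_mul_eq_one_left (by rw [mul_comm, ← h1])
  intro i
  exact ⟨b i * (b j₀)⁻¹, by rw [hb i, ht, map_mul]⟩

/-- **Smooth Brody hyperbolic complete intersections of low degree.** -/
theorem exists_hyp_open (n c : ℕ) (hn : 1 ≤ n) (d : Fin c → ℕ) (hd : ∀ l, 1 ≤ d l)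
    (G : Fin n → Finset (Fin c)) (hG : ∀ i j, i ≠ j → Disjoint (G i) (G j))
    (h3 : ∀ j, 3 ≤ ∑ l ∈ G j, (d l - 1))
    (h4 : ∀ j : Fin n, (j : ℕ) ≠ 0 → 4 ≤ ∑ l ∈ G j, (d l - 1)) :
    ∃ f₀ : Fin c → MvPolynomial (Fin (n + 1 + c)) ℂ, (∀ l, (f₀ l).IsHomogeneous (d l)) ∧
      ∃ ε > 0, ∀ f : Fin c → MvPolynomial (Fin (n + 1 + c)) ℂ, (∀ l, (f l).IsHomogeneous (d l)) →
        (∀ l s, ‖coeff s (f l) - coeff s (f₀ l)‖ < ε) →
        Smooth f ∧ ∀ φ : ℂ → Fin (n + 1 + c) → ℂ, Hol φ →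
          (∀ z l, eval (φ z) (f l) = 0) →
            ∀ z w, ∃ b : ℂ, b ≠ 0 ∧ φ z = b • φ w := by
  classical
  obtain ⟨P, hP⟩ := exists_algInd (PI n)
  have hd0 : ∀ l, d l ≠ 0 := fun l => by have := hd l; omega
  set B : Finset (Fin n) := {⟨0, hn⟩} with hB
  have hBc : B.card ≤ 1 := by rw [hB, Finset.card_singleton]
  have hH : ∀ j : Fin n, ∃ H : Fin c → MvPolynomial (Fin (n + 1 + c)) ℂ,
      (j ∉ B → Un 2 d (G j) j.castSucc (rename (Fin.castAdd c) (quadP P j)) H) ∧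
      (j ∈ B → Un 1 d (G j) j.castSucc (rename (Fin.castAdd c) (linP P j)) H) := by
    intro j
    by_cases hj : j ∈ B
    · obtain ⟨H, hH⟩ := exists_un_one hd0 (h3 j) j.castSucc
        (Q := rename (Fin.castAdd c) (linP P j)) (hom_linP P j).rename_isHomogeneous
      exact ⟨H, fun h => absurd hj h, fun _ => hH⟩
    · obtain ⟨H, hH⟩ := exists_un_two hd0 (h4 j (fun h => hj (by
        rw [hB, Finset.mem_singleton]
        exact Fin.ext h))) j.castSucc
        (Q := rename (Fin.castAdd c) (quadP P j)) (hom_quadP P j).rename_isHomogeneous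
      exact ⟨H, fun _ => hH, fun h => absurd h hj⟩
  choose H hHA hHB using hH
  have hHh : ∀ j l, (H j l).IsHomogeneous (d l) := by
    intro j l
    by_cases hj : j ∈ B
    · exact (hHB j hj).hom l
    · exact (hHA j hj).hom l
  set F : Fin c → MvPolynomial (Fin (n + 1 + c)) ℂ := fun l =>
    if h : ∃ j, l ∈ G j then X (Fin.natAdd (n + 1) l) ^ d l - H h.choose l
    else X (Fin.natAdd (n + 1) l) ^ d l with hFdef
  have hXh : ∀ l : Fin c, (X (Fin.natAdd (n + 1) l) ^ d l :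
      MvPolynomial (Fin (n + 1 + c)) ℂ).IsHomogeneous (d l) := fun l =>
    hom_cast ((hom_X _).pow _) (by omega)
  have hFh : ∀ l, (F l).IsHomogeneous (d l) := by
    intro l
    simp only [hFdef]
    split_ifs with h
    · exact (hXh l).sub (hHh _ _)
    · exact hXh l
  have hF1 : ∀ j, ∀ l ∈ G j, F l = X (Fin.natAdd (n + 1) l) ^ d l - H j l := by
    intro j l hl
    have h : ∃ j, l ∈ G j := ⟨j, hl⟩
    have hj : h.choose = j := by
      by_contra hne
      exact Finset.disjoint_left.mp (hG _ _ hne) h.choose_spec hl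
    simp only [hFdef]
    rw [dif_pos h, hj]
  have hF0 : ∀ l, (∀ j, l ∉ G j) → F l = X (Fin.natAdd (n + 1) l) ^ d l := by
    intro l hl
    simp only [hFdef]
    rw [dif_neg (by push Not; exact hl)]
  have hBr : ∀ φ : ℂ → Fin (n + 1 + c) → ℂ, Hol φ → (∀ z l, eval (φ z) (F l) = 0) →
      ∀ z w, ∃ b : ℂ, b ≠ 0 ∧ φ z = b • φ w := by
    intro φ hφ hφV z w
    obtain ⟨κ, hκ⟩ := special_units hd hP hBc hHA hHB hFh hF1 hF0 hφ hφV
    obtain ⟨b, hb, hbe⟩ := hκ z
    obtain ⟨b', hb', hbe'⟩ := hκ w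
    refine ⟨b * b'⁻¹, mul_ne_zero hb (inv_ne_zero hb'), ?_⟩
    rw [hbe, hbe', smul_smul, mul_assoc, inv_mul_cancel₀ hb', mul_one]
  obtain ⟨ε₁, hε₁, h1⟩ := brody_open d hFh hBr
  -- a nearby smooth one
  obtain ⟨a, ha, hab⟩ := exists_algInd_near
    ((l : Fin c) × {s // s ∈ mons (Fin (n + 1 + c)) (d l)})
    (fun p => coeff p.2.1 (F p.1)) (ε₁ / 2) (by positivity)
  set f₁ : Fin c → MvPolynomial (Fin (n + 1 + c)) ℂ := fun l =>
    ∑ s : {s // s ∈ mons (Fin (n + 1 + c)) (d l)}, monomial s.1 (a ⟨l, s⟩) with hf₁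
  have hf₁h : ∀ l, (f₁ l).IsHomogeneous (d l) := by
    intro l
    refine MvPolynomial.IsHomogeneous.sum _ _ _ fun s _ => ?_
    exact MvPolynomial.isHomogeneous_monomial _ (mem_mons.mp s.2)
  have hf₁c : ∀ (l : Fin c) (s : {s // s ∈ mons (Fin (n + 1 + c)) (d l)}),
      coeff s.1 (f₁ l) = a ⟨l, s⟩ := by
    intro l s
    simp only [hf₁, MvPolynomial.coeff_sum, MvPolynomial.coeff_monomial]
    rw [Finset.sum_eq_single s]
    · rw [if_pos rfl]
    · intro s' _ hs'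
      rw [if_neg fun h => hs' (Subtype.ext h)]
    · intro h
      exact absurd (mem_univ _) h
  have hsm : Smooth f₁ := smooth_of_algInd hd hf₁h (by
    have h2 : (fun p : (l : Fin c) × {s // s ∈ mons (Fin (n + 1 + c)) (d l)} =>
        coeff p.2.1 (f₁ p.1)) = a := by
      ext p
      exact hf₁c p.1 p.2
    rw [h2]
    exact ha)
  obtain ⟨ε₂, hε₂, h2⟩ := smooth_open hf₁h hsm
  have hnear : ∀ l s, ‖coeff s (f₁ l) - coeff s (F l)‖ < ε₁ / 2 := by
    intro l s
    by_cases hs : s ∈ mons (Fin (n + 1 + c)) (d l)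
    · have h5 := hab ⟨l, ⟨s, hs⟩⟩
      rw [← hf₁c l ⟨s, hs⟩] at h5
      exact h5
    · rw [mem_mons] at hs
      rw [(hf₁h l).coeff_eq_zero hs, (hFh l).coeff_eq_zero hs, sub_zero, norm_zero]
      positivity
  refine ⟨f₁, hf₁h, min (ε₁ / 2) ε₂, lt_min (by positivity) hε₂, fun f hf hfc => ⟨?_, ?_⟩⟩
  · exact h2 f hf fun l s => (hfc l s).trans_le (min_le_right _ _)
  · refine h1 f hf fun l s => ?_
    have h5 := (hfc l s).trans_le (min_le_left _ _)
    have h6 := hnear l s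
    calc ‖coeff s (f l) - coeff s (F l)‖
        = ‖(coeff s (f l) - coeff s (f₁ l)) + (coeff s (f₁ l) - coeff s (F l))‖ := by
          rw [sub_add_sub_cancel]
      _ ≤ _ := norm_add_le _ _
      _ < ε₁ / 2 + ε₁ / 2 := add_lt_add h5 h6
      _ = ε₁ := by ring

end Pool.Agent.H89.Ci
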