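import Mathlib

set_option autoImplicit false

/-!
The Bezout matrix of two polynomials.
-/

open Finset Matrix

namespace Pool.Agent.H89.Ci

variable {A B : Type*} [CommRing A] [CommRing B]

/-- The value of the polynomial with the coefficients `r`. -/
def ev {n : ℕ} (r : Fin n → A) (a : A) : A := ∑ m, r m * a ^ (m : ℕ)

/-- The value of the derivative. -/
def ev' {n : ℕ} (r : Fin n → A) (a : A) : A := ∑ m, r m * ((m : ℕ) * a ^ ((m : ℕ) - 1))

/-- The coefficients of the Bezout matrix. -/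
def bezK {s : ℕ} (m l : Fin (s + 1)) (p q : Fin s) : ℤ :=
  if (m : ℕ) + l = p + q + 1 then
    (if (l : ℕ) ≤ p ∧ (l : ℕ) ≤ q then 1 else 0) - (if (m : ℕ) ≤ p ∧ (m : ℕ) ≤ q then 1 else 0)
  else 0

theorem bezK_symm {s : ℕ} (m l : Fin (s + 1)) (p q : Fin s) : bezK l m p q = -bezK m l p q := by
  unfold bezK
  rw [add_comm (l : ℕ) (m : ℕ)]
  split_ifs <;> simp

theorem bezK_self {s : ℕ} (m : Fin (s + 1)) (p q : Fin s) : bezK m m p q = 0 := by
  unfold bezK
  split_ifs <;> simp

theorem sum_bezK_of_lt {s : ℕ} {m l : Fin (s + 1)} (h : (l : ℕ) < m) (a b : A) :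
    ∑ p : Fin s, ∑ q : Fin s, (bezK m l p q : A) * (a ^ (p : ℕ) * b ^ (q : ℕ)) =
      ∑ i ∈ range ((m : ℕ) - l), a ^ ((l : ℕ) + i) * b ^ ((m : ℕ) - 1 - i) := by
  have hms : (m : ℕ) ≤ s := Nat.lt_succ_iff.mp m.2
  have h1 : ∀ p : Fin s, ∑ q : Fin s, (bezK m l p q : A) * (a ^ (p : ℕ) * b ^ (q : ℕ)) =
      if (l : ℕ) ≤ p ∧ (p : ℕ) < m then a ^ (p : ℕ) * b ^ ((m : ℕ) + l - 1 - p) else 0 := by
    intro p
    split_ifs with hp
    · rw [Finset.sum_eq_single (⟨(m : ℕ) + l - 1 - p, by omega⟩ : Fin s)]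
      · have : bezK m l p (⟨(m : ℕ) + l - 1 - p, by omega⟩ : Fin s) = 1 := by
          unfold bezK
          rw [if_pos (by simp only; omega), if_pos (by simp only; omega),
            if_neg (by simp only; omega)]
          simp
        rw [this]
        simp
      · intro q _ hq
        have : bezK m l p q = 0 := by
          unfold bezK
          rw [if_neg]
          intro h2
          apply hq
          ext
          simp only
          omega
        rw [this]
        simp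
      · intro h; exact absurd (Finset.mem_univ _) h
    · refine Finset.sum_eq_zero fun q _ => ?_
      have : bezK m l p q = 0 := by
        unfold bezK
        split_ifs with h2 h3 h4 h5
        · omega
        · omega
        · omega
        · simp
        · rfl
      rw [this]
      simp
  rw [Finset.sum_congr rfl fun p _ => h1 p]
  rw [Fin.sum_univ_eq_sum_range
    (fun p => if (l : ℕ) ≤ p ∧ p < m then a ^ p * b ^ ((m : ℕ) + l - 1 - p) else 0) s]
  rw [← Finset.sum_filter]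
  have h2 : (range s).filter (fun p => (l : ℕ) ≤ p ∧ p < m) = Finset.Ico (l : ℕ) m := by
    ext p
    simp only [Finset.mem_filter, Finset.mem_range, Finset.mem_Ico]
    omega
  rw [h2, Finset.sum_Ico_eq_sum_range]
  refine Finset.sum_congr rfl fun i hi => ?_
  rw [Finset.mem_range] at hi
  congr 2
  omega

theorem sum_bezK {s : ℕ} (m l : Fin (s + 1)) (a b : A) :
    (a - b) * ∑ p : Fin s, ∑ q : Fin s, (bezK m l p q : A) * (a ^ (p : ℕ) * b ^ (q : ℕ)) =
      a ^ (m : ℕ) * b ^ (l : ℕ) - a ^ (l : ℕ) * b ^ (m : ℕ) := by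
  have key : ∀ m l : Fin (s + 1), (l : ℕ) < m →
      (a - b) * ∑ p : Fin s, ∑ q : Fin s, (bezK m l p q : A) * (a ^ (p : ℕ) * b ^ (q : ℕ)) =
      a ^ (m : ℕ) * b ^ (l : ℕ) - a ^ (l : ℕ) * b ^ (m : ℕ) := by
    intro m l h
    rw [sum_bezK_of_lt h]
    have h1 : ∑ i ∈ range ((m : ℕ) - l), a ^ ((l : ℕ) + i) * b ^ ((m : ℕ) - 1 - i) =
        a ^ (l : ℕ) * b ^ (l : ℕ) *
          ∑ i ∈ range ((m : ℕ) - l), a ^ i * b ^ ((m : ℕ) - l - 1 - i) := by
      rw [Finset.mul_sum]
      refine Finset.sum_congr rfl fun i hi => ?_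
      rw [Finset.mem_range] at hi
      have h2 : (m : ℕ) - 1 - i = l + ((m : ℕ) - l - 1 - i) := by omega
      rw [h2, pow_add, pow_add]
      ring
    have h3 := (Commute.all a b).mul_geom_sum₂ ((m : ℕ) - l)
    rw [h1]
    have h4 : (m : ℕ) = l + ((m : ℕ) - l) := by omega
    calc (a - b) * (a ^ (l : ℕ) * b ^ (l : ℕ) *
          ∑ i ∈ range ((m : ℕ) - l), a ^ i * b ^ ((m : ℕ) - l - 1 - i))
        = a ^ (l : ℕ) * b ^ (l : ℕ) * ((a - b) *
          ∑ i ∈ range ((m : ℕ) - l), a ^ i * b ^ ((m : ℕ) - l - 1 - i)) := by ring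
      _ = a ^ (l : ℕ) * b ^ (l : ℕ) * (a ^ ((m : ℕ) - l) - b ^ ((m : ℕ) - l)) := by rw [h3]
      _ = a ^ ((l : ℕ) + ((m : ℕ) - l)) * b ^ (l : ℕ) -
          a ^ (l : ℕ) * b ^ ((l : ℕ) + ((m : ℕ) - l)) := by rw [pow_add, pow_add]; ring
      _ = _ := by rw [← h4]
  rcases lt_trichotomy (l : ℕ) m with h | h | h
  · exact key m l h
  · have hml : m = l := Fin.ext h.symm
    subst hml
    simp [bezK_self]
  · have h1 := key l m h
    have h2 : ∀ p q, (bezK m l p q : A) = -(bezK l m p q : A) := by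
      intro p q
      rw [bezK_symm l m]
      push_cast
      rfl
    simp only [h2, neg_mul, Finset.sum_neg_distrib, mul_neg]
    rw [h1]
    ring

theorem sum_bezK_diag {s : ℕ} (m l : Fin (s + 1)) (a : A) :
    ∑ p : Fin s, ∑ q : Fin s, (bezK m l p q : A) * (a ^ (p : ℕ) * a ^ (q : ℕ)) =
      (m : ℕ) * a ^ ((m : ℕ) - 1) * a ^ (l : ℕ) - a ^ (m : ℕ) * ((l : ℕ) * a ^ ((l : ℕ) - 1)) := by
  have key : ∀ m l : Fin (s + 1), (l : ℕ) < m →
      ∑ p : Fin s, ∑ q : Fin s, (bezK m l p q : A) * (a ^ (p : ℕ) * a ^ (q : ℕ)) =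
      (m : ℕ) * a ^ ((m : ℕ) - 1) * a ^ (l : ℕ) -
        a ^ (m : ℕ) * ((l : ℕ) * a ^ ((l : ℕ) - 1)) := by
    intro m l h
    rw [sum_bezK_of_lt h]
    have h1 : ∀ i ∈ range ((m : ℕ) - l), a ^ ((l : ℕ) + i) * a ^ ((m : ℕ) - 1 - i) =
        a ^ ((m : ℕ) + l - 1) := by
      intro i hi
      rw [Finset.mem_range] at hi
      rw [← pow_add]
      congr 1
      omega
    rw [Finset.sum_congr rfl h1, Finset.sum_const, Finset.card_range, nsmul_eq_mul]
    have h2 : ((m : ℕ) : A) * a ^ ((m : ℕ) - 1) * a ^ (l : ℕ) =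
        (m : ℕ) * a ^ ((m : ℕ) + l - 1) := by
      rw [mul_assoc, ← pow_add]
      congr 2
      omega
    have h3 : a ^ (m : ℕ) * (((l : ℕ) : A) * a ^ ((l : ℕ) - 1)) =
        (l : ℕ) * a ^ ((m : ℕ) + l - 1) := by
      rcases Nat.eq_zero_or_pos (l : ℕ) with h0 | h0
      · rw [h0]
        simp
      · rw [mul_left_comm, ← pow_add]
        congr 2
        omega
    rw [h2, h3, ← sub_mul, Nat.cast_sub h.le]
  rcases lt_trichotomy (l : ℕ) m with h | h | h
  · exact key m l h
  · have hml : m = l := Fin.ext h.symm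
    subst hml
    simp only [bezK_self, Int.cast_zero, zero_mul, Finset.sum_const_zero]
    ring
  · have h1 := key l m h
    have h2 : ∀ p q, (bezK m l p q : A) = -(bezK l m p q : A) := by
      intro p q
      rw [bezK_symm l m]
      push_cast
      rfl
    simp only [h2, neg_mul, Finset.sum_neg_distrib]
    rw [h1]
    ring

/-- The Bezout matrix. -/
def bez {s : ℕ} (r t : Fin (s + 1) → A) : Matrix (Fin s) (Fin s) A :=
  Matrix.of fun p q => ∑ m, ∑ l, (bezK m l p q : A) * (r m * t l)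

/-- The Bezout form. -/
def bf {s : ℕ} (M : Matrix (Fin s) (Fin s) A) (a b : A) : A :=
  ∑ p : Fin s, ∑ q : Fin s, M p q * (a ^ (p : ℕ) * b ^ (q : ℕ))

theorem bf_bez {s : ℕ} (r t : Fin (s + 1) → A) (a b : A) :
    bf (bez r t) a b = ∑ m, ∑ l, r m * t l *
      ∑ p : Fin s, ∑ q : Fin s, (bezK m l p q : A) * (a ^ (p : ℕ) * b ^ (q : ℕ)) := by
  unfold bf bez
  simp only [Matrix.of_apply, Finset.sum_mul, Finset.mul_sum]
  rw [Finset.sum_congr rfl fun p _ => Finset.sum_comm]
  rw [Finset.sum_comm]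
  refine Finset.sum_congr rfl fun m _ => ?_
  rw [Finset.sum_congr rfl fun p _ => Finset.sum_comm]
  rw [Finset.sum_comm]
  refine Finset.sum_congr rfl fun l _ => Finset.sum_congr rfl fun p _ =>
    Finset.sum_congr rfl fun q _ => ?_
  ring

theorem bf_bez_mul {s : ℕ} (r t : Fin (s + 1) → A) (a b : A) :
    (a - b) * bf (bez r t) a b = ev r a * ev t b - ev r b * ev t a := by
  rw [bf_bez, Finset.mul_sum]
  have h1 : ∀ m, (a - b) * ∑ l, r m * t l *
      ∑ p : Fin s, ∑ q : Fin s, (bezK m l p q : A) * (a ^ (p : ℕ) * b ^ (q : ℕ)) =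
      ∑ l, (r m * a ^ (m : ℕ) * (t l * b ^ (l : ℕ)) -
        r m * b ^ (m : ℕ) * (t l * a ^ (l : ℕ))) := by
    intro m
    rw [Finset.mul_sum]
    refine Finset.sum_congr rfl fun l _ => ?_
    have h2 := sum_bezK m l a b
    linear_combination (r m * t l) * h2
  rw [Finset.sum_congr rfl fun m _ => h1 m]
  simp only [Finset.sum_sub_distrib]
  unfold ev
  rw [Finset.sum_mul_sum, Finset.sum_mul_sum]

theorem bf_bez_diag {s : ℕ} (r t : Fin (s + 1) → A) (a : A) :
    bf (bez r t) a a = ev' r a * ev t a - ev r a * ev' t a := by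
  rw [bf_bez]
  have h1 : ∀ m, ∑ l, r m * t l *
      ∑ p : Fin s, ∑ q : Fin s, (bezK m l p q : A) * (a ^ (p : ℕ) * a ^ (q : ℕ)) =
      ∑ l, (r m * ((m : ℕ) * a ^ ((m : ℕ) - 1)) * (t l * a ^ (l : ℕ)) -
        r m * a ^ (m : ℕ) * (t l * ((l : ℕ) * a ^ ((l : ℕ) - 1)))) := by
    intro m
    refine Finset.sum_congr rfl fun l _ => ?_
    rw [sum_bezK_diag]
    ring
  rw [Finset.sum_congr rfl fun m _ => h1 m]
  simp only [Finset.sum_sub_distrib]
  unfold ev ev'
  rw [Finset.sum_mul_sum, Finset.sum_mul_sum]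

/-- The determinant of the values of the Bezout form. -/
theorem det_bf {s : ℕ} (M : Matrix (Fin s) (Fin s) A) (α β : Fin s → A) :
    (Matrix.of fun i j => bf M (α i) (β j)).det =
      (vandermonde α).det * M.det * (vandermonde β).det := by
  have h1 : (Matrix.of fun i j => bf M (α i) (β j)) =
      vandermonde α * M * (vandermonde β).transpose := by
    ext i j
    rw [Matrix.of_apply, Matrix.mul_apply]
    unfold bf
    rw [Finset.sum_comm]
    refine Finset.sum_congr rfl fun q _ => ?_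
    rw [Matrix.mul_apply, Finset.sum_mul]
    refine Finset.sum_congr rfl fun p _ => ?_
    simp only [vandermonde_apply, Matrix.transpose_apply]
    ring
  rw [h1, Matrix.det_mul, Matrix.det_mul, Matrix.det_transpose]

/-- Scaling. -/
theorem bez_smul {s : ℕ} (c c' : A) (r t : Fin (s + 1) → A) :
    bez (c • r) (c • t + c' • r) = (c * c) • bez r t := by
  ext p q
  simp only [bez, Matrix.of_apply, Matrix.smul_apply, smul_eq_mul, Pi.smul_apply, Pi.add_apply]
  have h1 : ∑ m, ∑ l, (bezK m l p q : A) * (r m * r l) = 0 := by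
    have h2 : ∑ m : Fin (s + 1), ∑ l : Fin (s + 1), (bezK m l p q : A) * (r m * r l) =
        ∑ m : Fin (s + 1), ∑ l : Fin (s + 1), (if (m : ℕ) + l = p + q + 1 then
          (if (l : ℕ) ≤ p ∧ (l : ℕ) ≤ q then (1 : A) else 0) * (r m * r l) else 0) -
        ∑ m : Fin (s + 1), ∑ l : Fin (s + 1), (if (m : ℕ) + l = p + q + 1 then
          (if (m : ℕ) ≤ p ∧ (m : ℕ) ≤ q then (1 : A) else 0) * (r m * r l) else 0) := by
      rw [← Finset.sum_sub_distrib]
      refine Finset.sum_congr rfl fun m _ => ?_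
      rw [← Finset.sum_sub_distrib]
      refine Finset.sum_congr rfl fun l _ => ?_
      unfold bezK
      split_ifs <;> simp
    rw [h2, sub_eq_zero]
    rw [Finset.sum_comm]
    refine Finset.sum_congr rfl fun m _ => Finset.sum_congr rfl fun l _ => ?_
    rw [add_comm (l : ℕ) (m : ℕ), mul_comm (r l) (r m)]
  have h3 : ∑ m, ∑ l, (bezK m l p q : A) * (c * r m * (c * t l + c' * r l)) =
      c * c * ∑ m, ∑ l, (bezK m l p q : A) * (r m * t l) +
        c * c' * ∑ m, ∑ l, (bezK m l p q : A) * (r m * r l) := by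
    simp only [Finset.mul_sum, ← Finset.sum_add_distrib]
    refine Finset.sum_congr rfl fun m _ => Finset.sum_congr rfl fun l _ => ?_
    ring
  rw [h3, h1, mul_zero, add_zero]

theorem det_bez_smul {s : ℕ} (c c' : A) (r t : Fin (s + 1) → A) :
    (bez (c • r) (c • t + c' • r)).det = c ^ (2 * s) * (bez r t).det := by
  rw [bez_smul, Matrix.det_smul, Fintype.card_fin]
  ring

/-- Base change. -/
theorem map_ev {n : ℕ} (f : A →+* B) (r : Fin n → A) (a : A) :
    f (ev r a) = ev (fun m => f (r m)) (f a) := by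
  unfold ev
  rw [map_sum]
  exact Finset.sum_congr rfl fun m _ => by rw [map_mul, map_pow]

theorem map_bez {s : ℕ} (f : A →+* B) (r t : Fin (s + 1) → A) :
    (bez r t).map f = bez (fun m => f (r m)) (fun m => f (t m)) := by
  ext p q
  simp only [bez, Matrix.map_apply, Matrix.of_apply, map_sum, map_mul, map_intCast]

theorem map_det_bez {s : ℕ} (f : A →+* B) (r t : Fin (s + 1) → A) :
    f (bez r t).det = (bez (fun m => f (r m)) (fun m => f (t m))).det := by
  rw [RingHom.map_det, RingHom.mapMatrix_apply, map_bez]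

end Pool.Agent.H89.Ci
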