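import Pool.Agent.Lib.H89.Ci.Mero

set_option autoImplicit false

/-!
Holomorphic maps to projective space, and their meromorphic coordinates.
-/

open Filter Topology Finset

namespace Pool.Agent.H89.Ci

/-- `φ` represents a holomorphic map to projective space. -/
def Hol {ι : Type*} (φ : ℂ → ι → ℂ) : Prop :=
  ∀ z₀, ∃ ψ : ℂ → ι → ℂ, (∀ i, AnalyticAt ℂ (fun z => ψ z i) z₀) ∧ ψ z₀ ≠ 0 ∧
    ∀ᶠ z in 𝓝 z₀, ∃ c : ℂ, c ≠ 0 ∧ φ z = c • ψ z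

/-- The meromorphic coordinates of a holomorphic map; the map is constant if they are. -/
theorem hol_mer {m : ℕ} {φ : ℂ → Fin m → ℂ} (hφ : Hol φ) :
    ∃ (j₀ : Fin m) (u : Fin m → Mer), u j₀ = 1 ∧
      (∀ᶠ z in 𝓝[≠] (0 : ℂ), φ z j₀ ≠ 0) ∧
      (∀ᶠ z in 𝓝[≠] (0 : ℂ), ∀ i, rep (u i) z = φ z i / φ z j₀) ∧
      ((∀ i, ∃ a : ℂ, u i = algebraMap ℂ Mer a) →
        ∃ κ : Fin m → ℂ, ∀ z, ∃ b : ℂ, b ≠ 0 ∧ φ z = b • κ) := by
  classical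
  -- nonvanishing
  have hne : ∀ z, φ z ≠ 0 := by
    intro z
    obtain ⟨ψ, -, hψ0, hψ⟩ := hφ z
    obtain ⟨b, hb, hbe⟩ := hψ.self_of_nhds
    rw [hbe]
    exact smul_ne_zero hb hψ0
  obtain ⟨j₀, hj₀⟩ := Function.ne_iff.mp (hne 0)
  have hj₀' : φ 0 j₀ ≠ 0 := hj₀
  -- the meromorphic coordinates
  have hrat : ∀ z₀ i (ψ : ℂ → Fin m → ℂ),
      (∀ᶠ z in 𝓝 z₀, ∃ b : ℂ, b ≠ 0 ∧ φ z = b • ψ z) →
      ∀ᶠ z in 𝓝 z₀, φ z i / φ z j₀ = ψ z i / ψ z j₀ := by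
    intro z₀ i ψ hψ
    filter_upwards [hψ] with z hz
    obtain ⟨b, hb, hbe⟩ := hz
    rw [hbe]
    simp only [Pi.smul_apply, smul_eq_mul]
    exact mul_div_mul_left _ _ hb
  have hmer : ∀ i, Meromorphic fun z => φ z i / φ z j₀ := by
    intro i z₀
    obtain ⟨ψ, hψa, -, hψ⟩ := hφ z₀
    exact (((hψa i).meromorphicAt.fun_div (hψa j₀).meromorphicAt)).congr
      (((hrat z₀ i ψ hψ).filter_mono nhdsWithin_le_nhds).mono fun z hz => hz.symm)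
  set u : Fin m → Mer := fun i => mk _ (hmer i) with hu
  have hrepu : ∀ i z₀, ∀ᶠ z in 𝓝[≠] z₀, rep (u i) z = φ z i / φ z j₀ := fun i z₀ =>
    rep_mk (hmer i) z₀
  have hne0 : ∀ᶠ z in 𝓝[≠] (0 : ℂ), φ z j₀ ≠ 0 := by
    obtain ⟨ψ, hψa, -, hψ⟩ := hφ 0
    have h1 : ψ 0 j₀ ≠ 0 := by
      obtain ⟨b, hb, hbe⟩ := hψ.self_of_nhds
      intro h0
      apply hj₀'
      rw [hbe, Pi.smul_apply, h0, smul_zero]
    filter_upwards [hψ.filter_mono nhdsWithin_le_nhds,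
      ((hψa j₀).continuousAt.eventually_ne h1).filter_mono nhdsWithin_le_nhds]
      with z h2 h4
    obtain ⟨b, hb, hbe⟩ := h2
    rw [hbe, Pi.smul_apply, smul_eq_mul]
    exact mul_ne_zero hb h4
  have huj₀ : u j₀ = 1 := by
    apply eq_of_rep (z := 0)
    filter_upwards [hrepu j₀ 0, hne0, rep_one 0] with z h2 h3 h5
    rw [h2, h5, div_self h3]
  refine ⟨j₀, u, huj₀, hne0, eventually_all.mpr fun i => hrepu i 0, fun hconst => ?_⟩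
  choose a ha using hconst
  refine ⟨a, fun z₀ => ?_⟩
  obtain ⟨ψ, hψa, hψ0, hψ⟩ := hφ z₀
  -- the lift is a multiple of `a`
  have h1 : ∀ i, ∀ᶠ z in 𝓝[≠] z₀, ψ z i = a i * ψ z j₀ := by
    intro i
    have hne1 : ∀ᶠ z in 𝓝[≠] z₀, ψ z j₀ ≠ 0 := by
      filter_upwards [hrepu j₀ z₀, (hrat z₀ j₀ ψ hψ).filter_mono nhdsWithin_le_nhds, rep_one z₀]
        with z h2 h3 h4 h5
      rw [huj₀, h4, h3, h5, div_zero] at h2
      exact one_ne_zero h2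
    filter_upwards [hrepu i z₀, (hrat z₀ i ψ hψ).filter_mono nhdsWithin_le_nhds,
      rep_const (a i) z₀, hne1] with z h2 h3 h4 h5
    rw [ha i, h4, h3, eq_div_iff h5] at h2
    exact h2.symm
  have h2 : ∀ i, ψ z₀ i = a i * ψ z₀ j₀ := by
    intro i
    have h3 := (ContinuousAt.eventuallyEq_nhds_iff_eventuallyEq_nhdsNE (hψa i).continuousAt
      (continuousAt_const.mul (hψa j₀).continuousAt)).mp (h1 i)
    exact h3.self_of_nhds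
  obtain ⟨b', hb', hbe⟩ := hψ.self_of_nhds
  have h3 : ψ z₀ j₀ ≠ 0 := by
    intro h0
    apply hψ0
    ext i
    rw [h2 i, h0, mul_zero]
    rfl
  refine ⟨b' * ψ z₀ j₀, mul_ne_zero hb' h3, ?_⟩
  rw [hbe]
  ext i
  simp only [Pi.smul_apply, smul_eq_mul]
  rw [h2 i]
  ring

end Pool.Agent.H89.Ci
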