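import Pool.Agent.Lib.H89.AhlforsSchwarz
import Pool.Agent.Lib.H89.Ci.Hol

set_option autoImplicit false

/-!
The Fubini–Study derivative of a holomorphic curve in projective space.
-/

open Filter Topology ComplexConjugate
open Pool.Agent.H89.AS (nsq wsq nsq_nonneg wsq_nonneg nsq_pos lagrange wsq_symm)

namespace Pool.Agent.H89.Ci

variable {ι : Type*} [Fintype ι]

/-- A local lift of a map to projective space. -/
structure IsLift (φ : ℂ → ι → ℂ) (z₀ : ℂ) (ψ : ℂ → ι → ℂ) : Prop where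
  an : ∀ i, AnalyticAt ℂ (fun z => ψ z i) z₀
  ne : ψ z₀ ≠ 0
  eq : ∀ᶠ z in 𝓝 z₀, ∃ c : ℂ, c ≠ 0 ∧ φ z = c • ψ z

omit [Fintype ι] in
theorem Hol.lift {φ : ℂ → ι → ℂ} (h : Hol φ) (z₀ : ℂ) : ∃ ψ, IsLift φ z₀ ψ := by
  obtain ⟨ψ, h1, h2, h3⟩ := h z₀
  exact ⟨ψ, h1, h2, h3⟩

omit [Fintype ι] in
theorem IsLift.ne' {φ : ℂ → ι → ℂ} {z₀ : ℂ} {ψ : ℂ → ι → ℂ} (h : IsLift φ z₀ ψ) : φ z₀ ≠ 0 := by
  obtain ⟨b, hb, hbe⟩ := h.eq.self_of_nhds
  rw [hbe]
  exact smul_ne_zero hb h.ne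

omit [Fintype ι] in
theorem Hol.ne {φ : ℂ → ι → ℂ} (h : Hol φ) (z₀ : ℂ) : φ z₀ ≠ 0 := by
  obtain ⟨ψ, hψ⟩ := h.lift z₀
  exact hψ.ne'

theorem IsLift.eventually {φ : ℂ → ι → ℂ} {z₀ : ℂ} {ψ : ℂ → ι → ℂ} (h : IsLift φ z₀ ψ) :
    ∀ᶠ z in 𝓝 z₀, IsLift φ z ψ := by
  have h1 : ContinuousAt ψ z₀ := continuousAt_pi.mpr fun i => (h.an i).continuousAt
  filter_upwards [eventually_all.mpr fun i => (h.an i).eventually_analyticAt,
    h1.eventually_ne h.ne, h.eq.eventually_nhds] with z h1 h2 h3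
  exact ⟨h1, h2, h3⟩

/-- The square of the chordal distance. -/
noncomputable def wd (x y : ι → ℂ) : ℝ := wsq x y / (nsq x * nsq y)

theorem nsq_smul' (c : ℂ) (x : ι → ℂ) : nsq (c • x) = ‖c‖ ^ 2 * nsq x := by
  simp only [nsq, Pi.smul_apply, smul_eq_mul, norm_mul, mul_pow, Finset.mul_sum]

theorem wsq_smul' (c c' : ℂ) (x y : ι → ℂ) : wsq (c • x) (c' • y) =
    ‖c‖ ^ 2 * ‖c'‖ ^ 2 * wsq x y := by
  simp only [wsq, Pi.smul_apply, smul_eq_mul, Finset.mul_sum]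
  refine Finset.sum_congr rfl fun i _ => Finset.sum_congr rfl fun j _ => ?_
  rw [← mul_pow, ← mul_pow, ← norm_mul, ← norm_mul]
  congr 2
  ring

theorem wd_smul {c c' : ℂ} (hc : c ≠ 0) (hc' : c' ≠ 0) (x y : ι → ℂ) :
    wd (c • x) (c' • y) = wd x y := by
  unfold wd
  rw [nsq_smul', nsq_smul', wsq_smul']
  have h1 : ‖c‖ ^ 2 ≠ 0 := by positivity
  have h2 : ‖c'‖ ^ 2 ≠ 0 := by positivity
  rw [show ‖c‖ ^ 2 * nsq x * (‖c'‖ ^ 2 * nsq y) = ‖c‖ ^ 2 * ‖c'‖ ^ 2 * (nsq x * nsq y) by ring]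
  exact mul_div_mul_left _ _ (mul_ne_zero h1 h2)

theorem wd_nonneg (x y : ι → ℂ) : 0 ≤ wd x y := by
  unfold wd
  have h1 := wsq_nonneg x y
  have h2 := nsq_nonneg x
  have h3 := nsq_nonneg y
  positivity

/-- The square of the derivative, computed with a lift. -/
noncomputable def Dl (ψ : ℂ → ι → ℂ) (z : ℂ) : ℝ :=
  wsq (ψ z) (fun i => deriv (fun z => ψ z i) z) / nsq (ψ z) ^ 2

theorem tendsto_wsq {x : ℂ → ι → ℂ} {z₀ : ℂ}
    (hx : ∀ i, DifferentiableAt ℂ (fun z => x z i) z₀) :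
    Tendsto (fun z => wsq (x z) (x z₀) / ‖z - z₀‖ ^ 2) (𝓝[≠] z₀)
      (𝓝 (wsq (x z₀) (fun i => deriv (fun z => x z i) z₀))) := by
  rw [← wsq_symm]
  have hslope : ∀ i j, Tendsto (fun z => (x z i * x z₀ j - x z j * x z₀ i) / (z - z₀))
      (𝓝[≠] z₀) (𝓝 (deriv (fun z => x z i) z₀ * x z₀ j - deriv (fun z => x z j) z₀ * x z₀ i)) := by
    intro i j
    have h1 : HasDerivAt (fun z => x z i * x z₀ j - x z j * x z₀ i)
        (deriv (fun z => x z i) z₀ * x z₀ j - deriv (fun z => x z j) z₀ * x z₀ i) z₀ :=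
      ((hx i).hasDerivAt.mul_const _).sub ((hx j).hasDerivAt.mul_const _)
    have h2 := hasDerivAt_iff_tendsto_slope.mp h1
    refine h2.congr fun z => ?_
    rw [slope_def_field]
    congr 1
    ring
  have h1 : ∀ z, wsq (x z) (x z₀) / ‖z - z₀‖ ^ 2 =
      ∑ i, ∑ j, ‖(x z i * x z₀ j - x z j * x z₀ i) / (z - z₀)‖ ^ 2 := by
    intro z
    unfold wsq
    simp only [Finset.sum_div, norm_div, div_pow]
  simp only [h1]
  unfold wsq
  exact tendsto_finsetSum _ fun i _ => tendsto_finsetSum _ fun j _ =>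
    ((hslope i j).norm.pow 2)

theorem continuousAt_nsq {x : ℂ → ι → ℂ} {z₀ : ℂ}
    (hx : ∀ i, ContinuousAt (fun z => x z i) z₀) : ContinuousAt (fun z => nsq (x z)) z₀ := by
  unfold nsq
  exact tendsto_finsetSum _ fun i _ => ((hx i).norm.pow 2)

theorem tendsto_wd {φ : ℂ → ι → ℂ} {z₀ : ℂ} {ψ : ℂ → ι → ℂ} (h : IsLift φ z₀ ψ) :
    Tendsto (fun z => wd (φ z) (φ z₀) / ‖z - z₀‖ ^ 2) (𝓝[≠] z₀) (𝓝 (Dl ψ z₀)) := by
  have h1 := tendsto_wsq fun i => (h.an i).differentiableAt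
  have h2 : Tendsto (fun z => nsq (ψ z)) (𝓝[≠] z₀) (𝓝 (nsq (ψ z₀))) :=
    (continuousAt_nsq fun i => (h.an i).continuousAt).tendsto.mono_left nhdsWithin_le_nhds
  have h3 : nsq (ψ z₀) * nsq (ψ z₀) ≠ 0 := by
    have := nsq_pos h.ne
    positivity
  have h4 := h1.div (h2.mul_const (nsq (ψ z₀))) h3
  unfold Dl
  rw [sq]
  refine h4.congr' ?_
  obtain ⟨b₀, hb₀, hbe₀⟩ := h.eq.self_of_nhds
  filter_upwards [h.eq.filter_mono nhdsWithin_le_nhds] with z hz
  obtain ⟨b, hb, hbe⟩ := hz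
  rw [hbe, hbe₀, wd_smul hb hb₀]
  simp only [Pi.div_apply]
  unfold wd
  rw [div_div, div_div, mul_comm (‖z - z₀‖ ^ 2)]

/-- The square of the Fubini–Study derivative. -/
noncomputable def DD (φ : ℂ → ι → ℂ) (z : ℂ) : ℝ :=
  limUnder (𝓝[≠] z) fun w => wd (φ w) (φ z) / ‖w - z‖ ^ 2

theorem DD_eq {φ : ℂ → ι → ℂ} {z₀ : ℂ} {ψ : ℂ → ι → ℂ} (h : IsLift φ z₀ ψ) :
    DD φ z₀ = Dl ψ z₀ := (tendsto_wd h).limUnder_eq

theorem tendsto_DD {φ : ℂ → ι → ℂ} (h : Hol φ) (z₀ : ℂ) :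
    Tendsto (fun z => wd (φ z) (φ z₀) / ‖z - z₀‖ ^ 2) (𝓝[≠] z₀) (𝓝 (DD φ z₀)) := by
  obtain ⟨ψ, hψ⟩ := h.lift z₀
  rw [DD_eq hψ]
  exact tendsto_wd hψ

theorem DD_nonneg {φ : ℂ → ι → ℂ} (h : Hol φ) (z₀ : ℂ) : 0 ≤ DD φ z₀ := by
  refine ge_of_tendsto (tendsto_DD h z₀) (Eventually.of_forall fun z => ?_)
  have := wd_nonneg (φ z) (φ z₀)
  positivity

theorem continuousAt_Dl {ψ : ℂ → ι → ℂ} {z₀ : ℂ} (h : ∀ i, AnalyticAt ℂ (fun z => ψ z i) z₀)
    (h0 : ψ z₀ ≠ 0) : ContinuousAt (Dl ψ) z₀ := by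
  have h1 : ∀ i, ContinuousAt (fun z => ψ z i) z₀ := fun i => (h i).continuousAt
  have h2 : ∀ i, ContinuousAt (fun z => deriv (fun z => ψ z i) z) z₀ := fun i =>
    (h i).deriv.continuousAt
  have h3 : ContinuousAt (fun z => wsq (ψ z) (fun i => deriv (fun z => ψ z i) z)) z₀ := by
    unfold wsq
    exact tendsto_finsetSum _ fun i _ => tendsto_finsetSum _ fun j _ =>
      ((((h1 i).mul (h2 j)).sub ((h1 j).mul (h2 i))).norm.pow 2)
  have h4 : nsq (ψ z₀) ^ 2 ≠ 0 := by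
    have := nsq_pos h0
    positivity
  exact h3.div ((continuousAt_nsq h1).pow 2) h4

theorem continuous_DD {φ : ℂ → ι → ℂ} (h : Hol φ) : Continuous (DD φ) := by
  rw [continuous_iff_continuousAt]
  intro z₀
  obtain ⟨ψ, hψ⟩ := h.lift z₀
  refine (continuousAt_Dl hψ.an hψ.ne).congr ?_
  filter_upwards [hψ.eventually] with z hz
  exact (DD_eq hz).symm

/-- The projection matrix of a line. -/
noncomputable def Pr (x : ι → ℂ) : ι × ι → ℂ := fun p => x p.1 * conj (x p.2) / nsq x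

theorem Pr_smul {c : ℂ} (hc : c ≠ 0) (x : ι → ℂ) : Pr (c • x) = Pr x := by
  ext p
  unfold Pr
  rw [nsq_smul']
  simp only [Pi.smul_apply, smul_eq_mul, map_mul]
  have h1 : ((‖c‖ ^ 2 * nsq x : ℝ) : ℂ) = c * conj c * (nsq x : ℂ) := by
    push_cast
    rw [Complex.mul_conj']
  rw [h1, show c * x p.1 * (conj c * conj (x p.2)) = c * conj c * (x p.1 * conj (x p.2)) by ring]
  exact mul_div_mul_left _ _ (mul_ne_zero hc ((map_ne_zero _).mpr hc))

theorem norm_Pr_le {x : ι → ℂ} (hx : x ≠ 0) : ‖Pr x‖ ≤ 1 := by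
  rw [pi_norm_le_iff_of_nonneg zero_le_one]
  intro p
  unfold Pr
  have h1 := nsq_pos hx
  rw [norm_div, norm_mul, RCLike.norm_conj, Complex.norm_real, Real.norm_of_nonneg h1.le,
    div_le_one h1]
  have h2 : ∀ i, ‖x i‖ ^ 2 ≤ nsq x := fun i =>
    Finset.single_le_sum (f := fun i => ‖x i‖ ^ 2) (fun _ _ => by positivity) (Finset.mem_univ i)
  nlinarith [h2 p.1, h2 p.2, sq_nonneg (‖x p.1‖ - ‖x p.2‖)]

theorem norm_Pr_sub_sq {x y : ι → ℂ} (hx : x ≠ 0) (hy : y ≠ 0) : ‖Pr x - Pr y‖ ^ 2 ≤ wd x y := by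
  have hx0 := nsq_pos hx
  have hy0 := nsq_pos hy
  have hx1 : (nsq x : ℂ) ≠ 0 := by exact_mod_cast hx0.ne'
  have hy1 : (nsq y : ℂ) ≠ 0 := by exact_mod_cast hy0.ne'
  -- the Frobenius norm
  have key : ∑ i, ∑ j, ‖Pr x (i, j) - Pr y (i, j)‖ ^ 2 = wd x y := by
    have hlag := lagrange x y
    have hnx : (nsq x : ℂ) = ∑ i, x i * conj (x i) := by
      unfold nsq
      push_cast
      exact Finset.sum_congr rfl fun i _ => (Complex.mul_conj' _).symm
    have hny : (nsq y : ℂ) = ∑ i, y i * conj (y i) := by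
      unfold nsq
      push_cast
      exact Finset.sum_congr rfl fun i _ => (Complex.mul_conj' _).symm
    set T : ℂ := ∑ i, x i * conj (y i) with hT
    have hTc : conj T = ∑ i, y i * conj (x i) := by
      rw [hT, map_sum]
      refine Finset.sum_congr rfl fun i _ => ?_
      rw [map_mul, Complex.conj_conj, mul_comm]
    have e1 : ((∑ i, ∑ j, ‖Pr x (i, j) - Pr y (i, j)‖ ^ 2 : ℝ) : ℂ) =
        2 - 2 * (T * conj T) / (nsq x * nsq y) := by
      push_cast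
      simp only [← Complex.mul_conj']
      have h1 : ∀ i j, (Pr x (i, j) - Pr y (i, j)) * conj (Pr x (i, j) - Pr y (i, j)) =
          (x i * conj (x i)) * (x j * conj (x j)) / (nsq x * nsq x) +
          (y i * conj (y i)) * (y j * conj (y j)) / (nsq y * nsq y) -
          (x i * conj (y i)) * (y j * conj (x j)) / (nsq x * nsq y) -
          (y i * conj (x i)) * (x j * conj (y j)) / (nsq x * nsq y) := by
        intro i j
        unfold Pr
        simp only [map_sub, map_div₀, map_mul, Complex.conj_conj, Complex.conj_ofReal]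
        field_simp
        ring
      simp only [h1, Finset.sum_add_distrib, Finset.sum_sub_distrib, ← Finset.sum_div,
        ← Finset.sum_mul_sum]
      rw [← hnx, ← hny, ← hT, ← hTc]
      field_simp
      ring
    have e2 : ((wd x y : ℝ) : ℂ) = 2 - 2 * (T * conj T) / (nsq x * nsq y) := by
      have h2 : wsq x y = 2 * (nsq x * nsq y - ‖T‖ ^ 2) := by linarith
      unfold wd
      rw [h2]
      push_cast
      rw [Complex.mul_conj']
      field_simp
    exact_mod_cast e1.trans e2.symm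
  rw [← key]
  have h1 : ‖Pr x - Pr y‖ ≤ √(∑ i, ∑ j, ‖Pr x (i, j) - Pr y (i, j)‖ ^ 2) := by
    rw [pi_norm_le_iff_of_nonneg (Real.sqrt_nonneg _)]
    rintro ⟨i, j⟩
    apply Real.le_sqrt_of_sq_le
    rw [Pi.sub_apply]
    refine le_trans ?_ (Finset.single_le_sum (f := fun i => ∑ j, ‖Pr x (i, j) - Pr y (i, j)‖ ^ 2)
      (fun _ _ => Finset.sum_nonneg fun _ _ => by positivity) (Finset.mem_univ i))
    exact Finset.single_le_sum (f := fun j => ‖Pr x (i, j) - Pr y (i, j)‖ ^ 2)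
      (fun _ _ => by positivity) (Finset.mem_univ j)
  calc ‖Pr x - Pr y‖ ^ 2 ≤ √(∑ i, ∑ j, ‖Pr x (i, j) - Pr y (i, j)‖ ^ 2) ^ 2 := by gcongr
    _ = _ := Real.sq_sqrt (by positivity)

theorem continuous_Pr {φ : ℂ → ι → ℂ} (h : Hol φ) : Continuous fun z => Pr (φ z) := by
  rw [continuous_iff_continuousAt]
  intro z₀
  obtain ⟨ψ, hψ⟩ := h.lift z₀
  have h1 : ContinuousAt (fun z => Pr (ψ z)) z₀ := by
    rw [continuousAt_pi]
    intro p
    unfold Pr
    have h2 : ∀ i, ContinuousAt (fun z => ψ z i) z₀ := fun i => (hψ.an i).continuousAt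
    refine ((h2 _).mul ((Complex.continuous_conj.continuousAt).comp (h2 _))).div
      ((Complex.continuous_ofReal.continuousAt).comp (continuousAt_nsq h2)) ?_
    exact_mod_cast (nsq_pos hψ.ne).ne'
  refine h1.congr ?_
  filter_upwards [hψ.eq] with z hz
  obtain ⟨b, hb, hbe⟩ := hz
  rw [hbe, Pr_smul hb]

/-- The Lipschitz estimate. -/
theorem lipschitz_Pr {φ : ℂ → ι → ℂ} (h : Hol φ) {S : Set ℂ} (hS : Convex ℝ S) {C : ℝ}
    (hC : 0 ≤ C) (hD : ∀ z ∈ S, DD φ z ≤ C ^ 2) {a b : ℂ} (ha : a ∈ S) (hb : b ∈ S) :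
    ‖Pr (φ b) - Pr (φ a)‖ ≤ C * ‖b - a‖ := by
  by_cases hab : a = b
  · rw [hab]
    simp
  have hab' : 0 < ‖b - a‖ := norm_pos_iff.mpr (sub_ne_zero.mpr (Ne.symm hab))
  set γ : ℝ → ℂ := fun t => a + t * (b - a) with hγ
  have hγc : Continuous γ := by
    simp only [hγ]
    fun_prop
  have hγS : ∀ t ∈ Set.Icc (0 : ℝ) 1, γ t ∈ S := by
    intro t ht
    have h1 := hS ha hb (a := 1 - t) (b := t) (by linarith [ht.2]) ht.1 (by ring)
    simp only [hγ]
    convert h1 using 1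
    simp only [Complex.real_smul]
    push_cast
    ring
  have hγd : ∀ s t : ℝ, ‖γ s - γ t‖ = |s - t| * ‖b - a‖ := by
    intro s t
    simp only [hγ]
    rw [show a + (s : ℂ) * (b - a) - (a + (t : ℂ) * (b - a)) = ((s - t : ℝ) : ℂ) * (b - a) by
      push_cast; ring, norm_mul, Complex.norm_real, Real.norm_eq_abs]
  set F : ℝ → (ι × ι → ℂ) := fun t => Pr (φ (γ t)) with hF
  have hFc : Continuous F := (continuous_Pr h).comp hγc
  have key := image_le_of_liminf_slope_right_le_deriv_boundary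
    (f := fun t => ‖F t - F 0‖) (a := 0) (b := 1) (B := fun t => C * ‖b - a‖ * t)
    (B' := fun _ => C * ‖b - a‖)
    (by fun_prop) (by simp) (by fun_prop)
    (fun t _ => by
      have h1 := ((hasDerivAt_id t).const_mul (C * ‖b - a‖)).hasDerivWithinAt (s := Set.Ici t)
      simpa using h1)
    (by
      intro t ht r hr
      have ht' : t ∈ Set.Icc (0 : ℝ) 1 := ⟨ht.1, ht.2.le⟩
      have hr0 : 0 ≤ C * ‖b - a‖ := by positivity
      -- the limit along the segment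
      have hlim : Tendsto (fun s => wd (φ (γ s)) (φ (γ t)) / ‖γ s - γ t‖ ^ 2) (𝓝[>] t)
          (𝓝 (DD φ (γ t))) := by
        refine (tendsto_DD h (γ t)).comp ?_
        rw [tendsto_nhdsWithin_iff]
        refine ⟨hγc.continuousAt.tendsto.mono_left nhdsWithin_le_nhds, ?_⟩
        filter_upwards [self_mem_nhdsWithin] with s hs
        rw [Set.mem_Ioi] at hs
        intro h1
        rw [Set.mem_singleton_iff] at h1
        have h2 := hγd s t
        rw [h1, sub_self, norm_zero, abs_of_pos (by linarith : (0 : ℝ) < s - t)] at h2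
        have h3 : 0 < (s - t) * ‖b - a‖ := mul_pos (by linarith) hab'
        linarith
      have hlt : DD φ (γ t) * ‖b - a‖ ^ 2 < r ^ 2 := by
        calc DD φ (γ t) * ‖b - a‖ ^ 2 ≤ C ^ 2 * ‖b - a‖ ^ 2 := by
              gcongr
              exact hD _ (hγS t ht')
          _ = (C * ‖b - a‖) ^ 2 := by ring
          _ < r ^ 2 := by gcongr
      have hev := (hlim.mul_const (‖b - a‖ ^ 2)).eventually_lt_const hlt
      refine Eventually.frequently ?_
      filter_upwards [hev, self_mem_nhdsWithin] with s hs1 hs2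
      rw [Set.mem_Ioi] at hs2
      have hst : 0 < s - t := by linarith
      rw [slope_def_field, div_lt_iff₀ hst]
      have h1 : ‖F s - F 0‖ - ‖F t - F 0‖ ≤ ‖F s - F t‖ := by
        have h2 := norm_sub_norm_le (F s - F 0) (F t - F 0)
        rwa [sub_sub_sub_cancel_right] at h2
      refine lt_of_le_of_lt h1 ?_
      have h2 : ‖F s - F t‖ ^ 2 ≤ wd (φ (γ s)) (φ (γ t)) := norm_Pr_sub_sq (h.ne _) (h.ne _)
      rw [hγd, abs_of_pos hst, mul_pow, ← div_div, div_mul_cancel₀ _ (by positivity),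
        div_lt_iff₀ (by positivity)] at hs1
      have h3 : 0 ≤ r := hr0.trans hr.le
      refine lt_of_pow_lt_pow_left₀ 2 (by positivity) ?_
      calc ‖F s - F t‖ ^ 2 ≤ wd (φ (γ s)) (φ (γ t)) := h2
        _ < r ^ 2 * (s - t) ^ 2 := hs1
        _ = (r * (s - t)) ^ 2 := by ring)
    (x := 1) ⟨zero_le_one, le_rfl⟩
  simp only [mul_one] at key
  have h0 : γ 0 = a := by simp [hγ]
  have h1 : γ 1 = b := by simp [hγ]
  simp only [hF, h0, h1] at key
  exact key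

theorem wsq_eq_zero_iff {x y : ι → ℂ} : wsq x y = 0 ↔ ∀ i j, x i * y j = x j * y i := by
  unfold wsq
  rw [Finset.sum_eq_zero_iff_of_nonneg fun _ _ => Finset.sum_nonneg fun _ _ => by positivity]
  constructor
  · intro h i j
    have h1 := (Finset.sum_eq_zero_iff_of_nonneg fun _ _ => by positivity).mp
      (h i (Finset.mem_univ i)) j (Finset.mem_univ j)
    rw [sq_eq_zero_iff, norm_eq_zero, sub_eq_zero] at h1
    exact h1
  · intro h i _
    refine Finset.sum_eq_zero fun j _ => ?_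
    rw [h i j, sub_self, norm_zero]
    norm_num

theorem Pr_eq {x y : ι → ℂ} (hx : x ≠ 0) (hy : y ≠ 0) (h : Pr x = Pr y) :
    ∃ c : ℂ, c ≠ 0 ∧ x = c • y := by
  obtain ⟨j, hj⟩ := Function.ne_iff.mp hx
  have hj' : x j ≠ 0 := hj
  have hx0 : (nsq x : ℂ) ≠ 0 := by exact_mod_cast (nsq_pos hx).ne'
  have hy0 : (nsq y : ℂ) ≠ 0 := by exact_mod_cast (nsq_pos hy).ne'
  have h1 : ∀ i, x i = (nsq x * conj (y j) / (nsq y * conj (x j))) * y i := by
    intro i
    have h2 := congrFun h (i, j)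
    unfold Pr at h2
    simp only at h2
    have h3 : conj (x j) ≠ 0 := (map_ne_zero _).mpr hj'
    field_simp
    field_simp at h2
    linear_combination h2
  refine ⟨nsq x * conj (y j) / (nsq y * conj (x j)), ?_, ?_⟩
  · intro h0
    apply hj'
    rw [h1 j, h0, zero_mul]
  · ext i
    rw [Pi.smul_apply, smul_eq_mul]
    exact h1 i

/-- Curves with derivative zero are constant. -/
theorem const_of_DD {φ : ℂ → ι → ℂ} (h : Hol φ) (hD : ∀ z, DD φ z ≤ 0) (z w : ℂ) :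
    ∃ c : ℂ, c ≠ 0 ∧ φ z = c • φ w := by
  have h1 := lipschitz_Pr h convex_univ le_rfl (fun z _ => by simpa using hD z)
    (Set.mem_univ w) (Set.mem_univ z)
  rw [zero_mul] at h1
  exact Pr_eq (h.ne z) (h.ne w) (sub_eq_zero.mp (norm_le_zero_iff.mp h1))

end Pool.Agent.H89.Ci
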