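import Pool.Agent.Lib.H89.Ci.Brody1

set_option autoImplicit false

/-!
Brody's reparametrisation lemma and limits of holomorphic curves.
-/

open Filter Topology ComplexConjugate
open Pool.Agent.H89.AS (nsq wsq nsq_nonneg wsq_nonneg nsq_pos)

namespace Pool.Agent.H89.Ci

variable {ι : Type*} [Fintype ι]

omit [Fintype ι] in
theorem Hol.comp_affine {φ : ℂ → ι → ℂ} (h : Hol φ) (a b : ℂ) :
    Hol fun w => φ (a + b * w) := by
  intro w₀
  obtain ⟨ψ, h1, h2, h3⟩ := h (a + b * w₀)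
  have hc : ContinuousAt (fun w : ℂ => a + b * w) w₀ := by fun_prop
  have ha : AnalyticAt ℂ (fun w : ℂ => a + b * w) w₀ := by fun_prop
  refine ⟨fun w => ψ (a + b * w), fun i => ?_, h2, ?_⟩
  · exact AnalyticAt.fun_comp (g := fun z => ψ z i) (h1 i) ha
  · exact hc.eventually h3

theorem DD_comp_affine {φ : ℂ → ι → ℂ} (h : Hol φ) (a : ℂ) {b : ℂ} (hb : b ≠ 0) (w₀ : ℂ) :
    DD (fun w => φ (a + b * w)) w₀ = ‖b‖ ^ 2 * DD φ (a + b * w₀) := by
  have h1 := tendsto_DD (h.comp_affine a b) w₀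
  have h2 : Tendsto (fun w : ℂ => a + b * w) (𝓝[≠] w₀) (𝓝[≠] (a + b * w₀)) := by
    rw [tendsto_nhdsWithin_iff]
    constructor
    · have hc : ContinuousAt (fun w : ℂ => a + b * w) w₀ := by fun_prop
      exact hc.tendsto.mono_left nhdsWithin_le_nhds
    · filter_upwards [self_mem_nhdsWithin] with w hw h3
      apply hw
      have h4 : a + b * w = a + b * w₀ := h3
      exact mul_left_cancel₀ hb (add_left_cancel h4)
  have h3 := ((tendsto_DD h (a + b * w₀)).comp h2).const_mul (‖b‖ ^ 2)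
  refine tendsto_nhds_unique h1 (h3.congr' ?_)
  filter_upwards [self_mem_nhdsWithin] with w hw
  have hw' : w - w₀ ≠ 0 := sub_ne_zero.mpr hw
  simp only [Function.comp]
  rw [show a + b * w - (a + b * w₀) = b * (w - w₀) by ring, norm_mul, mul_pow]
  have h4 : ‖b‖ ^ 2 ≠ 0 := by positivity
  have h5 : ‖w - w₀‖ ^ 2 ≠ 0 := by positivity
  field_simp

/-- **Brody's reparametrisation lemma.** -/
theorem rescale {φ : ℂ → ι → ℂ} (h : Hol φ) (hnc : ∃ z, 0 < DD φ z) {M : ℝ} (hM : 0 < M) :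
    ∃ φ' : ℂ → ι → ℂ, Hol φ' ∧ (∀ w, ∃ z, φ' w = φ z) ∧ DD φ' 0 = 1 ∧
      ∀ w, ‖w‖ ≤ M → DD φ' w ≤ 4 := by
  obtain ⟨z₁, hz₁⟩ := hnc
  set D₁ := DD φ z₁ with hD₁
  set R := 2 * M / √D₁ with hR
  have hs₁ : 0 < √D₁ := Real.sqrt_pos.mpr hz₁
  have hRpos : 0 < R := by positivity
  have hGc : Continuous fun z => (R - ‖z - z₁‖) ^ 2 * DD φ z := by
    have := continuous_DD h
    fun_prop
  obtain ⟨z₂, hz₂, hmax⟩ := (isCompact_closedBall z₁ R).exists_isMaxOn
    ⟨z₁, Metric.mem_closedBall_self hRpos.le⟩ hGc.continuousOn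
  rw [Metric.mem_closedBall, dist_eq_norm] at hz₂
  have hmax' : ∀ z, ‖z - z₁‖ ≤ R → (R - ‖z - z₁‖) ^ 2 * DD φ z ≤
      (R - ‖z₂ - z₁‖) ^ 2 * DD φ z₂ := by
    intro z hz
    exact hmax (by rwa [Metric.mem_closedBall, dist_eq_norm])
  have h1 := hmax' z₁ (by rw [sub_self, norm_zero]; exact hRpos.le)
  rw [sub_self, norm_zero, sub_zero] at h1
  have h2 : R ^ 2 * D₁ = 4 * M ^ 2 := by
    rw [hR, div_pow, Real.sq_sqrt hz₁.le]
    field_simp
    ring
  rw [h2] at h1
  set s := R - ‖z₂ - z₁‖ with hs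
  have hs0 : 0 ≤ s := by linarith
  set D₂ := DD φ z₂ with hD₂
  have hD₂0 : 0 ≤ D₂ := DD_nonneg h z₂
  have hspos : 0 < s := by
    refine lt_of_le_of_ne hs0 fun h0 => ?_
    rw [← h0] at h1
    have : 0 < 4 * M ^ 2 := by positivity
    linarith
  have hD₂pos : 0 < D₂ := by
    refine lt_of_le_of_ne hD₂0 fun h0 => ?_
    rw [← h0] at h1
    have : 0 < 4 * M ^ 2 := by positivity
    linarith
  have hs₂ : 0 < √D₂ := Real.sqrt_pos.mpr hD₂pos
  have hss : √D₂ ^ 2 = D₂ := Real.sq_sqrt hD₂pos.le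
  -- `2 M ≤ s √D₂`
  have h3 : 2 * M ≤ s * √D₂ := by
    refine le_of_sq_le_sq ?_ (by positivity)
    calc (2 * M) ^ 2 = 4 * M ^ 2 := by ring
      _ ≤ s ^ 2 * D₂ := h1
      _ = (s * √D₂) ^ 2 := by rw [mul_pow, hss]
  set ρ : ℂ := (((√D₂)⁻¹ : ℝ) : ℂ) with hρ
  have hρ0 : ρ ≠ 0 := by
    rw [hρ]
    exact_mod_cast (inv_pos.mpr hs₂).ne'
  have hρn : ‖ρ‖ = (√D₂)⁻¹ := by
    rw [hρ, Complex.norm_real, Real.norm_of_nonneg (inv_pos.mpr hs₂).le]
  have hρ2 : ‖ρ‖ ^ 2 = D₂⁻¹ := by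
    rw [hρn, inv_pow, hss]
  refine ⟨fun w => φ (z₂ + ρ * w), h.comp_affine z₂ ρ, fun w => ⟨_, rfl⟩, ?_, fun w hw => ?_⟩
  · rw [DD_comp_affine h z₂ hρ0, mul_zero, add_zero, hρ2]
    exact inv_mul_cancel₀ hD₂pos.ne'
  · rw [DD_comp_affine h z₂ hρ0, hρ2]
    set z := z₂ + ρ * w with hz
    have h4 : ‖z - z₁‖ ≤ ‖z₂ - z₁‖ + s / 2 := by
      calc ‖z - z₁‖ = ‖(z₂ - z₁) + ρ * w‖ := by rw [hz]; congr 1; ring
        _ ≤ ‖z₂ - z₁‖ + ‖ρ * w‖ := norm_add_le _ _
        _ ≤ ‖z₂ - z₁‖ + s / 2 := by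
          gcongr
          rw [norm_mul, hρn, inv_mul_le_iff₀ hs₂]
          linarith
    have h5 : s / 2 ≤ R - ‖z - z₁‖ := by linarith
    have h6 := hmax' z (by linarith)
    have h7 : (s / 2) ^ 2 * DD φ z ≤ s ^ 2 * D₂ := by
      refine le_trans ?_ h6
      have := DD_nonneg h z
      gcongr
    have h8 : DD φ z ≤ 4 * D₂ := by
      have h9 : s ^ 2 * DD φ z ≤ s ^ 2 * (4 * D₂) := by nlinarith
      exact le_of_mul_le_mul_left h9 (by positivity)
    rw [inv_mul_le_iff₀ hD₂pos]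
    linarith

theorem continuous_nsq : Continuous fun x : ι → ℂ => nsq x := by
  unfold nsq
  fun_prop

theorem continuous_wsq : Continuous fun p : (ι → ℂ) × (ι → ℂ) => wsq p.1 p.2 := by
  unfold wsq
  fun_prop

/-- Locally uniform convergence of equi-Lipschitz functions. -/
theorem tendstoLocallyUniformlyOn_of_lipschitz {l : Filter ℕ} [l.NeBot] {F : ℕ → ℂ → ℂ}
    {f : ℂ → ℂ} {U : Set ℂ} {K : ℝ} (hK : 0 < K) (hF : ∀ᶠ k in l, ∀ w ∈ U, ∀ w' ∈ U,
      ‖F k w - F k w'‖ ≤ K * ‖w - w'‖) (hlim : ∀ w ∈ U, Tendsto (fun k => F k w) l (𝓝 (f w))) :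
    TendstoLocallyUniformlyOn F f l U := by
  have hf : ∀ w ∈ U, ∀ w' ∈ U, ‖f w - f w'‖ ≤ K * ‖w - w'‖ := by
    intro w hw w' hw'
    refine le_of_tendsto ((hlim w hw).sub (hlim w' hw')).norm ?_
    filter_upwards [hF] with k hk
    exact hk w hw w' hw'
  rw [Metric.tendstoLocallyUniformlyOn_iff]
  intro ε hε x hx
  refine ⟨Metric.ball x (ε / (4 * K)) ∩ U, ?_, ?_⟩
  · rw [Set.inter_comm]
    exact inter_mem_nhdsWithin U (Metric.ball_mem_nhds x (by positivity))
  · have h1 : ∀ᶠ k in l, dist (F k x) (f x) < ε / 4 :=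
      (Metric.tendsto_nhds.mp (hlim x hx)) (ε / 4) (by positivity)
    filter_upwards [hF, h1] with k h2 h3 y hy
    have hyd : ‖y - x‖ < ε / (4 * K) := by
      have := hy.1
      rwa [Metric.mem_ball, dist_eq_norm] at this
    have hKy : K * ‖y - x‖ < ε / 4 := by
      calc K * ‖y - x‖ < K * (ε / (4 * K)) := by gcongr
        _ = ε / 4 := by field_simp
    have h4 := hf y hy.2 x hx
    have h5 := h2 x hx y hy.2
    rw [norm_sub_rev x y] at h5
    calc dist (f y) (F k y) ≤ dist (f y) (f x) + dist (f x) (F k x) + dist (F k x) (F k y) :=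
          dist_triangle4 _ _ _ _
      _ ≤ K * ‖y - x‖ + ε / 4 + K * ‖y - x‖ := by
          gcongr
          · rwa [dist_eq_norm]
          · rw [dist_comm]
            exact h3.le
          · rwa [dist_eq_norm]
      _ < ε := by linarith

/-- **Limits of Brody curves.** -/
theorem brody_limit [Nonempty ι] {φ : ℕ → ℂ → ι → ℂ} (hφ : ∀ k, Hol (φ k))
    (h1 : ∀ k, DD (φ k) 0 = 1) (h4 : ∀ (k : ℕ) (w : ℂ), ‖w‖ ≤ k → DD (φ k) w ≤ 4) :
    ∃ (Φ : ℂ → ι → ℂ), Hol Φ ∧ DD Φ 0 = 1 ∧ ∀ w, ∃ x : ℕ → ι → ℂ,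
      (∀ᶠ k in (hyperfilter ℕ : Filter ℕ), ∃ b : ℂ, b ≠ 0 ∧ x k = b • φ k w) ∧
      Tendsto x (hyperfilter ℕ) (𝓝 (Φ w)) := by
  classical
  set l : Filter ℕ := (hyperfilter ℕ : Filter ℕ) with hl
  have hne : ∀ k w, φ k w ≠ 0 := fun k w => (hφ k).ne w
  -- pointwise limits
  have hL : ∀ w, ∃ L : ι × ι → ℂ, Tendsto (fun k => Pr (φ k w)) l (𝓝 L) := by
    intro w
    have h2 := (isCompact_closedBall (0 : ι × ι → ℂ) 1).ultrafilter_le_nhds
      ((hyperfilter ℕ).map fun k => Pr (φ k w)) (by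
        rw [le_principal_iff]
        change ∀ᶠ k in l, Pr (φ k w) ∈ Metric.closedBall 0 1
        refine Eventually.of_forall fun k => ?_
        rw [mem_closedBall_zero_iff]
        exact norm_Pr_le (hne k w))
    obtain ⟨L, -, hL⟩ := h2
    exact ⟨L, hL⟩
  choose L hL using hL
  have hLe : ∀ w p, Tendsto (fun k => Pr (φ k w) p) l (𝓝 (L w p)) := fun w p =>
    (tendsto_pi_nhds.mp (hL w)) p
  -- the Lipschitz estimate
  have hLip : ∀ M : ℝ, ∀ᶠ k in l, ∀ w, ‖w‖ ≤ M → ∀ w', ‖w'‖ ≤ M →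
      ‖Pr (φ k w) - Pr (φ k w')‖ ≤ 2 * ‖w - w'‖ := by
    intro M
    have h2 : ∀ᶠ k : ℕ in l, M ≤ k := by
      have h3 : ∀ᶠ k : ℕ in atTop, M ≤ k :=
        (tendsto_natCast_atTop_atTop (R := ℝ)).eventually_ge_atTop M
      exact h3.filter_mono Nat.hyperfilter_le_atTop
    filter_upwards [h2] with k hk w hw w' hw'
    refine lipschitz_Pr (hφ k) (convex_closedBall (0 : ℂ) M) (by norm_num) (fun z hz => ?_)
      (by rwa [mem_closedBall_zero_iff]) (by rwa [mem_closedBall_zero_iff])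
    rw [mem_closedBall_zero_iff] at hz
    have := h4 k z (hz.trans hk)
    linarith
  -- properties of the limit
  have htr : ∀ w, ∑ j, L w (j, j) = 1 := by
    intro w
    have h2 : Tendsto (fun k => ∑ j, Pr (φ k w) (j, j)) l (𝓝 (∑ j, L w (j, j))) :=
      tendsto_finsetSum _ fun j _ => hLe w (j, j)
    have h3 : ∀ k, ∑ j, Pr (φ k w) (j, j) = 1 := by
      intro k
      unfold Pr
      have h4 : (nsq (φ k w) : ℂ) ≠ 0 := by exact_mod_cast (nsq_pos (hne k w)).ne'
      rw [← Finset.sum_div, div_eq_one_iff_eq h4]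
      unfold nsq
      push_cast
      exact Finset.sum_congr rfl fun i _ => Complex.mul_conj' _
    simp only [h3] at h2
    exact tendsto_nhds_unique h2 tendsto_const_nhds
  have hrk : ∀ w a b c d, L w (a, b) * L w (c, d) = L w (a, d) * L w (c, b) := by
    intro w a b c d
    refine tendsto_nhds_unique ((hLe w (a, b)).mul (hLe w (c, d))) ?_
    refine ((hLe w (a, d)).mul (hLe w (c, b))).congr fun k => ?_
    unfold Pr
    ring
  have hdiag : ∀ w, ∃ j, L w (j, j) ≠ 0 := by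
    intro w
    by_contra hcon
    push Not at hcon
    have h2 := htr w
    rw [Finset.sum_eq_zero fun j _ => hcon j] at h2
    exact zero_ne_one h2
  choose J hJ using hdiag
  -- the charts
  have hchart : ∀ w₀, ∃ r > 0, (∀ w ∈ Metric.ball w₀ r, L w (J w₀, J w₀) ≠ 0) ∧
      (∀ᶠ k in l, ∀ w ∈ Metric.ball w₀ r, φ k w (J w₀) ≠ 0) ∧
      ∀ i, TendstoLocallyUniformlyOn (fun k w => φ k w i / φ k w (J w₀))
        (fun w => L w (i, J w₀) / L w (J w₀, J w₀)) l (Metric.ball w₀ r) ∧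
        ∀ᶠ k in l, DifferentiableOn ℂ (fun w => φ k w i / φ k w (J w₀)) (Metric.ball w₀ r) := by
    intro w₀
    set j := J w₀ with hj
    set t := ‖L w₀ (j, j)‖ with ht
    have ht0 : 0 < t := norm_pos_iff.mpr (hJ w₀)
    have hL8 := hLip (‖w₀‖ + t / 8)
    have hball : ∀ w ∈ Metric.ball w₀ (t / 8), ‖w‖ ≤ ‖w₀‖ + t / 8 := by
      intro w hw
      rw [Metric.mem_ball, dist_eq_norm] at hw
      have := norm_le_norm_add_norm_sub' w w₀
      linarith
    have hw₀b : ‖w₀‖ ≤ ‖w₀‖ + t / 8 := by linarith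
    -- lower bounds
    have hlow : ∀ᶠ k in l, ∀ w ∈ Metric.ball w₀ (t / 8), t / 2 ≤ ‖Pr (φ k w) (j, j)‖ := by
      have h2 : ∀ᶠ k in l, 3 * t / 4 < ‖Pr (φ k w₀) (j, j)‖ :=
        (hLe w₀ (j, j)).norm.eventually_const_lt (by linarith)
      filter_upwards [h2, hL8] with k h3 h5 w hw
      have h6 := h5 w (hball w hw) w₀ hw₀b
      have h7 : ‖Pr (φ k w) (j, j) - Pr (φ k w₀) (j, j)‖ ≤ 2 * ‖w - w₀‖ := by
        refine le_trans ?_ h6
        rw [← Pi.sub_apply]
        exact norm_le_pi_norm _ _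
      rw [Metric.mem_ball, dist_eq_norm] at hw
      have h8 := norm_sub_norm_le (Pr (φ k w₀) (j, j)) (Pr (φ k w) (j, j))
      rw [norm_sub_rev] at h8
      linarith
    have hlowL : ∀ w ∈ Metric.ball w₀ (t / 8), t / 2 ≤ ‖L w (j, j)‖ := by
      intro w hw
      refine ge_of_tendsto (hLe w (j, j)).norm ?_
      filter_upwards [hlow] with k hk
      exact hk w hw
    have hφj : ∀ᶠ k in l, ∀ w ∈ Metric.ball w₀ (t / 8), φ k w j ≠ 0 := by
      filter_upwards [hlow] with k hk w hw h0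
      have h2 := hk w hw
      unfold Pr at h2
      simp only [h0, zero_mul, zero_div, norm_zero] at h2
      linarith
    have hquot : ∀ k w i, φ k w j ≠ 0 →
        Pr (φ k w) (i, j) / Pr (φ k w) (j, j) = φ k w i / φ k w j := by
      intro k w i h2
      unfold Pr
      have h5 : (nsq (φ k w) : ℂ) ≠ 0 := by exact_mod_cast (nsq_pos (hne k w)).ne'
      have h6 : conj (φ k w j) ≠ 0 := (map_ne_zero _).mpr h2
      simp only
      field_simp
    refine ⟨t / 8, by positivity, fun w hw h0 => ?_, hφj, fun i => ⟨?_, ?_⟩⟩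
    · have h2 := hlowL w hw
      rw [h0, norm_zero] at h2
      linarith
    · refine tendstoLocallyUniformlyOn_of_lipschitz (K := 16 / t ^ 2) (by positivity) ?_ ?_
      · filter_upwards [hlow, hL8, hφj] with k h2 h3 h5 w hw w' hw'
        rw [← hquot k w i (h5 w hw), ← hquot k w' i (h5 w' hw')]
        have hb := h2 w hw
        have hb' := h2 w' hw'
        have hLw := h3 w (hball w hw) w' (hball w' hw')
        have e1 : ∀ p, ‖Pr (φ k w) p - Pr (φ k w') p‖ ≤ 2 * ‖w - w'‖ := by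
          intro p
          refine le_trans ?_ hLw
          rw [← Pi.sub_apply]
          exact norm_le_pi_norm _ _
        have e2 : ∀ w p, ‖Pr (φ k w) p‖ ≤ 1 := fun w p =>
          (norm_le_pi_norm _ p).trans (norm_Pr_le (hne k w))
        have hbne : Pr (φ k w) (j, j) ≠ 0 := by
          intro h0
          rw [h0, norm_zero] at hb
          linarith
        have hbne' : Pr (φ k w') (j, j) ≠ 0 := by
          intro h0
          rw [h0, norm_zero] at hb'
          linarith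
        rw [div_sub_div _ _ hbne hbne', norm_div, norm_mul]
        have e3 : Pr (φ k w) (i, j) * Pr (φ k w') (j, j) - Pr (φ k w) (j, j) * Pr (φ k w') (i, j) =
            (Pr (φ k w) (i, j) - Pr (φ k w') (i, j)) * Pr (φ k w') (j, j) -
            Pr (φ k w') (i, j) * (Pr (φ k w) (j, j) - Pr (φ k w') (j, j)) := by ring
        have e4 : ‖Pr (φ k w) (i, j) * Pr (φ k w') (j, j) -
            Pr (φ k w) (j, j) * Pr (φ k w') (i, j)‖ ≤ 4 * ‖w - w'‖ := by
          rw [e3]
          refine (norm_sub_le _ _).trans ?_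
          rw [norm_mul, norm_mul]
          have a1 := e1 (i, j)
          have a2 := e1 (j, j)
          have a3 := e2 w' (j, j)
          have a4 := e2 w' (i, j)
          calc ‖Pr (φ k w) (i, j) - Pr (φ k w') (i, j)‖ * ‖Pr (φ k w') (j, j)‖ +
                ‖Pr (φ k w') (i, j)‖ * ‖Pr (φ k w) (j, j) - Pr (φ k w') (j, j)‖
              ≤ 2 * ‖w - w'‖ * 1 + 1 * (2 * ‖w - w'‖) := by gcongr
            _ = 4 * ‖w - w'‖ := by ring
        rw [div_le_iff₀ (by positivity)]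
        calc _ ≤ 4 * ‖w - w'‖ := e4
          _ = 16 / t ^ 2 * ‖w - w'‖ * (t / 2 * (t / 2)) := by field_simp; ring
          _ ≤ 16 / t ^ 2 * ‖w - w'‖ * (‖Pr (φ k w) (j, j)‖ * ‖Pr (φ k w') (j, j)‖) := by gcongr
      · intro w hw
        have h2 : L w (j, j) ≠ 0 := by
          intro h0
          have h3 := hlowL w hw
          rw [h0, norm_zero] at h3
          linarith
        refine ((hLe w (i, j)).div (hLe w (j, j)) h2).congr' ?_
        filter_upwards [hφj] with k hk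
        exact hquot k w i (hk w hw)
    · filter_upwards [hφj] with k hk w hw
      obtain ⟨ψ, hψ⟩ := (hφ k).lift w
      have h2 : ψ w j ≠ 0 := by
        obtain ⟨b, hb, hbe⟩ := hψ.eq.self_of_nhds
        intro h0
        apply hk w hw
        rw [hbe, Pi.smul_apply, h0, smul_zero]
      have h3 : DifferentiableAt ℂ (fun z => ψ z i / ψ z j) w :=
        (hψ.an i).differentiableAt.fun_div (hψ.an j).differentiableAt h2
      refine (h3.congr_of_eventuallyEq ?_).differentiableWithinAt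
      filter_upwards [hψ.eq] with z hz
      obtain ⟨b, hb, hbe⟩ := hz
      rw [hbe]
      simp only [Pi.smul_apply, smul_eq_mul]
      exact mul_div_mul_left _ _ hb
  -- the limit curve
  set Φ : ℂ → ι → ℂ := fun w i => L w (i, J w) with hΦ
  have hlift : ∀ w₀, IsLift Φ w₀ fun w i => L w (i, J w₀) / L w (J w₀, J w₀) := by
    intro w₀
    obtain ⟨r, hr, hLne, -, hT⟩ := hchart w₀
    refine ⟨fun i => ?_, fun h0 => ?_, ?_⟩
    · have h2 := (hT i).1.differentiableOn (hT i).2 Metric.isOpen_ball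
      exact h2.analyticAt (Metric.ball_mem_nhds w₀ hr)
    · have h2 := congrFun h0 (J w₀)
      simp only [Pi.zero_apply] at h2
      rw [div_self (hJ w₀)] at h2
      exact one_ne_zero h2
    · filter_upwards [Metric.ball_mem_nhds w₀ hr] with w hw
      have h2 := hLne w hw
      refine ⟨L w (J w₀, J w), ?_, ?_⟩
      · intro h0
        have h3 := hrk w (J w₀) (J w) (J w) (J w₀)
        rw [h0, zero_mul] at h3
        exact (mul_ne_zero h2 (hJ w)) h3.symm
      · ext i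
        simp only [hΦ, Pi.smul_apply, smul_eq_mul]
        rw [← mul_div_assoc, eq_div_iff h2, hrk w i (J w) (J w₀) (J w₀)]
        ring
  refine ⟨Φ, fun w₀ => ⟨_, (hlift w₀).an, (hlift w₀).ne, (hlift w₀).eq⟩, ?_, fun w => ?_⟩
  · -- the derivative at `0`
    rw [DD_eq (hlift 0)]
    obtain ⟨r, hr, hLne, hφne, hT⟩ := hchart 0
    set j := J 0 with hj
    have h0r : (0 : ℂ) ∈ Metric.ball (0 : ℂ) r := Metric.mem_ball_self hr
    have hval : ∀ i, Tendsto (fun k => φ k 0 i / φ k 0 j) l (𝓝 (L 0 (i, j) / L 0 (j, j))) :=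
      fun i => (hT i).1.tendsto_at h0r
    have hder : ∀ i, Tendsto (fun k => deriv (fun w => φ k w i / φ k w j) 0) l
        (𝓝 (deriv (fun w => L w (i, j) / L w (j, j)) 0)) :=
      fun i => ((hT i).1.deriv (hT i).2 Metric.isOpen_ball).tendsto_at h0r
    have hV : Tendsto (fun k => (fun i => φ k 0 i / φ k 0 j : ι → ℂ)) l
        (𝓝 fun i => L 0 (i, j) / L 0 (j, j)) := tendsto_pi_nhds.mpr hval
    have hW : Tendsto (fun k => (fun i => deriv (fun w => φ k w i / φ k w j) 0 : ι → ℂ)) l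
        (𝓝 fun i => deriv (fun w => L w (i, j) / L w (j, j)) 0) := tendsto_pi_nhds.mpr hder
    have h2 := (continuous_wsq.tendsto _).comp (hV.prodMk_nhds hW)
    have h3 := ((continuous_nsq.tendsto _).comp hV).pow 2
    have hn0 : nsq (fun i => L 0 (i, j) / L 0 (j, j)) ^ 2 ≠ 0 := by
      have := nsq_pos (hlift 0).ne
      exact (pow_pos this 2).ne'
    have h5 := h2.div h3 hn0
    refine tendsto_nhds_unique h5 ?_
    refine tendsto_const_nhds.congr' ?_
    filter_upwards [hφne, eventually_all.mpr fun i => (hT i).2] with k hk hd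
    have hlk : IsLift (φ k) 0 fun w i => φ k w i / φ k w j := by
      refine ⟨fun i => (hd i).analyticAt (Metric.ball_mem_nhds _ hr), fun h0 => ?_, ?_⟩
      · have h6 := congrFun h0 j
        simp only [Pi.zero_apply] at h6
        rw [div_self (hk 0 h0r)] at h6
        exact one_ne_zero h6
      · filter_upwards [Metric.ball_mem_nhds (0 : ℂ) hr] with w hw
        refine ⟨φ k w j, hk w hw, ?_⟩
        ext i
        simp only [Pi.smul_apply, smul_eq_mul]
        rw [mul_div_cancel₀ _ (hk w hw)]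
    rw [← h1 k, DD_eq hlk]
    rfl
  · refine ⟨fun k i => Pr (φ k w) (i, J w), ?_, ?_⟩
    · have h2 : ∀ᶠ k in l, Pr (φ k w) (J w, J w) ≠ 0 := (hLe w (J w, J w)).eventually_ne (hJ w)
      filter_upwards [h2] with k hk
      refine ⟨conj (φ k w (J w)) / nsq (φ k w), ?_, ?_⟩
      · intro h0
        apply hk
        unfold Pr
        simp only
        rw [mul_div_assoc, h0, mul_zero]
      · ext i
        unfold Pr
        simp only [Pi.smul_apply, smul_eq_mul]
        ring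
    · exact tendsto_pi_nhds.mpr fun i => hLe w (i, J w)

end Pool.Agent.H89.Ci
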