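import Pool.Agent.Lib.H89.Ci.FOne

set_option autoImplicit false

/-!
The parameter count.
-/

open Matrix Finset

namespace Pool.Agent.H89.Ci

/-- The index type of the coefficients of the generic forms. -/
abbrev PI (n : ℕ) : Type := (Fin n × (Fin (n + 1) × Fin (n + 1))) ⊕ (Fin n × Fin (n + 1))

theorem arith {a b z β s I : ℕ} (h1 : β + (s + 2) = z) (h2 : z ≤ a + b + 1) (h3 : b ≤ 1)
    (h4 : a * (s + 3) + b * (s + 2) ≤ I)
    (h5 : I ≤ (I - (a * (s + 3) + b * (s + 2))) + (a + b) + β * (s + 2) + (s + 3) * s) :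
    False := by
  obtain ⟨J, rfl⟩ := Nat.exists_eq_add_of_le h4
  rw [Nat.add_sub_cancel_left] at h5
  have h6 : β + s + 1 ≤ a + b := by omega
  obtain ⟨e, he⟩ := Nat.exists_eq_add_of_le h6
  nlinarith

theorem count {n s : ℕ} {P : PI n → ℂ} (hP : AlgebraicIndependent ℚ P)
    {bb : Fin (s + 2) → Fin (n + 1)} (hbb : Function.Injective bb)
    {C : Fin (n + 1) → Fin (s + 2) → ℂ} (hCb : ∀ i i', C (bb i) i' = if i = i' then 1 else 0)
    {Z : Finset (Fin (n + 1))} (hCZ : ∀ k, k ∉ Z → ∀ i, C k i = 0)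
    {i₁ : Fin (s + 2)} {Y : Fin (s + 3) → Fin (s + 2) → ℂ} (hY0 : ∀ t, IsAlgebraic ℚ (Y t 0))
    (hY1 : ∀ t, Y t 1 = 1)
    (hdet : (Matrix.of fun t => (Fin.snoc (fun i => Y t 0 * Y t i) (Y t 1 * Y t i₁) :
      Fin (s + 3) → ℂ)).det ≠ 0)
    {A B : Finset (Fin n)} {κ : Fin n → ℂ}
    (hA : ∀ j ∈ A, ∀ t, ∑ q : Fin (n + 1) × Fin (n + 1), P (Sum.inl (j, q)) *
      ((∑ i, C q.1 i * Y t i) * (∑ i, C q.2 i * Y t i)) = κ j * (∑ i, C j.castSucc i * Y t i) ^ 2)
    (hB : ∀ j ∈ B, ∀ t, ∑ x, P (Sum.inr (j, x)) * (∑ i, C x i * Y t i) =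
      κ j * ∑ i, C j.castSucc i * Y t i)
    (hAB : Z.card ≤ A.card + B.card + 1) (hB1 : B.card ≤ 1) : False := by
  classical
  set pr : Fin (s + 3) → Fin (n + 1) × Fin (n + 1) :=
    Fin.snoc (fun i => (bb 0, bb i)) (bb 1, bb i₁) with hpr
  have hpr1 : ∀ i : Fin (s + 2), pr i.castSucc = (bb 0, bb i) := fun i => by
    rw [hpr, Fin.snoc_castSucc]
  have hpr2 : pr (Fin.last (s + 2)) = (bb 1, bb i₁) := by
    rw [hpr, Fin.snoc_last]
  have h01 : (0 : Fin (s + 2)) ≠ 1 := by
    intro h
    have := congrArg Fin.val h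
    simp at this
  have hpri : Function.Injective pr := by
    intro μ ν
    refine Fin.lastCases ?_ (fun i => ?_) μ <;> refine Fin.lastCases ?_ (fun j => ?_) ν
    · intro _
      rfl
    · intro h
      rw [hpr1, hpr2, Prod.mk.injEq] at h
      exact absurd (hbb h.1).symm h01
    · intro h
      rw [hpr1, hpr2, Prod.mk.injEq] at h
      exact absurd (hbb h.1) h01
    · intro h
      rw [hpr1, hpr1, Prod.mk.injEq] at h
      rw [hbb h.2]
  set D : Finset (PI n) := (A ×ˢ univ.image pr).disjSum (B ×ˢ univ.image bb) with hD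
  have hDc : D.card = A.card * (s + 3) + B.card * (s + 2) := by
    rw [hD, Finset.card_disjSum, Finset.card_product, Finset.card_product,
      Finset.card_image_of_injective _ hpri, Finset.card_image_of_injective _ hbb,
      Finset.card_univ, Finset.card_univ, Fintype.card_fin, Fintype.card_fin]
  set S : Finset ℂ := (((univ \ D).image P ∪ (A ∪ B).image κ) ∪
    ((Z \ univ.image bb) ×ˢ (univ : Finset (Fin (s + 2)))).image fun x => C x.1 x.2) ∪
    (univ : Finset (Fin (s + 3) × Fin s)).image fun x => Y x.1 x.2.succ.succ with hS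
  have hbZ : univ.image bb ⊆ Z := by
    intro k hk
    rw [Finset.mem_image] at hk
    obtain ⟨i, -, rfl⟩ := hk
    by_contra hk
    have h1 := hCZ _ hk i
    rw [hCb, if_pos rfl] at h1
    exact one_ne_zero h1
  have hZc : (Z \ univ.image bb).card + (s + 2) = Z.card := by
    have h1 := Finset.card_sdiff_add_card_eq_card hbZ
    rwa [Finset.card_image_of_injective _ hbb, Finset.card_univ, Fintype.card_fin] at h1
  have hScard : S.card ≤ (Fintype.card (PI n) - (A.card * (s + 3) + B.card * (s + 2))) +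
      (A.card + B.card) + (Z \ univ.image bb).card * (s + 2) + (s + 3) * s := by
    refine (Finset.card_union_le _ _).trans (Nat.add_le_add ((Finset.card_union_le _ _).trans
      (Nat.add_le_add ((Finset.card_union_le _ _).trans (Nat.add_le_add ?_ ?_)) ?_)) ?_)
    · refine Finset.card_image_le.trans ?_
      rw [Finset.card_sdiff_of_subset (Finset.subset_univ _), hDc, Finset.card_univ]
    · exact Finset.card_image_le.trans (Finset.card_union_le _ _)
    · refine Finset.card_image_le.trans ?_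
      rw [Finset.card_product, Finset.card_univ, Fintype.card_fin]
    · refine Finset.card_image_le.trans ?_
      rw [Finset.card_univ, Fintype.card_prod, Fintype.card_fin, Fintype.card_fin]
  set T : Set ℂ := {w | IsAlgebraic ℚ w} with hT
  set K := IntermediateField.adjoin ℚ ((S : Set ℂ) ∪ T) with hK
  have hSK : ∀ x ∈ S, x ∈ K := fun x hx => IntermediateField.subset_adjoin ℚ _ (Or.inl hx)
  have hTK : ∀ x, IsAlgebraic ℚ x → x ∈ K := fun x hx =>
    IntermediateField.subset_adjoin ℚ _ (Or.inr hx)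
  have hPK : ∀ x, x ∉ D → P x ∈ K := by
    intro x hx
    refine hSK _ ?_
    rw [hS]
    refine mem_union_left _ (mem_union_left _ (mem_union_left _ (mem_image_of_mem _ ?_)))
    rw [mem_sdiff]
    exact ⟨mem_univ _, hx⟩
  have hκK : ∀ j ∈ A ∪ B, κ j ∈ K := by
    intro j hj
    refine hSK _ ?_
    rw [hS]
    exact mem_union_left _ (mem_union_left _ (mem_union_right _ (mem_image_of_mem _ hj)))
  have hCK : ∀ k i, C k i ∈ K := by
    intro k i
    by_cases hkb : k ∈ univ.image bb
    · rw [Finset.mem_image] at hkb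
      obtain ⟨i', -, rfl⟩ := hkb
      rw [hCb]
      split_ifs
      · exact one_mem K
      · exact zero_mem K
    · by_cases hkZ : k ∈ Z
      · refine hSK _ ?_
        rw [hS]
        refine mem_union_left _ (mem_union_right _ (mem_image.mpr ⟨(k, i), ?_, rfl⟩))
        rw [mem_product, mem_sdiff]
        exact ⟨⟨hkZ, hkb⟩, mem_univ _⟩
      · rw [hCZ k hkZ]
        exact zero_mem K
  have hYK : ∀ t i, Y t i ∈ K := by
    intro t i
    refine Fin.cases ?_ (fun i => ?_) i
    · exact hTK _ (hY0 t)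
    · refine Fin.cases ?_ (fun i => ?_) i
      · have h1 : Y t (Fin.succ 0) = 1 := hY1 t
        rw [h1]
        exact one_mem K
      · refine hSK _ ?_
        rw [hS]
        exact mem_union_right _ (mem_image.mpr ⟨(t, i), mem_univ _, rfl⟩)
  set W : Fin (s + 3) → Fin (n + 1) → ℂ := fun t k => ∑ i, C k i * Y t i with hW
  have hWK : ∀ t k, W t k ∈ K := fun t k => sum_mem fun i _ => mul_mem (hCK _ _) (hYK _ _)
  have hWb : ∀ t i, W t (bb i) = Y t i := by
    intro t i
    simp only [hW, hCb]
    simp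
  set E : Matrix (Fin (s + 3)) (Fin (s + 3)) ℂ := Matrix.of fun t =>
    (Fin.snoc (fun i => Y t 0 * Y t i) (Y t 1 * Y t i₁) : Fin (s + 3) → ℂ) with hE
  have hE1 : ∀ t (i : Fin (s + 2)), E t i.castSucc = Y t 0 * Y t i := by
    intro t i
    simp only [hE, Matrix.of_apply]
    rw [Fin.snoc_castSucc]
  have hE2 : ∀ t, E t (Fin.last (s + 2)) = Y t 1 * Y t i₁ := by
    intro t
    simp only [hE, Matrix.of_apply]
    rw [Fin.snoc_last]
  have hEK : ∀ t μ, E t μ ∈ K := by
    intro t μ
    refine Fin.lastCases ?_ (fun i => ?_) μ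
    · rw [hE2]
      exact mul_mem (hYK _ _) (hYK _ _)
    · rw [hE1]
      exact mul_mem (hYK _ _) (hYK _ _)
  have hEW : ∀ t μ, W t (pr μ).1 * W t (pr μ).2 = E t μ := by
    intro t μ
    refine Fin.lastCases ?_ (fun i => ?_) μ
    · rw [hE2, hpr2, hWb, hWb]
    · rw [hE1, hpr1, hWb, hWb]
  have hall : ∀ x, P x ∈ K := by
    rintro (⟨j, q⟩ | ⟨j, x⟩)
    · by_cases hq : (Sum.inl (j, q) : PI n) ∈ D
      · rw [hD, Finset.inl_mem_disjSum, mem_product] at hq
        obtain ⟨hj, hq⟩ := hq
        obtain ⟨μ, -, rfl⟩ := Finset.mem_image.mp hq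
        refine solve_mem hEK hdet (x := fun μ => P (Sum.inl (j, pr μ))) (fun t => ?_) μ
        have h1 := hA j hj t
        have h2 : ∑ q : Fin (n + 1) × Fin (n + 1), P (Sum.inl (j, q)) * (W t q.1 * W t q.2) =
            ∑ μ, P (Sum.inl (j, pr μ)) * E t μ +
            ∑ q ∈ univ \ univ.image pr, P (Sum.inl (j, q)) * (W t q.1 * W t q.2) := by
          rw [← Finset.sum_sdiff (Finset.subset_univ (univ.image pr)), add_comm,
            Finset.sum_image fun a _ b _ hab => hpri hab]
          congr 1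
          exact Finset.sum_congr rfl fun μ _ => by rw [hEW]
        change ∑ μ, E t μ * P (Sum.inl (j, pr μ)) ∈ K
        have h3 : ∑ μ, E t μ * P (Sum.inl (j, pr μ)) = κ j * W t j.castSucc ^ 2 -
            ∑ q ∈ univ \ univ.image pr, P (Sum.inl (j, q)) * (W t q.1 * W t q.2) := by
          rw [eq_sub_iff_add_eq, ← h1, h2]
          congr 1
          exact Finset.sum_congr rfl fun μ _ => mul_comm _ _
        rw [h3]
        refine sub_mem (mul_mem (hκK j (mem_union_left _ hj)) (pow_mem (hWK _ _) _))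
          (sum_mem fun q hq => mul_mem (hPK _ ?_) (mul_mem (hWK _ _) (hWK _ _)))
        rw [hD, Finset.inl_mem_disjSum, mem_product]
        rw [mem_sdiff] at hq
        exact fun h => hq.2 h.2
      · exact hPK _ hq
    · by_cases hx : (Sum.inr (j, x) : PI n) ∈ D
      · rw [hD, Finset.inr_mem_disjSum, mem_product] at hx
        obtain ⟨hj, hx⟩ := hx
        obtain ⟨i, -, rfl⟩ := Finset.mem_image.mp hx
        have h0 := solve_mem hEK hdet (x := Fin.snoc (fun i => P (Sum.inr (j, bb i))) 0)
          (fun t => ?_) i.castSucc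
        · rwa [Fin.snoc_castSucc] at h0
        have h1 := hB j hj t
        have h2 : ∑ x, P (Sum.inr (j, x)) * W t x =
            ∑ i, P (Sum.inr (j, bb i)) * Y t i +
            ∑ x ∈ univ \ univ.image bb, P (Sum.inr (j, x)) * W t x := by
          rw [← Finset.sum_sdiff (Finset.subset_univ (univ.image bb)), add_comm,
            Finset.sum_image fun a _ b _ hab => hbb hab]
          congr 1
          exact Finset.sum_congr rfl fun μ _ => by rw [hWb]
        change ∑ μ, E t μ * (Fin.snoc (fun i => P (Sum.inr (j, bb i))) 0 : Fin (s + 3) → ℂ) μ ∈ K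
        have h3 : ∑ μ, E t μ * (Fin.snoc (fun i => P (Sum.inr (j, bb i))) 0 :
            Fin (s + 3) → ℂ) μ = Y t 0 * (κ j * W t j.castSucc -
            ∑ x ∈ univ \ univ.image bb, P (Sum.inr (j, x)) * W t x) := by
          have h4 : κ j * W t j.castSucc -
            ∑ x ∈ univ \ univ.image bb, P (Sum.inr (j, x)) * W t x =
            ∑ i, P (Sum.inr (j, bb i)) * Y t i := by
            rw [sub_eq_iff_eq_add, ← h2]
            exact h1.symm
          rw [h4, Fin.sum_univ_castSucc, Fin.snoc_last, mul_zero, add_zero, Finset.mul_sum]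
          refine Finset.sum_congr rfl fun i _ => ?_
          rw [Fin.snoc_castSucc, hE1]
          ring
        rw [h3]
        refine mul_mem (hYK _ _) (sub_mem (mul_mem (hκK j (mem_union_right _ hj)) (hWK _ _))
          (sum_mem fun q hq => mul_mem (hPK _ ?_) (hWK _ _)))
        rw [hD, Finset.inr_mem_disjSum, mem_product]
        rw [mem_sdiff] at hq
        exact fun h => hq.2 h.2
      · exact hPK _ hx
  have hfin := card_le_of_mem_adjoin' hP (S := S) (T := T) (fun w hw => hw) hall
  have hDle : A.card * (s + 3) + B.card * (s + 2) ≤ Fintype.card (PI n) := by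
    rw [← hDc]
    exact Finset.card_le_univ D
  exact arith hZc hAB hB1 hDle (hfin.trans hScard)

end Pool.Agent.H89.Ci
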