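import Mathlib

set_option autoImplicit false

/-!
The field of meromorphic functions on the complex plane.
-/

open Filter Topology

namespace Pool.Agent.H89.Ci

/-- The algebra of meromorphic functions on the plane (with arbitrary values at the poles). -/
def merAlg : Subalgebra ℂ (ℂ → ℂ) where
  carrier := {f | Meromorphic f}
  mul_mem' := fun hf hg => Meromorphic.mul hf hg
  add_mem' := fun hf hg => Meromorphic.add hf hg
  algebraMap_mem' := fun c => Meromorphic.const c

/-- The functions which vanish outside a discrete set. -/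
def nullIdeal : Ideal merAlg where
  carrier := {f | ∀ z, f.1 =ᶠ[𝓝[≠] z] 0}
  add_mem' := by
    intro f g hf hg z
    filter_upwards [hf z, hg z] with w h1 h2
    change f.1 w + g.1 w = 0
    rw [h1, h2]
    simp
  zero_mem' := fun z => EventuallyEq.rfl
  smul_mem' := by
    intro c f hf z
    filter_upwards [hf z] with w h1
    change c.1 w * f.1 w = 0
    rw [h1]
    simp

theorem mem_nullIdeal {f : merAlg} : f ∈ nullIdeal ↔ ∀ z, f.1 =ᶠ[𝓝[≠] z] 0 := Iff.rfl

theorem mem_nullIdeal_of {f : merAlg} {z : ℂ} (h : f.1 =ᶠ[𝓝[≠] z] 0) : f ∈ nullIdeal := by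
  intro w
  by_contra hw
  have h1 : meromorphicOrderAt f.1 w ≠ ⊤ := fun h2 => hw (meromorphicOrderAt_eq_top_iff.mp h2)
  exact (Meromorphic.exists_meromorphicOrderAt_ne_top_iff_forall f.2).mp ⟨w, h1⟩ z
    (meromorphicOrderAt_eq_top_iff.mpr h)

theorem eventually_ne {f : merAlg} (h : f ∉ nullIdeal) (z : ℂ) : ∀ᶠ w in 𝓝[≠] z, f.1 w ≠ 0 := by
  have h1 : meromorphicOrderAt f.1 z ≠ ⊤ := fun h2 =>
    h (mem_nullIdeal_of (meromorphicOrderAt_eq_top_iff.mp h2))
  exact (meromorphicOrderAt_ne_top_iff_eventually_ne_zero (f.2 z)).mp h1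

instance nullIdeal_isMaximal : nullIdeal.IsMaximal := by
  rw [Ideal.isMaximal_iff]
  constructor
  · intro h
    have h1 := h 0
    have h2 : ∀ᶠ w in 𝓝[≠] (0 : ℂ), (1 : ℂ) = 0 := h1
    obtain ⟨w, hw⟩ := h2.exists
    exact one_ne_zero hw
  · intro J f hJ hf hfJ
    let g : merAlg := ⟨f.1⁻¹, Meromorphic.inv f.2⟩
    have h1 : g * f ∈ J := J.mul_mem_left g hfJ
    have h2 : 1 - g * f ∈ nullIdeal := by
      intro z
      filter_upwards [eventually_ne hf z] with w hw
      change 1 - (f.1 w)⁻¹ * f.1 w = 0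
      rw [inv_mul_cancel₀ hw, sub_self]
    have h3 := J.add_mem (hJ h2) h1
    rwa [sub_add_cancel] at h3

/-- The field of meromorphic functions on the plane. -/
def Mer : Type := merAlg ⧸ nullIdeal

noncomputable instance : Field Mer := Ideal.Quotient.field nullIdeal

noncomputable instance : Algebra ℂ Mer := inferInstanceAs (Algebra ℂ (merAlg ⧸ nullIdeal))

/-- The class of a meromorphic function. -/
noncomputable def mk (f : ℂ → ℂ) (hf : Meromorphic f) : Mer :=
  Ideal.Quotient.mk nullIdeal ⟨f, hf⟩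

theorem exists_rep (x : Mer) : ∃ (f : ℂ → ℂ) (hf : Meromorphic f), mk f hf = x := by
  obtain ⟨f, hf⟩ := Ideal.Quotient.mk_surjective (I := nullIdeal) x
  exact ⟨f.1, f.2, hf⟩

/-- A function representing an element. -/
noncomputable def rep (x : Mer) : ℂ → ℂ := (exists_rep x).choose

theorem rep_mer (x : Mer) : Meromorphic (rep x) := (exists_rep x).choose_spec.choose

theorem mk_rep (x : Mer) : mk (rep x) (rep_mer x) = x := (exists_rep x).choose_spec.choose_spec

theorem mk_eq_mk {f g : ℂ → ℂ} {hf : Meromorphic f} {hg : Meromorphic g} :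
    mk f hf = mk g hg ↔ ∀ z, f =ᶠ[𝓝[≠] z] g := by
  have h0 : mk f hf = mk g hg ↔ (⟨f, hf⟩ - ⟨g, hg⟩ : merAlg) ∈ nullIdeal :=
    Ideal.Quotient.mk_eq_mk_iff_sub_mem (I := nullIdeal) _ _
  rw [h0, mem_nullIdeal]
  refine forall_congr' fun z => ?_
  constructor
  · intro h
    filter_upwards [h] with w hw
    exact sub_eq_zero.mp hw
  · intro h
    filter_upwards [h] with w hw
    exact sub_eq_zero.mpr hw

theorem mk_eq_mk_of {f g : ℂ → ℂ} {hf : Meromorphic f} {hg : Meromorphic g} {z : ℂ}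
    (h : f =ᶠ[𝓝[≠] z] g) : mk f hf = mk g hg := by
  have h0 : mk f hf = mk g hg ↔ (⟨f, hf⟩ - ⟨g, hg⟩ : merAlg) ∈ nullIdeal :=
    Ideal.Quotient.mk_eq_mk_iff_sub_mem (I := nullIdeal) _ _
  rw [h0]
  refine mem_nullIdeal_of (z := z) ?_
  filter_upwards [h] with w hw
  exact sub_eq_zero.mpr hw

theorem rep_mk {f : ℂ → ℂ} (hf : Meromorphic f) (z : ℂ) : rep (mk f hf) =ᶠ[𝓝[≠] z] f :=
  mk_eq_mk.mp (mk_rep (mk f hf)) z

theorem eq_of_rep {x y : Mer} {z : ℂ} (h : rep x =ᶠ[𝓝[≠] z] rep y) : x = y := by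
  rw [← mk_rep x, ← mk_rep y]
  exact mk_eq_mk_of h

theorem mk_add {f g : ℂ → ℂ} (hf : Meromorphic f) (hg : Meromorphic g) :
    mk f hf + mk g hg = mk (f + g) (hf.add hg) := rfl

theorem mk_mul {f g : ℂ → ℂ} (hf : Meromorphic f) (hg : Meromorphic g) :
    mk f hf * mk g hg = mk (f * g) (hf.mul hg) := rfl

theorem mk_const (c : ℂ) : algebraMap ℂ Mer c = mk (fun _ => c) (Meromorphic.const c) := rfl

theorem rep_add (x y : Mer) (z : ℂ) : rep (x + y) =ᶠ[𝓝[≠] z] fun w => rep x w + rep y w := by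
  have h1 := rep_mk ((rep_mer x).add (rep_mer y)) z
  rw [← mk_add (rep_mer x) (rep_mer y), mk_rep, mk_rep] at h1
  exact h1

theorem rep_mul (x y : Mer) (z : ℂ) : rep (x * y) =ᶠ[𝓝[≠] z] fun w => rep x w * rep y w := by
  have h1 := rep_mk ((rep_mer x).mul (rep_mer y)) z
  rw [← mk_mul (rep_mer x) (rep_mer y), mk_rep, mk_rep] at h1
  exact h1

theorem rep_const (c : ℂ) (z : ℂ) : rep (algebraMap ℂ Mer c) =ᶠ[𝓝[≠] z] fun _ => c := by
  rw [mk_const]
  exact rep_mk _ z

theorem rep_zero (z : ℂ) : rep 0 =ᶠ[𝓝[≠] z] fun _ => 0 := by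
  have h1 := rep_const 0 z
  rwa [map_zero] at h1

theorem rep_one (z : ℂ) : rep 1 =ᶠ[𝓝[≠] z] fun _ => 1 := by
  have h1 := rep_const 1 z
  rwa [map_one] at h1

theorem rep_pow (x : Mer) (n : ℕ) (z : ℂ) : rep (x ^ n) =ᶠ[𝓝[≠] z] fun w => rep x w ^ n := by
  induction n with
  | zero =>
    rw [pow_zero]
    filter_upwards [rep_one z] with w hw
    rw [hw, pow_zero]
  | succ n ih =>
    rw [pow_succ]
    filter_upwards [rep_mul (x ^ n) x z, ih] with w h1 h2
    rw [h1, h2, pow_succ]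

theorem rep_sum {ι : Type*} (s : Finset ι) (f : ι → Mer) (z : ℂ) :
    rep (∑ i ∈ s, f i) =ᶠ[𝓝[≠] z] fun w => ∑ i ∈ s, rep (f i) w := by
  classical
  induction s using Finset.induction_on with
  | empty =>
    filter_upwards [rep_zero z] with w hw
    rw [Finset.sum_empty, Finset.sum_empty, hw]
  | insert i s hi ih =>
    rw [Finset.sum_insert hi]
    filter_upwards [rep_add (f i) (∑ i ∈ s, f i) z, ih] with w h1 h2
    rw [h1, h2, Finset.sum_insert hi]

theorem rep_prod {ι : Type*} (s : Finset ι) (f : ι → Mer) (z : ℂ) :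
    rep (∏ i ∈ s, f i) =ᶠ[𝓝[≠] z] fun w => ∏ i ∈ s, rep (f i) w := by
  classical
  induction s using Finset.induction_on with
  | empty =>
    filter_upwards [rep_one z] with w hw
    rw [Finset.prod_empty, Finset.prod_empty, hw]
  | insert i s hi ih =>
    rw [Finset.prod_insert hi]
    filter_upwards [rep_mul (f i) (∏ i ∈ s, f i) z, ih] with w h1 h2
    rw [h1, h2, Finset.prod_insert hi]

theorem rep_ne {x : Mer} (hx : x ≠ 0) (z : ℂ) : ∀ᶠ w in 𝓝[≠] z, rep x w ≠ 0 := by
  have h1 : (⟨rep x, rep_mer x⟩ : merAlg) ∉ nullIdeal := by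
    intro h2
    apply hx
    apply eq_of_rep (z := 0)
    filter_upwards [h2 0, rep_zero 0] with w h3 h4
    rw [h4]
    exact h3
  exact eventually_ne h1 z

theorem eq_zero_of_rep {x : Mer} {z : ℂ} (h : ∃ᶠ w in 𝓝[≠] z, rep x w = 0) : x = 0 := by
  by_contra hx
  exact h (rep_ne hx z)

/-! ### Orders -/

/-- The order of vanishing. -/
noncomputable def ord (z : ℂ) (x : Mer) : WithTop ℤ := meromorphicOrderAt (rep x) z

theorem ord_congr {x : Mer} {f : ℂ → ℂ} {z : ℂ} (h : rep x =ᶠ[𝓝[≠] z] f) :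
    ord z x = meromorphicOrderAt f z := meromorphicOrderAt_congr h

theorem ord_mul (z : ℂ) (x y : Mer) : ord z (x * y) = ord z x + ord z y := by
  rw [ord_congr (rep_mul x y z)]
  exact meromorphicOrderAt_mul (rep_mer x z) (rep_mer y z)

theorem ord_add (z : ℂ) (x y : Mer) : min (ord z x) (ord z y) ≤ ord z (x + y) := by
  rw [ord_congr (rep_add x y z)]
  exact meromorphicOrderAt_add (rep_mer x z) (rep_mer y z)

theorem ord_eq_top {z : ℂ} {x : Mer} : ord z x = ⊤ ↔ x = 0 := by
  constructor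
  · intro h
    have h1 := meromorphicOrderAt_eq_top_iff.mp h
    exact eq_zero_of_rep h1.frequently
  · rintro rfl
    exact meromorphicOrderAt_eq_top_iff.mpr (rep_zero z)

theorem ord_const (z : ℂ) {c : ℂ} (hc : c ≠ 0) : ord z (algebraMap ℂ Mer c) = 0 := by
  classical
  rw [ord_congr (rep_const c z), meromorphicOrderAt_const, if_neg hc]

theorem ord_one (z : ℂ) : ord z 1 = 0 := by
  have h1 := ord_const z one_ne_zero
  rwa [map_one] at h1

theorem ord_pow (z : ℂ) (x : Mer) (n : ℕ) : ord z (x ^ n) = n • ord z x := by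
  induction n with
  | zero => rw [pow_zero, ord_one, zero_smul]
  | succ n ih => rw [pow_succ, ord_mul, ih, succ_nsmul]

/-! ### The derivation -/

theorem deriv_congr_punctured {f g : ℂ → ℂ} {z : ℂ} (h : f =ᶠ[𝓝[≠] z] g) :
    deriv f =ᶠ[𝓝[≠] z] deriv g := by
  have h1 : ∀ᶠ w in 𝓝[≠] z, ∀ᶠ u in 𝓝 w, f u = g u := by
    rw [EventuallyEq, eventually_nhdsWithin_iff] at h
    rw [eventually_nhdsWithin_iff]
    filter_upwards [h.eventually_nhds] with w hw hwz
    filter_upwards [hw, isOpen_ne.mem_nhds hwz] with u hu huz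
    exact hu huz
  filter_upwards [h1] with w hw
  exact EventuallyEq.deriv_eq hw

theorem rep_analytic (x : Mer) (z : ℂ) : ∀ᶠ w in 𝓝[≠] z, AnalyticAt ℂ (rep x) w :=
  (rep_mer x z).eventually_analyticAt

/-- The derivative of a meromorphic function. -/
noncomputable def dfun (x : Mer) : Mer := mk (deriv (rep x)) fun z => (rep_mer x z).deriv

theorem rep_dfun (x : Mer) (z : ℂ) : rep (dfun x) =ᶠ[𝓝[≠] z] deriv (rep x) := rep_mk _ z

theorem dfun_add (x y : Mer) : dfun (x + y) = dfun x + dfun y := by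
  apply eq_of_rep (z := 0)
  filter_upwards [rep_dfun (x + y) 0, rep_add (dfun x) (dfun y) 0, rep_dfun x 0, rep_dfun y 0,
    deriv_congr_punctured (rep_add x y 0), rep_analytic x 0, rep_analytic y 0]
    with w h1 h2 h3 h4 h5 h6 h7
  rw [h1, h2, h3, h4, h5]
  exact deriv_fun_add h6.differentiableAt h7.differentiableAt

theorem dfun_mul (x y : Mer) : dfun (x * y) = x * dfun y + y * dfun x := by
  apply eq_of_rep (z := 0)
  filter_upwards [rep_dfun (x * y) 0, rep_add (x * dfun y) (y * dfun x) 0, rep_mul x (dfun y) 0,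
    rep_mul y (dfun x) 0, rep_dfun x 0, rep_dfun y 0,
    deriv_congr_punctured (rep_mul x y 0), rep_analytic x 0, rep_analytic y 0]
    with w h1 h2 h3 h4 h5 h6 h7 h8 h9
  rw [h1, h2, h3, h4, h5, h6, h7]
  rw [deriv_fun_mul h8.differentiableAt h9.differentiableAt]
  ring

theorem dfun_const (c : ℂ) : dfun (algebraMap ℂ Mer c) = 0 := by
  apply eq_of_rep (z := 0)
  filter_upwards [rep_dfun (algebraMap ℂ Mer c) 0, rep_zero 0,
    deriv_congr_punctured (rep_const c 0)] with w h1 h2 h3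
  rw [h1, h2, h3, deriv_const]

theorem dfun_zero : dfun 0 = 0 := by
  have h1 := dfun_const 0
  rwa [map_zero] at h1

/-- The derivation `d/dz`. -/
noncomputable def dd : Derivation ℂ Mer Mer where
  toFun := dfun
  map_add' := dfun_add
  map_smul' := by
    intro c x
    rw [Algebra.smul_def, dfun_mul, dfun_const, mul_zero, add_zero, RingHom.id_apply,
      Algebra.smul_def]
  map_one_eq_zero' := by
    have h1 := dfun_const 1
    rw [map_one] at h1
    exact h1
  leibniz' := by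
    intro x y
    change dfun (x * y) = x • dfun y + y • dfun x
    rw [dfun_mul, smul_eq_mul, smul_eq_mul]

theorem rep_dd (x : Mer) (z : ℂ) : rep (dd x) =ᶠ[𝓝[≠] z] deriv (rep x) := rep_dfun x z

/-- Functions with derivative zero are constant. -/
theorem exists_const_of_dd {x : Mer} (h : dd x = 0) : ∃ c : ℂ, x = algebraMap ℂ Mer c := by
  have h0 : ∀ᶠ w in 𝓝[≠] (0 : ℂ), AnalyticAt ℂ (rep x) w ∧
      ∀ᶠ u in 𝓝 w, deriv (rep x) u = 0 := by
    have h1 : ∀ᶠ w in 𝓝[≠] (0 : ℂ), deriv (rep x) w = 0 := by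
      filter_upwards [rep_dd x 0, rep_zero 0] with w h1 h2
      rw [← h1, h, h2]
    have h2 : ∀ᶠ w in 𝓝[≠] (0 : ℂ), ∀ᶠ u in 𝓝 w, deriv (rep x) u = 0 := by
      rw [eventually_nhdsWithin_iff] at h1
      rw [eventually_nhdsWithin_iff]
      filter_upwards [h1.eventually_nhds] with w hw hwz
      filter_upwards [hw, isOpen_ne.mem_nhds hwz] with u hu huz
      exact hu huz
    filter_upwards [rep_analytic x 0, h2] with w h3 h4
    exact ⟨h3, h4⟩
  obtain ⟨w, hw1, hw2⟩ := h0.exists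
  refine ⟨rep x w, ?_⟩
  have h3 : ∀ᶠ u in 𝓝 w, rep x u = rep x w := by
    obtain ⟨U, hU, hUo, hUw⟩ := eventually_nhds_iff.mp (hw1.eventually_analyticAt.and hw2)
    obtain ⟨r, hr, hball⟩ := Metric.isOpen_iff.mp hUo w hUw
    filter_upwards [Metric.ball_mem_nhds w hr] with u hu
    refine Metric.isOpen_ball.is_const_of_deriv_eq_zero (convex_ball w r).isPreconnected
      (fun v hv => (hU v (hball hv)).1.differentiableAt.differentiableWithinAt)
      (fun v hv => (hU v (hball hv)).2) hu (Metric.mem_ball_self hr)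
  apply eq_of_rep (z := w)
  filter_upwards [h3.filter_mono nhdsWithin_le_nhds, rep_const (rep x w) w] with u h4 h5
  rw [h4, h5]

end Pool.Agent.H89.Ci
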