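import Pool.Agent.Lib.H89.Ci.Trdeg
import Pool.Agent.Lib.H89.Ci.Mero

set_option autoImplicit false

/-!
Counting algebraically independent numbers; solving linear systems over a subfield.
-/

open Cardinal Matrix Filter Topology

namespace Pool.Agent.H89.Ci

/-- Algebraically independent numbers in the field generated by a finite set and by algebraic
numbers. -/
theorem card_le_of_mem_adjoin' {ι : Type} [Fintype ι] {x : ι → ℂ} (hx : AlgebraicIndependent ℚ x)
    {S : Finset ℂ} {T : Set ℂ} (hT : ∀ w ∈ T, IsAlgebraic ℚ w)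
    (hS : ∀ i, x i ∈ IntermediateField.adjoin ℚ ((S : Set ℂ) ∪ T)) :
    Fintype.card ι ≤ S.card := by
  set K := IntermediateField.adjoin ℚ ((S : Set ℂ) ∪ T) with hK
  set s : Set K := {y | (y : ℂ) ∈ S} with hs
  have halg : Algebra.IsAlgebraic (Algebra.adjoin ℚ s) K := by
    refine ⟨fun y => ?_⟩
    have key : ∀ (w : ℂ) (hw : w ∈ K), IsAlgebraic (Algebra.adjoin ℚ s) (⟨w, hw⟩ : K) := by
      intro w hw
      induction hw using IntermediateField.adjoin_induction with
      | mem w hw =>
        have hw0 : w ∈ K := IntermediateField.subset_adjoin ℚ _ hw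
        rcases hw with hw' | hw'
        · have h1 : (⟨w, hw0⟩ : K) ∈ Algebra.adjoin ℚ s :=
            Algebra.subset_adjoin hw'
          exact isAlgebraic_algebraMap (R := Algebra.adjoin ℚ s) (A := K) ⟨_, h1⟩
        · have h1 : IsAlgebraic ℚ (⟨w, hw0⟩ : K) := by
            rw [← isAlgebraic_algebraMap_iff (A := ℂ) (algebraMap K ℂ).injective]
            exact hT w hw'
          exact h1.extendScalars (S := Algebra.adjoin ℚ s)
            (algebraMap ℚ (Algebra.adjoin ℚ s)).injective
      | algebraMap q =>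
        have h1 : algebraMap ℚ K q ∈ Algebra.adjoin ℚ s := Subalgebra.algebraMap_mem _ _
        exact isAlgebraic_algebraMap (R := Algebra.adjoin ℚ s) (A := K) ⟨_, h1⟩
      | add a b ha hb h1 h2 => exact h1.add h2
      | inv a ha h1 => exact h1.inv
      | mul a b ha hb h1 h2 => exact h1.mul h2
    exact key y y.2
  have h1 : Algebra.trdeg ℚ K ≤ #s := Algebra.IsAlgebraic.trdeg_le_cardinalMk ℚ s
  have h2 : AlgebraicIndependent ℚ (fun i => (⟨x i, hS i⟩ : K)) :=
    (AlgHom.algebraicIndependent_iff K.val K.val.injective).mp hx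
  have h3 := h2.cardinalMk_le_trdeg
  have h4 : #s ≤ S.card := by
    have h5 : #s ≤ #(S : Set ℂ) :=
      Cardinal.mk_le_of_injective (f := fun y : s => (⟨(y : K), y.2⟩ : (S : Set ℂ))) (by
        intro a b hab
        have h6 := congrArg (fun t : (S : Set ℂ) => (t : ℂ)) hab
        exact Subtype.ext (Subtype.ext h6))
    simpa using h5
  have h5 := (h3.trans h1).trans h4
  rw [Cardinal.mk_fintype] at h5
  exact_mod_cast h5

/-- Solutions of regular linear systems over a subfield. -/
theorem solve_mem {N : ℕ} {K : IntermediateField ℚ ℂ} {E : Matrix (Fin N) (Fin N) ℂ}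
    (hE : ∀ i j, E i j ∈ K) (hdet : E.det ≠ 0) {x : Fin N → ℂ} (hx : ∀ i, (E *ᵥ x) i ∈ K)
    (j : Fin N) : x j ∈ K := by
  have hdetm : ∀ (M : Matrix (Fin N) (Fin N) ℂ), (∀ i j, M i j ∈ K) → M.det ∈ K := by
    intro M hM
    rw [Matrix.det_apply']
    refine sum_mem fun σ _ => mul_mem ?_ (prod_mem fun i _ => hM _ _)
    exact intCast_mem K _
  have h1 : E.adjugate *ᵥ (E *ᵥ x) = E.det • x := by
    rw [Matrix.mulVec_mulVec, Matrix.adjugate_mul, Matrix.smul_mulVec, Matrix.one_mulVec]
  have h2 : E.det * x j ∈ K := by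
    have h3 := congrFun h1 j
    rw [Pi.smul_apply, smul_eq_mul] at h3
    rw [← h3]
    change ∑ i, E.adjugate j i * (E *ᵥ x) i ∈ K
    refine sum_mem fun i _ => mul_mem ?_ (hx i)
    rw [Matrix.adjugate_apply]
    refine hdetm _ fun a b => ?_
    rw [Matrix.updateRow_apply]
    split_ifs
    · rw [Pi.single_apply]
      split_ifs
      · exact one_mem K
      · exact zero_mem K
    · exact hE a b
  have h3 := mul_mem (inv_mem (hdetm E hE)) h2
  rwa [inv_mul_cancel_left₀ hdet] at h3

/-- The algebraic numbers are dense. -/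
theorem exists_alg_of_open {U : Set ℂ} (hU : IsOpen U) (hne : U.Nonempty) :
    ∃ w ∈ U, IsAlgebraic ℚ w := by
  obtain ⟨u, hu⟩ := hne
  obtain ⟨r, hr, hball⟩ := Metric.isOpen_iff.mp hU u hu
  obtain ⟨q1, h1, h1'⟩ := exists_rat_btwn (show u.re < u.re + r / 2 by linarith)
  obtain ⟨q2, h2, h2'⟩ := exists_rat_btwn (show u.im < u.im + r / 2 by linarith)
  refine ⟨(q1 : ℂ) + (q2 : ℂ) * Complex.I, hball ?_, ?_⟩
  · rw [Metric.mem_ball, dist_eq_norm]
    refine (Complex.norm_le_abs_re_add_abs_im _).trans_lt ?_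
    have e1 : |((q1 : ℂ) + (q2 : ℂ) * Complex.I - u).re| < r / 2 := by
      have e3 : ((q1 : ℂ) + (q2 : ℂ) * Complex.I - u).re = q1 - u.re := by simp
      rw [e3, abs_lt]
      constructor <;> linarith
    have e2 : |((q1 : ℂ) + (q2 : ℂ) * Complex.I - u).im| < r / 2 := by
      have e3 : ((q1 : ℂ) + (q2 : ℂ) * Complex.I - u).im = q2 - u.im := by simp
      rw [e3, abs_lt]
      constructor <;> linarith
    linarith
  · have hI : IsAlgebraic ℚ Complex.I := by
      refine ⟨Polynomial.X ^ 2 + 1, ?_, ?_⟩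
      · intro h
        have h3 := congrArg (Polynomial.eval 0) h
        simp at h3
      · simp
    exact (isAlgebraic_algebraMap (R := ℚ) (A := ℂ) q1).add
      ((isAlgebraic_algebraMap (R := ℚ) (A := ℂ) q2).mul hI)

end Pool.Agent.H89.Ci
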