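import Pool.Agent.Lib.H89.Ci.FOne

set_option autoImplicit false

/-!
Points of evaluation; products of linearly independent functions.
-/

open Matrix Filter Topology

namespace Pool.Agent.H89.Ci

section abs

variable {M : Type} [Field M] [Algebra ℂ M]

/-- Linear independence over the complex numbers. -/
def LI {N : ℕ} (g : Fin N → M) : Prop :=
  ∀ γ : Fin N → ℂ, ∑ μ, algebraMap ℂ M (γ μ) * g μ = 0 → ∀ μ, γ μ = 0

theorem li_iff {N : ℕ} {g : Fin N → M} : LI g ↔ LinearIndependent ℂ g := by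
  rw [Fintype.linearIndependent_iff]
  simp only [Algebra.smul_def]
  rfl

/-- A weak form of the Hopf lemma. -/
theorem exists_hopf {s : ℕ} {y : Fin (s + 2) → M} (hy' : LI y) :
    ∃ i₁, LI (Fin.snoc (fun i => y 0 * y i) (y 1 * y i₁) : Fin (s + 2 + 1) → M) := by
  simp only [li_iff] at hy' ⊢
  have hy := hy'
  have hy0 : y 0 ≠ 0 := hy.ne_zero 0
  have h0 : LinearIndependent ℂ fun i => y 0 * y i := by
    have h1 := hy.map' (LinearMap.mulLeft ℂ (y 0)) (by
      rw [LinearMap.ker_eq_bot]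
      intro a b hab
      exact mul_left_cancel₀ hy0 hab)
    exact h1
  by_contra hcon
  push Not at hcon
  have h1 : ∀ i, y 1 * y i ∈ Submodule.span ℂ (Set.range fun i => y 0 * y i) := by
    intro i
    by_contra h2
    exact hcon i (h0.finSnoc h2)
  set q := y 1 / y 0 with hq
  set W := Submodule.span ℂ (Set.range y) with hW
  have h2 : ∀ x ∈ W, LinearMap.mulLeft ℂ q x ∈ W := by
    intro x hx
    have h3 : W ≤ W.comap (LinearMap.mulLeft ℂ q) := by
      conv_lhs => rw [hW]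
      rw [Submodule.span_le]
      rintro _ ⟨i, rfl⟩
      have h4 : Submodule.span ℂ (Set.range fun i => y 0 * y i) ≤
          W.map (LinearMap.mulLeft ℂ (y 0)) := by
        rw [Submodule.span_le]
        rintro _ ⟨i, rfl⟩
        exact ⟨y i, Submodule.subset_span ⟨i, rfl⟩, rfl⟩
      obtain ⟨v, hv, hv'⟩ := h4 (h1 i)
      have hv2 : y 0 * v = y 1 * y i := hv'
      change q * y i ∈ W
      have h5 : q * y i = v := by
        rw [hq, div_mul_eq_mul_div, ← hv2, mul_div_cancel_left₀ _ hy0]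
      rw [h5]
      exact hv
    exact h3 hx
  have : Nontrivial W := ⟨⟨⟨y 0, Submodule.subset_span ⟨0, rfl⟩⟩, 0, fun h => hy0
    (congrArg Subtype.val h)⟩⟩
  have : FiniteDimensional ℂ W := FiniteDimensional.span_of_finite ℂ (Set.finite_range y)
  obtain ⟨μ, hμ⟩ := Module.End.exists_eigenvalue ((LinearMap.mulLeft ℂ q).restrict h2)
  obtain ⟨v, hv⟩ := hμ.exists_hasEigenvector
  have hv0 : (v : M) ≠ 0 := fun h => hv.2 (Subtype.ext h)
  have hv1 : q * (v : M) = algebraMap ℂ M μ * v := by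
    have h3 := congrArg Subtype.val hv.apply_eq_smul
    rw [← Algebra.smul_def]
    exact h3
  have hv2 : q = algebraMap ℂ M μ := mul_right_cancel₀ hv0 hv1
  have hv3 : y 1 = algebraMap ℂ M μ * y 0 := by
    rw [← hv2, hq, div_mul_cancel₀ _ hy0]
  have h3 := li_iff.mpr hy (fun i => if i = 0 then μ else if i = 1 then -1
    else 0) (by
    rw [Fin.sum_univ_succ, Fin.sum_univ_succ, Finset.sum_eq_zero (fun i _ => ?_)]
    · have e1 : (if (Fin.succ (0 : Fin (s + 1))) = 1 then (-1 : ℂ) else 0) = -1 := if_pos rfl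
      rw [if_pos rfl, if_neg (by simp [Fin.ext_iff]), e1]
      change algebraMap ℂ M μ * y 0 + (algebraMap ℂ M (-1) * y 1 + 0) = 0
      rw [hv3]
      simp
    · rw [if_neg (by simp [Fin.ext_iff]), if_neg (by simp [Fin.ext_iff]), map_zero, zero_mul]) 1
  rw [if_neg (by simp [Fin.ext_iff]), if_pos rfl] at h3
  norm_num at h3

end abs

/-- A nonconstant function takes an algebraic value at a good point. -/
theorem exists_point {ρ : Mer} (hρ : dd ρ ≠ 0) {E : ℂ → Prop} (hE : ∀ᶠ z in 𝓝[≠] (0 : ℂ), E z) :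
    ∃ z, E z ∧ IsAlgebraic ℚ (rep ρ z) := by
  have h1 : ∀ᶠ z₁ in 𝓝[≠] (0 : ℂ), ∀ᶠ z in 𝓝 z₁, E z := by
    rw [eventually_nhdsWithin_iff] at hE
    rw [eventually_nhdsWithin_iff]
    filter_upwards [hE.eventually_nhds] with w hw hwz
    filter_upwards [hw, isOpen_ne.mem_nhds hwz] with u hu huz
    exact hu huz
  obtain ⟨z₁, h2, h3, h4, h5⟩ := (h1.and ((rep_analytic ρ 0).and ((rep_dd ρ 0).and
    (rep_ne hρ 0)))).exists
  rcases h3.eventually_constant_or_nhds_le_map_nhds with h6 | h6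
  · exfalso
    apply h5
    rw [h4]
    have h7 : rep ρ =ᶠ[𝓝 z₁] fun _ => rep ρ z₁ := h6
    rw [h7.deriv_eq, deriv_const]
  · have h7 : (rep ρ) '' {z | E z} ∈ 𝓝 (rep ρ z₁) := h6 (Filter.image_mem_map h2)
    obtain ⟨U, hUs, hUo, hU⟩ := mem_nhds_iff.mp h7
    obtain ⟨w, hw, hwa⟩ := exists_alg_of_open hUo ⟨_, hU⟩
    obtain ⟨z, hz, hzw⟩ := hUs hw
    exact ⟨z, hz, by rw [hzw]; exact hwa⟩

theorem rep_comb {N : ℕ} (g : Fin N → Mer) (γ : Fin N → ℂ) (z₀ : ℂ) :
    ∀ᶠ z in 𝓝[≠] z₀, rep (∑ μ, algebraMap ℂ Mer (γ μ) * g μ) z = ∑ μ, γ μ * rep (g μ) z := by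
  have h3 : ∀ j, ∀ᶠ z in 𝓝[≠] z₀, rep (algebraMap ℂ Mer (γ j) * g j) z =
      γ j * rep (g j) z := by
    intro j
    filter_upwards [rep_mul (algebraMap ℂ Mer (γ j)) (g j) z₀, rep_const (γ j) z₀]
      with z h4 h5
    rw [h4, h5]
  filter_upwards [rep_sum Finset.univ (fun j => algebraMap ℂ Mer (γ j) * g j) z₀,
    eventually_all.mpr h3] with z h4 h5
  rw [h4]
  exact Finset.sum_congr rfl fun j _ => h5 j

/-- Evaluation points for linearly independent functions. -/
theorem exists_points {ρ : Mer} (hρ : dd ρ ≠ 0) {E : ℂ → Prop}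
    (hE : ∀ᶠ z in 𝓝[≠] (0 : ℂ), E z) {N : ℕ} {g : Fin N → Mer} (hg : LI g)
    (t : ℕ) : t ≤ N → ∃ z : Fin t → ℂ, (∀ i, E (z i)) ∧ (∀ i, IsAlgebraic ℚ (rep ρ (z i))) ∧
      LinearIndependent ℂ fun i => (fun μ => rep (g μ) (z i) : Fin N → ℂ) := by
  induction t with
  | zero =>
    intro _
    exact ⟨Fin.elim0, fun i => i.elim0, fun i => i.elim0, linearIndependent_empty_type⟩
  | succ t ih =>
    intro ht
    obtain ⟨z, h1, h2, h3⟩ := ih (by omega)
    set M : Matrix (Fin t) (Fin N) ℂ := Matrix.of fun i μ => rep (g μ) (z i) with hM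
    have hker : LinearMap.ker (Matrix.mulVecLin M) ≠ ⊥ :=
      LinearMap.ker_ne_bot_of_finrank_lt (by simp; omega)
    obtain ⟨γ, hγ, hγ0⟩ := Submodule.exists_mem_ne_zero_of_ne_bot hker
    have hγ' : M *ᵥ γ = 0 := hγ
    have hG : ∑ μ, algebraMap ℂ Mer (γ μ) * g μ ≠ 0 := by
      intro h0
      apply hγ0
      ext μ
      exact hg γ h0 μ
    obtain ⟨z', ⟨h4, h5, h6⟩, h7⟩ := exists_point hρ (hE.and ((rep_ne hG 0).and
      (rep_comb g γ 0)))
    refine ⟨Fin.snoc z z', ?_, ?_, ?_⟩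
    · intro i
      refine Fin.lastCases ?_ (fun i => ?_) i
      · rw [Fin.snoc_last]
        exact h4
      · rw [Fin.snoc_castSucc]
        exact h1 i
    · intro i
      refine Fin.lastCases ?_ (fun i => ?_) i
      · rw [Fin.snoc_last]
        exact h7
      · rw [Fin.snoc_castSucc]
        exact h2 i
    · have he : (fun i => (fun μ => rep (g μ) ((Fin.snoc z z' : Fin (t + 1) → ℂ) i) :
          Fin N → ℂ)) = Fin.snoc (fun i => (fun μ => rep (g μ) (z i) : Fin N → ℂ))
          (fun μ => rep (g μ) z') := by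
        ext i μ
        refine Fin.lastCases ?_ (fun i => ?_) i
        · rw [Fin.snoc_last, Fin.snoc_last]
        · rw [Fin.snoc_castSucc, Fin.snoc_castSucc]
      rw [he]
      refine h3.finSnoc fun hmem => ?_
      have hle : Submodule.span ℂ (Set.range fun i => (fun μ => rep (g μ) (z i) : Fin N → ℂ)) ≤
          LinearMap.ker (Matrix.mulVecLin (Matrix.of fun (_ : Fin 1) μ => γ μ)) := by
        rw [Submodule.span_le]
        rintro _ ⟨i, rfl⟩
        rw [SetLike.mem_coe, LinearMap.mem_ker, Matrix.mulVecLin_apply]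
        ext k
        have h8 := congrFun hγ' i
        change ∑ μ, rep (g μ) (z i) * γ μ = 0 at h8
        change ∑ μ, γ μ * rep (g μ) (z i) = 0
        rw [← h8]
        exact Finset.sum_congr rfl fun μ _ => mul_comm _ _
      have h8 := hle hmem
      rw [LinearMap.mem_ker, Matrix.mulVecLin_apply] at h8
      have h9 := congrFun h8 0
      change ∑ μ, γ μ * rep (g μ) z' = 0 at h9
      rw [h6] at h5
      exact h5 h9

end Pool.Agent.H89.Ci
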