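import Pool.Agent.Lib.H89.Ci.Orb

set_option autoImplicit false

/-!
Meromorphic functions with five totally ramified values are constant; the curves needed later.
-/

open Filter Topology Finset Matrix

namespace Pool.Agent.H89.Ci

theorem ord_neg (z : ℂ) (x : Mer) : ord z (-x) = ord z x := by
  have h1 : (-x : Mer) = algebraMap ℂ Mer (-1) * x := by
    rw [map_neg, map_one, neg_one_mul]
  rw [h1, ord_mul, ord_const z (neg_ne_zero.mpr one_ne_zero), zero_add]

theorem ord_add_eq_left {z : ℂ} {x y : Mer} (h : ord z x < ord z y) :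
    ord z (x + y) = ord z x := by
  rw [ord_congr (rep_add x y z)]
  exact meromorphicOrderAt_add_eq_left_of_lt (rep_mer y z) h

theorem ord_add_eq_right {z : ℂ} {x y : Mer} (h : ord z y < ord z x) :
    ord z (x + y) = ord z y := by
  rw [add_comm]
  exact ord_add_eq_left h

theorem ord_const_nonneg (z : ℂ) (c : ℂ) : 0 ≤ ord z (algebraMap ℂ Mer c) := by
  by_cases hc : c = 0
  · rw [hc, map_zero, ord_eq_top.mpr rfl]
    exact le_top
  · rw [ord_const z hc]

theorem ord_sub_const_of_neg {z : ℂ} {x : Mer} (h : ord z x < 0) (c : ℂ) :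
    ord z (x - algebraMap ℂ Mer c) = ord z x := by
  rw [sub_eq_add_neg]
  refine ord_add_eq_left ?_
  rw [ord_neg]
  exact h.trans_le (ord_const_nonneg z c)

theorem dd_const (c : ℂ) : dd (algebraMap ℂ Mer c) = 0 := dd.map_algebraMap c

/-- **Five totally ramified values.** -/
theorem dd_eq_zero_of_five {w : Mer} {a : Fin 5 → ℂ} (ha : Function.Injective a)
    (h1 : ∀ i, a i ≠ 0 → ∀ z, ord z (w - algebraMap ℂ Mer (a i)⁻¹) ≠ 1)
    (h2 : ∀ i, a i = 0 → ∀ z, ord z w ≠ -1) : dd w = 0 := by
  by_contra hw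
  set r : Fin (1 + 1) → Mer := ![-1, w] with hr
  have hev : ∀ b : ℂ, ev r (algebraMap ℂ Mer b) = -1 + w * algebraMap ℂ Mer b := by
    intro b
    unfold ev
    rw [Fin.sum_univ_two]
    simp [hr]
  have hρ : ∀ i, ev r (algebraMap ℂ Mer (a i)) ≠ 0 := by
    intro i h0
    rw [hev] at h0
    apply hw
    by_cases hai : a i = 0
    · rw [hai, map_zero, mul_zero, add_zero] at h0
      exact absurd h0 (neg_ne_zero.mpr one_ne_zero)
    · have hA : algebraMap ℂ Mer (a i) ≠ 0 := fun h =>
        hai ((algebraMap ℂ Mer).injective (by rw [h, map_zero]))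
      have h3 : w = algebraMap ℂ Mer (a i)⁻¹ := by
        rw [map_inv₀]
        exact eq_inv_of_mul_eq_one_left (by linear_combination h0)
      rw [h3]
      exact dd_const _
  have hinf : ∀ z, (univ.inf fun j => ord z (r j)) = min 0 (ord z w) := by
    intro z
    have h3 : (univ : Finset (Fin (1 + 1))) = {0, 1} := by decide
    rw [h3, Finset.inf_insert, Finset.inf_singleton]
    have h4 : ord z (r 0) = 0 := by
      have h5 : r 0 = -1 := by simp [hr]
      rw [h5, ord_neg, ord_one]
    have h5 : r 1 = w := by simp [hr]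
    rw [h4, h5]
  have key := det_bez_eq_zero (s := 1) (k := 5) ha le_rfl le_rfl hρ (by
    intro z i hord
    rw [hinf, hev] at hord
    by_cases hai : a i = 0
    · rw [hai, map_zero, mul_zero, add_zero, ord_neg, ord_one] at hord
      apply h2 i hai z
      rcases min_choice 0 (ord z w) with h3 | h3
      · rw [h3, zero_add] at hord
        exact absurd hord zero_ne_one
      · rw [h3] at hord
        have hne : ord z w ≠ ⊤ := by
          intro h4
          rw [h4, top_add] at hord
          exact WithTop.zero_ne_top hord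
        obtain ⟨m, hm⟩ := WithTop.ne_top_iff_exists.mp hne
        rw [← hm] at hord ⊢
        have h4 : ((0 : ℤ) : WithTop ℤ) = ((m + 1 : ℤ) : WithTop ℤ) := by
          push_cast
          exact hord
        have h5 : (0 : ℤ) = m + 1 := WithTop.coe_injective h4
        have h6 : m = -1 := by omega
        rw [h6]
        rfl
    · have hA : algebraMap ℂ Mer (a i) ≠ 0 := fun h =>
        hai ((algebraMap ℂ Mer).injective (by rw [h, map_zero]))
      have h3 : -1 + w * algebraMap ℂ Mer (a i) =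
          algebraMap ℂ Mer (a i) * (w - algebraMap ℂ Mer (a i)⁻¹) := by
        rw [map_inv₀, mul_sub, mul_inv_cancel₀ hA]
        ring
      rw [h3, ord_mul, ord_const z hai, zero_add] at hord
      rcases le_or_gt 0 (ord z w) with h4 | h4
      · rw [min_eq_left h4, zero_add] at hord
        exact h1 i hai z hord
      · rw [min_eq_right h4.le, ord_sub_const_of_neg h4] at hord
        have hne : ord z w ≠ ⊤ := by
          intro h5
          rw [h5] at h4
          exact absurd h4 (not_lt.mpr le_top)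
        obtain ⟨m, hm⟩ := WithTop.ne_top_iff_exists.mp hne
        rw [← hm] at hord
        have h5 : ((m : ℤ) : WithTop ℤ) = ((m + 1 : ℤ) : WithTop ℤ) := by
          push_cast
          exact hord
        have h6 : m = m + 1 := WithTop.coe_injective h5
        omega)
  have h3 := bf_bez_mul r (fun j => dd (r j)) (1 : Mer) 0
  have h4 : bf (bez r fun j => dd (r j)) (1 : Mer) 0 = (bez r fun j => dd (r j)).det := by
    rw [Matrix.det_fin_one]
    unfold bf
    simp
  rw [h4, key] at h3
  apply hw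
  have h5 : r 0 = -1 := by simp [hr]
  have h6 : r 1 = w := by simp [hr]
  have h7 : dd (-1 : Mer) = 0 := by
    rw [map_neg, Derivation.map_one_eq_zero, neg_zero]
  have h8 : ∀ (t : Fin (1 + 1) → Mer) (b : Mer), ev t b = t 0 + t 1 * b := by
    intro t b
    unfold ev
    rw [Fin.sum_univ_two]
    simp
  rw [h8, h8, h8, h8, h5, h6, h7] at h3
  linear_combination (-1 : Mer) * h3

theorem dvd_of_nsmul_eq {k : ℕ} (hk : k ≠ 0) {x : WithTop ℤ} {m : ℤ}
    (h : k • x = (m : WithTop ℤ)) : (k : ℤ) ∣ m := by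
  rcases eq_or_ne x ⊤ with rfl | hx
  · exfalso
    obtain ⟨j, rfl⟩ := Nat.exists_eq_succ_of_ne_zero hk
    rw [succ_nsmul, add_top] at h
    exact WithTop.top_ne_coe h
  · obtain ⟨y, rfl⟩ := WithTop.ne_top_iff_exists.mp hx
    have h1 : ((k • y : ℤ) : WithTop ℤ) = (m : WithTop ℤ) := by
      rw [← h]
      exact WithTop.coe_nsmul y k
    have h2 : k • y = m := WithTop.coe_injective h1
    exact ⟨y, by rw [← h2, nsmul_eq_mul]⟩

theorem nsmul_ne_one {k : ℕ} (hk : 2 ≤ k) (x : WithTop ℤ) : k • x ≠ 1 := by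
  intro h
  have h1 := dvd_of_nsmul_eq (m := 1) (by omega) h
  have h2 := Int.le_of_dvd one_pos h1
  omega

theorem ord_nonneg_of_pos {u : Mer} {c : ℂ} {z : ℂ} (h : 0 < ord z (u - algebraMap ℂ Mer c)) :
    0 ≤ ord z u := by
  have h1 := ord_add z (u - algebraMap ℂ Mer c) (algebraMap ℂ Mer c)
  rw [sub_add_cancel] at h1
  exact (le_min h.le (ord_const_nonneg z c)).trans h1

theorem ord_aeval_nonneg {u : Mer} {z : ℂ} (h : 0 ≤ ord z u) (q : Polynomial ℂ) :
    0 ≤ ord z (Polynomial.aeval u q) := by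
  induction q using Polynomial.induction_on' with
  | add p q hp hq =>
    rw [map_add]
    exact (le_min hp hq).trans (ord_add z _ _)
  | monomial k a =>
    rw [Polynomial.aeval_monomial, ord_mul, ord_pow]
    exact add_nonneg (ord_const_nonneg z a) (nsmul_nonneg h k)

theorem ord_aeval_eq_zero {u : Mer} {c : ℂ} {z : ℂ}
    (h : 0 < ord z (u - algebraMap ℂ Mer c)) {g : Polynomial ℂ} (hg : g.eval c ≠ 0) :
    ord z (Polynomial.aeval u g) = 0 := by
  obtain ⟨q, hq⟩ : Polynomial.X - Polynomial.C c ∣ g - Polynomial.C (g.eval c) := by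
    rw [Polynomial.dvd_iff_isRoot, Polynomial.IsRoot.def]
    simp
  have h1 : Polynomial.aeval u g = algebraMap ℂ Mer (g.eval c) +
      (u - algebraMap ℂ Mer c) * Polynomial.aeval u q := by
    have h2 : g = Polynomial.C (g.eval c) + (Polynomial.X - Polynomial.C c) * q := by
      rw [← hq]
      ring
    conv_lhs => rw [h2]
    rw [map_add, map_mul, map_sub, Polynomial.aeval_X, Polynomial.aeval_C, Polynomial.aeval_C]
  rw [h1]
  have h2 : ord z (algebraMap ℂ Mer (g.eval c)) = 0 := ord_const z hg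
  rw [ord_add_eq_left, h2]
  rw [h2, ord_mul]
  exact add_pos_of_pos_of_nonneg h (ord_aeval_nonneg (ord_nonneg_of_pos h) q)

theorem ord_aeval_eq_one {u : Mer} {G : Polynomial ℂ} {c : ℂ} (h0 : G.eval c = 0)
    (h1 : G.derivative.eval c ≠ 0) {z : ℂ} (hord : ord z (u - algebraMap ℂ Mer c) = 1) :
    ord z (Polynomial.aeval u G) = 1 := by
  obtain ⟨g, hg⟩ : Polynomial.X - Polynomial.C c ∣ G := by
    rw [Polynomial.dvd_iff_isRoot, Polynomial.IsRoot.def]
    exact h0
  have h2 : g.eval c ≠ 0 := by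
    rw [hg, Polynomial.derivative_mul] at h1
    simpa using h1
  have hpos : 0 < ord z (u - algebraMap ℂ Mer c) := by
    rw [hord]
    exact one_pos
  rw [hg, map_mul, ord_mul, map_sub, Polynomial.aeval_X, Polynomial.aeval_C, hord,
    ord_aeval_eq_zero hpos h2, add_zero]

/-- A simple root of `G` is a totally ramified value if `G (u)` is a perfect power. -/
theorem ram {u v : Mer} {G : Polynomial ℂ} {c : ℂ} {k : ℕ} (hk : 2 ≤ k) (h0 : G.eval c = 0)
    (h1 : G.derivative.eval c ≠ 0) (h : Polynomial.aeval u G = v ^ k) (z : ℂ) :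
    ord z (u - algebraMap ℂ Mer c) ≠ 1 := by
  intro hord
  have h3 := ord_aeval_eq_one h0 h1 hord
  rw [h, ord_pow] at h3
  exact nsmul_ne_one hk _ h3

/-- Distinct roots. -/
theorem exists_roots {N : ℕ} (hN : N ≠ 0) {b : ℂ} (hb : b ≠ 0) :
    ∃ c : Fin N → ℂ, Function.Injective c ∧ ∀ i, c i ^ N = b := by
  obtain ⟨r, hr⟩ := IsAlgClosed.exists_pow_nat_eq b (Nat.pos_of_ne_zero hN)
  have hr0 : r ≠ 0 := by
    rintro rfl
    rw [zero_pow hN] at hr
    exact hb hr.symm
  have hprim := Complex.isPrimitiveRoot_exp N hN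
  set ζ := Complex.exp (2 * Real.pi * Complex.I / N) with hζ
  refine ⟨fun i => r * ζ ^ (i : ℕ), ?_, fun i => ?_⟩
  · intro i j hij
    have h1 : ζ ^ (i : ℕ) = ζ ^ (j : ℕ) := mul_left_cancel₀ hr0 hij
    exact Fin.ext (hprim.pow_inj i.2 j.2 h1)
  · change (r * ζ ^ (i : ℕ)) ^ N = b
    rw [mul_pow, hr, ← pow_mul, mul_comm (i : ℕ) N, pow_mul, hprim.pow_eq_one, one_pow, mul_one]

/-- `v ^ k = u ^ N + b` with `5 ≤ N`. -/
theorem const_of_pow {u v : Mer} {N k : ℕ} (hN : 5 ≤ N) (hk : 2 ≤ k) {b : ℂ} (hb : b ≠ 0)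
    (h : v ^ k = u ^ N + algebraMap ℂ Mer b) : dd u = 0 := by
  obtain ⟨c, hc, hcN⟩ := exists_roots (N := N) (by omega) (neg_ne_zero.mpr hb)
  have hc0 : ∀ i, c i ≠ 0 := by
    intro i h0
    have h1 := hcN i
    rw [h0, zero_pow (by omega)] at h1
    exact neg_ne_zero.mpr hb h1.symm
  have hcinv : ∀ i : Fin 5, ((c (Fin.castLE hN i))⁻¹)⁻¹ = c (Fin.castLE hN i) := fun i => inv_inv _
  refine dd_eq_zero_of_five (a := fun i => (c (Fin.castLE hN i))⁻¹) ?_ ?_ ?_
  · intro i j hij
    exact Fin.castLE_injective hN (hc (inv_injective hij))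
  · intro i _ z
    rw [hcinv]
    refine ram (v := v) (G := Polynomial.X ^ N + Polynomial.C b) hk ?_ ?_ ?_ z
    · simp [hcN]
    · have h2 : (N : ℂ) ≠ 0 := by
        have : N ≠ 0 := by omega
        exact_mod_cast this
      simp [Polynomial.derivative_X_pow, h2, hc0]
    · rw [map_add, map_pow, Polynomial.aeval_X, Polynomial.aeval_C, h]
  · intro i hi
    exact absurd hi (inv_ne_zero (hc0 _))

/-- `v ^ 3 = u ^ 4 + b`. -/
theorem const_of_picard {u v : Mer} {b : ℂ} (hb : b ≠ 0)
    (h : v ^ 3 = u ^ 4 + algebraMap ℂ Mer b) : dd u = 0 := by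
  obtain ⟨c, hc, hcN⟩ := exists_roots (N := 4) (by omega) (neg_ne_zero.mpr hb)
  have hc0 : ∀ i, c i ≠ 0 := by
    intro i h0
    have h1 := hcN i
    rw [h0, zero_pow (by omega)] at h1
    exact neg_ne_zero.mpr hb h1.symm
  refine dd_eq_zero_of_five (a := Fin.cons 0 fun i => (c i)⁻¹) ?_ ?_ ?_
  · rw [Fin.cons_injective_iff]
    refine ⟨?_, fun i j hij => hc (inv_injective hij)⟩
    rintro ⟨i, hi⟩
    exact inv_ne_zero (hc0 i) hi
  · intro i hi z
    refine Fin.cases (fun h => absurd rfl h) (fun j _ => ?_) i hi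
    rw [Fin.cons_succ, inv_inv]
    refine ram (v := v) (G := Polynomial.X ^ 4 + Polynomial.C b) (k := 3) (by omega) ?_ ?_ ?_ z
    · simp [hcN]
    · simp [hc0]
      norm_num
    · rw [map_add, map_pow, Polynomial.aeval_X, Polynomial.aeval_C, h]
  · intro i _ z hz
    have h1 : ord z (u ^ 4 + algebraMap ℂ Mer b) = ((-4 : ℤ) : WithTop ℤ) := by
      have h2 : ord z (u ^ 4) = ((-4 : ℤ) : WithTop ℤ) := by
        rw [ord_pow, hz]
        rfl
      rw [ord_add_eq_left, h2]
      rw [h2]
      refine lt_of_lt_of_le ?_ (ord_const_nonneg z b)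
      exact WithTop.coe_lt_coe.mpr (by norm_num : (-4 : ℤ) < 0)
    rw [← h, ord_pow] at h1
    have h2 := dvd_of_nsmul_eq (by omega) h1
    omega

/-- `v ^ 2 = u ^ 4 + 1` and `v` is a perfect power. -/
theorem const_of_quartic {u v x : Mer} {k : ℕ} (hk : 2 ≤ k) (h1 : v ^ 2 = u ^ 4 + 1)
    (h2 : v = x ^ k) : dd v = 0 := by
  set τ := v + u ^ 2 with hτ
  have hτ1 : τ * (v - u ^ 2) = 1 := by
    rw [hτ]
    linear_combination h1
  have hτ0 : τ ≠ 0 := left_ne_zero_of_mul_eq_one hτ1
  have hm : τ ^ 2 - 1 = algebraMap ℂ Mer 2 * (τ * u ^ 2) := by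
    rw [map_ofNat]
    linear_combination hτ1
  have hp : τ ^ 2 + 1 = algebraMap ℂ Mer 2 * (τ * x ^ k) := by
    rw [map_ofNat, ← h2]
    linear_combination (-1 : Mer) * hτ1
  obtain ⟨c, hc, hc4⟩ := exists_roots (N := 4) (by omega) (one_ne_zero (α := ℂ))
  have hc0 : ∀ i, c i ≠ 0 := by
    intro i h0
    have h1 := hc4 i
    rw [h0, zero_pow (by omega)] at h1
    exact zero_ne_one h1
  have key : dd τ = 0 := by
    refine dd_eq_zero_of_five (a := Fin.cons 0 fun i => (c i)⁻¹) ?_ ?_ ?_
    · rw [Fin.cons_injective_iff]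
      refine ⟨?_, fun i j hij => hc (inv_injective hij)⟩
      rintro ⟨i, hi⟩
      exact inv_ne_zero (hc0 i) hi
    · intro i hi z
      refine Fin.cases (fun h => absurd rfl h) (fun j _ => ?_) i hi
      rw [Fin.cons_succ, inv_inv]
      intro hord
      have hpos : 0 < ord z (τ - algebraMap ℂ Mer (c j)) := by
        rw [hord]
        exact one_pos
      have hτz : ord z τ = 0 := by
        have h3 := ord_aeval_eq_zero hpos (g := Polynomial.X) (by simpa using hc0 j)
        rwa [Polynomial.aeval_X] at h3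
      have h4 : (c j ^ 2 - 1) * (c j ^ 2 + 1) = 0 := by
        have := hc4 j
        linear_combination this
      rcases mul_eq_zero.mp h4 with h5 | h5
      · have h6 := ord_aeval_eq_one (u := τ) (G := Polynomial.X ^ 2 - 1) (c := c j) (by
          simpa using h5) (by simp [hc0]) hord
        rw [map_sub, map_pow, Polynomial.aeval_X, map_one, hm, ord_mul, ord_mul, hτz,
          ord_const z two_ne_zero, zero_add, zero_add, ord_pow] at h6
        exact nsmul_ne_one le_rfl _ h6
      · have h6 := ord_aeval_eq_one (u := τ) (G := Polynomial.X ^ 2 + 1) (c := c j) (by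
          simpa using h5) (by simp [hc0]) hord
        rw [map_add, map_pow, Polynomial.aeval_X, map_one, hp, ord_mul, ord_mul, hτz,
          ord_const z two_ne_zero, zero_add, zero_add, ord_pow] at h6
        exact nsmul_ne_one hk _ h6
    · intro i _ z hz
      have h3 : ord z (τ ^ 2 - 1) = ((-2 : ℤ) : WithTop ℤ) := by
        have h4 : ord z (τ ^ 2) = ((-2 : ℤ) : WithTop ℤ) := by
          rw [ord_pow, hz]
          rfl
        have h5 := ord_sub_const_of_neg (z := z) (x := τ ^ 2) (by
          rw [h4]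
          exact WithTop.coe_lt_coe.mpr (by norm_num : (-2 : ℤ) < 0)) 1
        rw [map_one] at h5
        rw [h5, h4]
      rw [hm, ord_mul, ord_mul, hz, ord_const z two_ne_zero, zero_add, ord_pow] at h3
      have h4 : 2 • ord z u = ((-1 : ℤ) : WithTop ℤ) := by
        rcases eq_or_ne (2 • ord z u) ⊤ with h5 | h5
        · rw [h5, add_top] at h3
          exact absurd h3 WithTop.top_ne_coe
        · obtain ⟨y, hy⟩ := WithTop.ne_top_iff_exists.mp h5
          rw [← hy] at h3 ⊢
          have h6 : ((-1 + y : ℤ) : WithTop ℤ) = ((-2 : ℤ) : WithTop ℤ) := by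
            rw [← h3]
            rfl
          have h7 := WithTop.coe_injective h6
          have h8 : y = -1 := by omega
          rw [h8]
      have h5 := dvd_of_nsmul_eq (by omega) h4
      omega
  obtain ⟨b, hb⟩ := exists_const_of_dd key
  have h3 : v = algebraMap ℂ Mer ((b + b⁻¹) / 2) := by
    have hb0 : b ≠ 0 := by
      rintro rfl
      rw [map_zero] at hb
      exact hτ0 hb
    have h4 : v - u ^ 2 = algebraMap ℂ Mer b⁻¹ := by
      rw [map_inv₀, ← hb]
      exact eq_inv_of_mul_eq_one_right hτ1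
    have h5 : (2 : Mer) ≠ 0 := by
      have h6 : (2 : Mer) = algebraMap ℂ Mer 2 := (map_ofNat _ 2).symm
      rw [h6]
      exact fun h => two_ne_zero ((algebraMap ℂ Mer).injective (by rw [h, map_zero]))
    rw [map_div₀, map_add, ← h4, ← hb, hτ, map_ofNat, eq_div_iff h5]
    ring
  rw [h3]
  exact dd_const _

/-- Four perfect powers `v - b`. -/
theorem const_of_four {v : Mer} {b : Fin 4 → ℂ} (hb : Function.Injective b) (hb0 : ∀ i, b i ≠ 0)
    {k : Fin 4 → ℕ} (hk : ∀ i, 2 ≤ k i) {x : Fin 4 → Mer}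
    (h : ∀ i, v - algebraMap ℂ Mer (b i) = x i ^ k i) : dd v = 0 := by
  refine dd_eq_zero_of_five (a := Fin.cons 0 fun i => (b i)⁻¹) ?_ ?_ ?_
  · rw [Fin.cons_injective_iff]
    refine ⟨?_, fun i j hij => hb (inv_injective hij)⟩
    rintro ⟨i, hi⟩
    exact inv_ne_zero (hb0 i) hi
  · intro i hi z
    refine Fin.cases (fun h => absurd rfl h) (fun j _ => ?_) i hi
    rw [Fin.cons_succ, inv_inv, h j, ord_pow]
    exact nsmul_ne_one (hk j) _
  · intro i _ z hz
    have h1 := ord_sub_const_of_neg (z := z) (x := v) (by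
      rw [hz]
      exact WithTop.coe_lt_coe.mpr (by norm_num : (-1 : ℤ) < 0)) (b 0)
    rw [h 0, ord_pow, hz] at h1
    have h2 := dvd_of_nsmul_eq (m := -1) (by have := hk 0; omega) h1
    have h3 := hk 0
    have h4 := Int.natAbs_dvd_natAbs.mpr h2
    simp only [Int.natAbs_natCast] at h4
    have h5 := Nat.le_of_dvd (by norm_num) h4
    simp at h5
    omega

end Pool.Agent.H89.Ci
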