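import Pool.Agent.Lib.H89.Ci.FTwo
import Pool.Agent.Lib.H89.Ci.Count

set_option autoImplicit false

/-!
Curves satisfying the generic equations are constant.
-/

open Matrix Finset Filter Topology
open MvPolynomial (X C aeval eval)

namespace Pool.Agent.H89.Ci

theorem exists_basis {M : Type} [Field M] [Algebra ℂ M] {n : ℕ} (w : Fin n → M) :
    ∃ (s : ℕ) (b : Fin s → Fin n) (C : Fin n → Fin s → ℂ), Function.Injective b ∧
      LI (fun i => w (b i)) ∧ ∀ k, w k = ∑ i, algebraMap ℂ M (C k i) * w (b i) := by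
  classical
  obtain ⟨κ, a, ha, hsp, hli⟩ := exists_linearIndependent' (K := ℂ) w
  have : Finite κ := Finite.of_injective a ha
  obtain ⟨s, ⟨e⟩⟩ := Finite.exists_equiv_fin κ
  have hli' : LI (fun i => w (a (e.symm i))) := by
    rw [li_iff]
    exact hli.comp e.symm e.symm.injective
  have h1 : ∀ k, ∃ c : Fin s → ℂ, ∑ i, c i • w (a (e.symm i)) = w k := by
    intro k
    have h2 : w k ∈ Submodule.span ℂ (Set.range (w ∘ a)) := by
      rw [hsp]
      exact Submodule.subset_span ⟨k, rfl⟩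
    have h3 : Set.range (w ∘ a) = Set.range fun i => w (a (e.symm i)) := by
      ext x
      constructor
      · rintro ⟨i, rfl⟩
        exact ⟨e i, by simp⟩
      · rintro ⟨i, rfl⟩
        exact ⟨e.symm i, rfl⟩
    rw [h3] at h2
    exact (Submodule.mem_span_range_iff_exists_fun ℂ).mp h2
  choose C hC using h1
  refine ⟨s, fun i => a (e.symm i), C, ha.comp e.symm.injective, hli', fun k => ?_⟩
  rw [← hC k]
  exact Finset.sum_congr rfl fun i _ => Algebra.smul_def _ _

theorem li_coeff {M : Type} [Field M] [Algebra ℂ M] {s : ℕ} {y : Fin s → M} (hy : LI y)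
    {c : Fin s → ℂ} {i : Fin s} (h : y i = ∑ i', algebraMap ℂ M (c i') * y i') (i' : Fin s) :
    c i' = if i = i' then 1 else 0 := by
  have h1 := hy (fun i' => c i' - if i = i' then 1 else 0) (by
    simp only [map_sub, sub_mul, Finset.sum_sub_distrib]
    rw [← h, Finset.sum_eq_single i]
    · rw [if_pos rfl, map_one, one_mul, sub_self]
    · intro i' _ hi'
      rw [if_neg (Ne.symm hi'), map_zero, zero_mul]
    · intro h
      exact absurd (mem_univ _) h) i'
  exact sub_eq_zero.mp h1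

/-- Values of polynomials in meromorphic functions. -/
theorem rep_aeval {m : ℕ} (w : Fin m → Mer) (Q : MvPolynomial (Fin m) ℂ) (z₀ : ℂ) :
    ∀ᶠ z in 𝓝[≠] z₀, rep (aeval w Q) z = eval (fun i => rep (w i) z) Q := by
  induction Q using MvPolynomial.induction_on with
  | C a =>
    filter_upwards [rep_const a z₀] with z h1
    rw [MvPolynomial.aeval_C, h1, MvPolynomial.eval_C]
  | add p q hp hq =>
    filter_upwards [hp, hq, rep_add (aeval w p) (aeval w q) z₀] with z h1 h2 h3
    rw [map_add, h3, h1, h2, map_add]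
  | mul_X p i hp =>
    filter_upwards [hp, rep_mul (aeval w p) (w i) z₀] with z h1 h3
    rw [map_mul, MvPolynomial.aeval_X, h3, h1, map_mul, MvPolynomial.eval_X]

/-- The generic quadratic forms. -/
noncomputable def quadP {n : ℕ} (P : PI n → ℂ) (j : Fin n) : MvPolynomial (Fin (n + 1)) ℂ :=
  ∑ q : Fin (n + 1) × Fin (n + 1), C (P (Sum.inl (j, q))) * (X q.1 * X q.2)

/-- The generic linear forms. -/
noncomputable def linP {n : ℕ} (P : PI n → ℂ) (j : Fin n) : MvPolynomial (Fin (n + 1)) ℂ :=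
  ∑ x : Fin (n + 1), C (P (Sum.inr (j, x))) * X x

theorem eval_quadP {n : ℕ} (P : PI n → ℂ) (j : Fin n) (x : Fin (n + 1) → ℂ) :
    eval x (quadP P j) = ∑ q : Fin (n + 1) × Fin (n + 1), P (Sum.inl (j, q)) *
      (x q.1 * x q.2) := by
  unfold quadP
  simp only [map_sum, map_mul, MvPolynomial.eval_C, MvPolynomial.eval_X]

theorem eval_linP {n : ℕ} (P : PI n → ℂ) (j : Fin n) (x : Fin (n + 1) → ℂ) :
    eval x (linP P j) = ∑ k : Fin (n + 1), P (Sum.inr (j, k)) * x k := by
  unfold linP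
  simp only [map_sum, map_mul, MvPolynomial.eval_C, MvPolynomial.eval_X]

theorem hom_quadP {n : ℕ} (P : PI n → ℂ) (j : Fin n) : (quadP P j).IsHomogeneous 2 := by
  unfold quadP
  refine MvPolynomial.IsHomogeneous.sum _ _ _ fun q _ => ?_
  have h1 := (MvPolynomial.isHomogeneous_C (Fin (n + 1)) (P (Sum.inl (j, q)))).mul
    ((MvPolynomial.isHomogeneous_X ℂ q.1).mul (MvPolynomial.isHomogeneous_X ℂ q.2))
  simpa using h1

theorem hom_linP {n : ℕ} (P : PI n → ℂ) (j : Fin n) : (linP P j).IsHomogeneous 1 := by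
  unfold linP
  refine MvPolynomial.IsHomogeneous.sum _ _ _ fun q _ => ?_
  have h1 := (MvPolynomial.isHomogeneous_C (Fin (n + 1)) (P (Sum.inr (j, q)))).mul
    (MvPolynomial.isHomogeneous_X ℂ q)
  simpa using h1

theorem lemmaF {n : ℕ} {P : PI n → ℂ} (hP : AlgebraicIndependent ℚ P) {B : Finset (Fin n)}
    (hBc : B.card ≤ 1) {w : Fin (n + 1) → Mer}
    (hA : ∀ j, j ∉ B → w j.castSucc ≠ 0 → ∃ κ : ℂ, aeval w (quadP P j) =
      algebraMap ℂ Mer κ * w j.castSucc ^ 2)
    (hB : ∀ j ∈ B, w j.castSucc ≠ 0 → ∃ κ : ℂ, aeval w (linP P j) =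
      algebraMap ℂ Mer κ * w j.castSucc ^ 1) :
    ∃ (t : Mer) (a : Fin (n + 1) → ℂ), ∀ k, w k = algebraMap ℂ Mer (a k) * t := by
  classical
  obtain ⟨s, bb, C, hbb, hLI, hC⟩ := exists_basis w
  rcases s with _ | _ | s
  · refine ⟨0, 0, fun k => ?_⟩
    rw [hC k, mul_zero]
    simp
  · refine ⟨w (bb 0), fun k => C k 0, fun k => ?_⟩
    conv_lhs => rw [hC k]
    rw [Fin.sum_univ_one]
  exfalso
  set y : Fin (s + 2) → Mer := fun i => w (bb i) with hy
  have hy1 : y 1 ≠ 0 := (li_iff.mp hLI).ne_zero 1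
  have h01 : (0 : Fin (s + 2)) ≠ 1 := by
    intro h
    have := congrArg Fin.val h
    simp at this
  have hCb : ∀ i i', C (bb i) i' = if i = i' then 1 else 0 := fun i i' =>
    li_coeff hLI (hC (bb i)) i'
  set Z : Finset (Fin (n + 1)) := univ.filter fun k => w k ≠ 0 with hZ
  have hCZ : ∀ k, k ∉ Z → ∀ i, C k i = 0 := by
    intro k hk i
    rw [hZ, mem_filter, not_and, not_not] at hk
    refine hLI (C k) ?_ i
    rw [← hC k]
    exact hk (mem_univ _)
  obtain ⟨i₁, hg⟩ := exists_hopf hLI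
  set g : Fin (s + 3) → Mer := Fin.snoc (fun i => y 0 * y i) (y 1 * y i₁) with hgdef
  have hg1 : ∀ i : Fin (s + 2), g i.castSucc = y 0 * y i := fun i => by
    rw [hgdef, Fin.snoc_castSucc]
  have hg2 : g (Fin.last (s + 2)) = y 1 * y i₁ := by
    rw [hgdef, Fin.snoc_last]
  set ρ : Mer := y 0 / y 1 with hρdef
  have hρy : ρ * y 1 = y 0 := div_mul_cancel₀ _ hy1
  have hρ : dd ρ ≠ 0 := by
    intro h
    obtain ⟨c, hc⟩ := exists_const_of_dd h
    have h1 : y 0 = algebraMap ℂ Mer c * y 1 := by rw [← hc, hρy]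
    have h3 := hLI (fun i => if i = 0 then 1 else if i = 1 then -c else 0) (by
      have e1 : (if (Fin.succ (0 : Fin (s + 1))) = 1 then (-c : ℂ) else 0) = -c := if_pos rfl
      rw [Fin.sum_univ_succ, Fin.sum_univ_succ, Finset.sum_eq_zero (fun i _ => ?_)]
      · rw [if_pos rfl, if_neg (by simp), e1]
        change algebraMap ℂ Mer 1 * y 0 + (algebraMap ℂ Mer (-c) * y 1 + 0) = 0
        rw [h1]
        simp
      · rw [if_neg (by simp), if_neg (by simp [Fin.ext_iff]), map_zero, zero_mul]) 0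
    rw [if_pos rfl] at h3
    exact one_ne_zero h3
  have hκ : ∀ j : Fin n, ∃ κ : ℂ, w j.castSucc ≠ 0 →
      (j ∉ B → aeval w (quadP P j) = algebraMap ℂ Mer κ * w j.castSucc ^ 2) ∧
      (j ∈ B → aeval w (linP P j) = algebraMap ℂ Mer κ * w j.castSucc ^ 1) := by
    intro j
    by_cases hw : w j.castSucc = 0
    · exact ⟨0, fun h => absurd hw h⟩
    by_cases hj : j ∈ B
    · obtain ⟨κ, hκ⟩ := hB j hj hw
      exact ⟨κ, fun _ => ⟨fun h => absurd hj h, fun _ => hκ⟩⟩
    · obtain ⟨κ, hκ⟩ := hA j hj hw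
      exact ⟨κ, fun _ => ⟨fun _ => hκ, fun h => absurd h hj⟩⟩
  choose κ hκ using hκ
  set A' : Finset (Fin n) := univ.filter fun j => j ∉ B ∧ w j.castSucc ≠ 0 with hA'
  set B' : Finset (Fin n) := univ.filter fun j => j ∈ B ∧ w j.castSucc ≠ 0 with hB'
  have hB'c : B'.card ≤ 1 := by
    refine (Finset.card_le_card fun j hj => ?_).trans hBc
    rw [hB', mem_filter] at hj
    exact hj.2.1
  have hZc : Z.card ≤ A'.card + B'.card + 1 := by
    have h1 : Z ⊆ insert (Fin.last n) ((A' ∪ B').image Fin.castSucc) := by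
      intro k hk
      rw [hZ, mem_filter] at hk
      revert hk
      refine Fin.lastCases ?_ (fun j => ?_) k
      · intro _
        exact mem_insert_self _ _
      · intro hj
        refine mem_insert_of_mem (mem_image_of_mem _ ?_)
        by_cases hjB : j ∈ B
        · refine mem_union_right _ ?_
          rw [hB', mem_filter]
          exact ⟨mem_univ _, hjB, hj.2⟩
        · refine mem_union_left _ ?_
          rw [hA', mem_filter]
          exact ⟨mem_univ _, hjB, hj.2⟩
    refine (Finset.card_le_card h1).trans ((Finset.card_insert_le _ _).trans ?_)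
    exact Nat.add_le_add_right (Finset.card_image_le.trans (Finset.card_union_le _ _)) 1
  -- the good points
  have hcomb : ∀ k, ∀ᶠ z in 𝓝[≠] (0 : ℂ), rep (w k) z = ∑ i, C k i * rep (y i) z := by
    intro k
    have h1 := rep_comb y (C k) 0
    rw [← hC k] at h1
    exact h1
  have hgr : ∀ i : Fin (s + 2), ∀ᶠ z in 𝓝[≠] (0 : ℂ), rep (g i.castSucc) z =
      rep (y 0) z * rep (y i) z := by
    intro i
    rw [hg1]
    exact rep_mul _ _ _
  have hgr2 : ∀ᶠ z in 𝓝[≠] (0 : ℂ), rep (g (Fin.last (s + 2))) z =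
      rep (y 1) z * rep (y i₁) z := by
    rw [hg2]
    exact rep_mul _ _ _
  have hρr : ∀ᶠ z in 𝓝[≠] (0 : ℂ), rep ρ z * rep (y 1) z = rep (y 0) z := by
    have h1 := rep_mul ρ (y 1) 0
    rw [hρy] at h1
    filter_upwards [h1] with z hz
    exact hz.symm
  have hAr : ∀ j : Fin n, ∀ᶠ z in 𝓝[≠] (0 : ℂ), j ∈ A' →
      eval (fun k => rep (w k) z) (quadP P j) = κ j * rep (w j.castSucc) z ^ 2 := by
    intro j
    by_cases hj : j ∈ A'
    · have hj' := hj
      rw [hA', mem_filter] at hj'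
      have h1 := (hκ j hj'.2.2).1 hj'.2.1
      filter_upwards [rep_aeval w (quadP P j) 0, rep_mul (algebraMap ℂ Mer (κ j))
        (w j.castSucc ^ 2) 0, rep_const (κ j) 0, rep_pow (w j.castSucc) 2 0]
        with z h2 h3 h4 h5 _
      rw [← h2, h1, h3, h4, h5]
    · exact Eventually.of_forall fun z h => absurd h hj
  have hBr : ∀ j : Fin n, ∀ᶠ z in 𝓝[≠] (0 : ℂ), j ∈ B' →
      eval (fun k => rep (w k) z) (linP P j) = κ j * rep (w j.castSucc) z := by
    intro j
    by_cases hj : j ∈ B'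
    · have hj' := hj
      rw [hB', mem_filter] at hj'
      have h1 := (hκ j hj'.2.2).2 hj'.2.1
      rw [pow_one] at h1
      filter_upwards [rep_aeval w (linP P j) 0, rep_mul (algebraMap ℂ Mer (κ j))
        (w j.castSucc) 0, rep_const (κ j) 0] with z h2 h3 h4 _
      rw [← h2, h1, h3, h4]
    · exact Eventually.of_forall fun z h => absurd h hj
  obtain ⟨z, hz1, hz2, hz3⟩ := exists_points hρ ((rep_ne hy1 0).and ((eventually_all.mpr
    hcomb).and ((eventually_all.mpr hgr).and (hgr2.and (hρr.and ((eventually_all.mpr hAr).and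
    (eventually_all.mpr hBr))))))) hg (s + 3) le_rfl
  set Y : Fin (s + 3) → Fin (s + 2) → ℂ := fun t i => rep (y i) (z t) / rep (y 1) (z t) with hY
  have hW : ∀ t k, ∑ i, C k i * Y t i = rep (w k) (z t) / rep (y 1) (z t) := by
    intro t k
    rw [(hz1 t).2.1 k, Finset.sum_div]
    exact Finset.sum_congr rfl fun i _ => (mul_div_assoc _ _ _).symm
  refine count hP hbb hCb hCZ (i₁ := i₁) (Y := Y) ?_ ?_ ?_ (A := A') (B := B') (κ := κ) ?_ ?_
    hZc hB'c
  · intro t
    have h1 := (hz1 t).2.2.2.2.1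
    have h2 : Y t 0 = rep ρ (z t) := by
      rw [hY]
      change rep (y 0) (z t) / rep (y 1) (z t) = _
      rw [← h1, mul_div_cancel_right₀ _ (hz1 t).1]
    rw [h2]
    exact hz2 t
  · intro t
    exact div_self (hz1 t).1
  · have h1 : (Matrix.of fun t => (Fin.snoc (fun i => Y t 0 * Y t i) (Y t 1 * Y t i₁) :
        Fin (s + 3) → ℂ)) = Matrix.diagonal (fun t => (rep (y 1) (z t) ^ 2)⁻¹) *
        Matrix.of fun t μ => rep (g μ) (z t) := by
      ext t μ
      rw [Matrix.diagonal_mul]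
      refine Fin.lastCases ?_ (fun i => ?_) μ
      · rw [Matrix.of_apply, Matrix.of_apply, Fin.snoc_last, (hz1 t).2.2.2.1]
        simp only [hY]
        have := (hz1 t).1
        field_simp
      · rw [Matrix.of_apply, Matrix.of_apply, Fin.snoc_castSucc, (hz1 t).2.2.1 i]
        simp only [hY]
        have := (hz1 t).1
        field_simp
    rw [h1, Matrix.det_mul, Matrix.det_diagonal]
    refine mul_ne_zero (Finset.prod_ne_zero_iff.mpr fun t _ => inv_ne_zero (pow_ne_zero _
      (hz1 t).1)) ?_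
    have h2 : IsUnit (Matrix.of fun t μ => rep (g μ) (z t) :
      Matrix (Fin (s + 3)) (Fin (s + 3)) ℂ) := Matrix.linearIndependent_rows_iff_isUnit.mp hz3
    exact ((Matrix.isUnit_iff_isUnit_det _).mp h2).ne_zero
  · intro j hj t
    have h1 := (hz1 t).2.2.2.2.2.1 j hj
    rw [eval_quadP] at h1
    simp only [hW]
    have h2 := (hz1 t).1
    rw [div_pow, ← mul_div_assoc, ← h1, Finset.sum_div]
    refine Finset.sum_congr rfl fun q _ => ?_
    field_simp
  · intro j hj t
    have h1 := (hz1 t).2.2.2.2.2.2 j hj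
    rw [eval_linP] at h1
    simp only [hW]
    rw [← mul_div_assoc, ← h1, Finset.sum_div]
    exact Finset.sum_congr rfl fun q _ => (mul_div_assoc _ _ _).symm

end Pool.Agent.H89.Ci
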