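import Pool.Agent.Lib.H89.Ci.Bez
import Pool.Agent.Lib.H89.Ci.Mero

set_option autoImplicit false

/-!
Local forms of vectors of meromorphic functions.
-/

open Filter Topology Finset Matrix

namespace Pool.Agent.H89.Ci

variable {s k : ℕ}

/-- The value at the constant `c` of the polynomial with the coefficients `g j`. -/
noncomputable def rho (g : Fin (s + 1) → ℂ → ℂ) (c : ℂ) (z : ℂ) : ℂ := ev (fun j => g j z) c

/-- The determinant of the Bezout matrix of `g` and `g'`. -/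
noncomputable def bb (g : Fin (s + 1) → ℂ → ℂ) (z : ℂ) : ℂ :=
  (bez (fun j => g j z) (fun j => deriv (g j) z)).det

theorem analyticAt_rho {g : Fin (s + 1) → ℂ → ℂ} {z₀ : ℂ} (hg : ∀ j, AnalyticAt ℂ (g j) z₀)
    (c : ℂ) : AnalyticAt ℂ (rho g c) z₀ := by
  unfold rho ev
  exact Finset.analyticAt_fun_sum _ fun j _ => (hg j).fun_mul analyticAt_const

theorem deriv_rho {g : Fin (s + 1) → ℂ → ℂ} {z₀ : ℂ} (hg : ∀ j, DifferentiableAt ℂ (g j) z₀)
    (c : ℂ) : deriv (rho g c) z₀ = ev (fun j => deriv (g j) z₀) c := by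
  unfold rho ev
  rw [deriv_fun_sum fun j _ => (hg j).mul_const _]
  refine Finset.sum_congr rfl fun j _ => ?_
  rw [deriv_mul_const (hg j)]

theorem analyticAt_det {m : ℕ} {M : ℂ → Matrix (Fin m) (Fin m) ℂ} {z₀ : ℂ}
    (h : ∀ i j, AnalyticAt ℂ (fun z => M z i j) z₀) : AnalyticAt ℂ (fun z => (M z).det) z₀ := by
  simp only [Matrix.det_apply']
  exact Finset.analyticAt_fun_sum _ fun σ _ =>
    analyticAt_const.fun_mul (Finset.analyticAt_fun_prod _ fun i _ => h _ _)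

theorem analyticAt_bb {g : Fin (s + 1) → ℂ → ℂ} {z₀ : ℂ} (hg : ∀ j, AnalyticAt ℂ (g j) z₀) :
    AnalyticAt ℂ (bb g) z₀ := by
  unfold bb
  refine analyticAt_det fun p q => ?_
  simp only [bez, Matrix.of_apply]
  exact Finset.analyticAt_fun_sum _ fun m _ => Finset.analyticAt_fun_sum _ fun l _ =>
    analyticAt_const.fun_mul ((hg m).fun_mul (hg l).deriv)

/-- The local form. -/
theorem exists_local {r : Fin (s + 1) → Mer} (hr : r ≠ 0) (z₀ : ℂ) :
    ∃ (m : ℤ) (g : Fin (s + 1) → ℂ → ℂ), (∀ j, AnalyticAt ℂ (g j) z₀) ∧ (∃ j, g j z₀ ≠ 0) ∧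
      (∀ j, ∀ᶠ z in 𝓝[≠] z₀, rep (r j) z = (z - z₀) ^ m * g j z) ∧
      (univ.inf fun j => ord z₀ (r j)) = (m : WithTop ℤ) := by
  obtain ⟨j₀, -, hj₀⟩ := Finset.exists_mem_eq_inf (univ : Finset (Fin (s + 1)))
    ⟨0, mem_univ _⟩ (fun j => ord z₀ (r j))
  have hle : ∀ j, ord z₀ (r j₀) ≤ ord z₀ (r j) := by
    intro j
    rw [← hj₀]
    exact Finset.inf_le (mem_univ j)
  have hne : ord z₀ (r j₀) ≠ ⊤ := by
    intro h
    apply hr
    ext j
    have h1 := hle j
    rw [h, top_le_iff] at h1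
    exact ord_eq_top.mp h1
  obtain ⟨m, hm⟩ := WithTop.ne_top_iff_exists.mp hne
  have hz : MeromorphicAt (fun z : ℂ => (z - z₀) ^ (-m)) z₀ := by fun_prop
  have hzo : meromorphicOrderAt (fun z : ℂ => (z - z₀) ^ (-m)) z₀ = ((-m : ℤ) : WithTop ℤ) := by
    rw [meromorphicOrderAt_eq_int_iff hz]
    refine ⟨fun _ => 1, analyticAt_const, one_ne_zero, Eventually.of_forall fun z => ?_⟩
    simp
  have hord : ∀ j, meromorphicOrderAt (fun z => (z - z₀) ^ (-m) * rep (r j) z) z₀ =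
      ((-m : ℤ) : WithTop ℤ) + ord z₀ (r j) := by
    intro j
    have h1 := meromorphicOrderAt_mul hz (rep_mer (r j) z₀)
    rw [hzo] at h1
    exact h1
  have h0 : ((-m : ℤ) : WithTop ℤ) + (m : WithTop ℤ) = 0 := by
    rw [← WithTop.coe_add, neg_add_cancel]
    rfl
  have hex : ∀ j, ∃ g : ℂ → ℂ, AnalyticAt ℂ g z₀ ∧
      (fun z => (z - z₀) ^ (-m) * rep (r j) z) =ᶠ[𝓝[≠] z₀] g := by
    intro j
    rw [← MeromorphicAt.meromorphicOrderAt_nonneg_iff (hz.fun_mul (rep_mer (r j) z₀)), hord j,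
      ← h0]
    have h1 := hle j
    rw [← hm] at h1
    exact add_le_add_right h1 _
  choose g hga hg using hex
  refine ⟨m, g, hga, ⟨j₀, fun h => ?_⟩, fun j => ?_, by rw [hj₀, hm]⟩
  · have h1 : meromorphicOrderAt (g j₀) z₀ = 0 := by
      rw [← meromorphicOrderAt_congr (hg j₀), hord j₀, ← hm, h0]
    have h2 := (tendsto_ne_zero_iff_meromorphicOrderAt_eq_zero (hga j₀).meromorphicAt).mpr h1
    obtain ⟨c, hc, hlim⟩ := h2
    have h3 : Tendsto (g j₀) (𝓝[≠] z₀) (𝓝 (g j₀ z₀)) :=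
      (hga j₀).continuousAt.tendsto.mono_left nhdsWithin_le_nhds
    exact hc ((tendsto_nhds_unique hlim h3).trans h)
  · filter_upwards [hg j, self_mem_nhdsWithin] with z hz1 hz2
    have h1 : z - z₀ ≠ 0 := sub_ne_zero.mpr hz2
    rw [← hz1, ← mul_assoc, ← zpow_add₀ h1, add_neg_cancel, zpow_zero, one_mul]

theorem rep_ev (r : Fin (s + 1) → Mer) (c : ℂ) (z₀ : ℂ) :
    rep (ev r (algebraMap ℂ Mer c)) =ᶠ[𝓝[≠] z₀] fun z => ev (fun j => rep (r j) z) c := by
  unfold ev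
  have h1 : ∀ᶠ z in 𝓝[≠] z₀, ∀ j, rep (r j * algebraMap ℂ Mer c ^ (j : ℕ)) z =
      rep (r j) z * c ^ (j : ℕ) := by
    rw [eventually_all]
    intro j
    have h2 : algebraMap ℂ Mer c ^ (j : ℕ) = algebraMap ℂ Mer (c ^ (j : ℕ)) := by rw [map_pow]
    rw [h2]
    filter_upwards [rep_mul (r j) (algebraMap ℂ Mer (c ^ (j : ℕ))) z₀, rep_const (c ^ (j : ℕ)) z₀]
      with z h3 h4
    rw [h3, h4]
  filter_upwards [rep_sum univ (fun j => r j * algebraMap ℂ Mer c ^ (j : ℕ)) z₀, h1] with z h2 h3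
  rw [h2]
  exact Finset.sum_congr rfl fun j _ => h3 j

theorem ev_smul {A : Type*} [CommRing A] {n : ℕ} (μ : A) (r : Fin n → A) (a : A) :
    ev (fun j => μ * r j) a = μ * ev r a := by
  unfold ev
  rw [Finset.mul_sum]
  exact Finset.sum_congr rfl fun j _ => by ring

/-- An analytic function which does not vanish identically near `z₀` on every punctured
neighbourhood. -/
theorem exists_factor {f : ℂ → ℂ} {z₀ : ℂ} (hf : AnalyticAt ℂ f z₀)
    (h : ∃ᶠ z in 𝓝[≠] z₀, f z ≠ 0) : ∃ (o : ℕ) (υ : ℂ → ℂ), AnalyticAt ℂ υ z₀ ∧ υ z₀ ≠ 0 ∧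
      ∀ᶠ z in 𝓝 z₀, f z = (z - z₀) ^ o * υ z := by
  have h1 := (hf.exists_eventuallyEq_pow_smul_nonzero_iff (z₀ := z₀)).mpr (by
    intro h2
    apply h
    filter_upwards [h2.filter_mono nhdsWithin_le_nhds] with z hz
    simpa using hz)
  obtain ⟨o, υ, h2, h3, h4⟩ := h1
  exact ⟨o, υ, h2, h3, by simpa only [smul_eq_mul] using h4⟩

/-- The order of a value in terms of the local form. -/
theorem ord_ev_eq {r : Fin (s + 1) → Mer} {z₀ : ℂ} {m : ℤ} {g : Fin (s + 1) → ℂ → ℂ}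
    (h : ∀ j, ∀ᶠ z in 𝓝[≠] z₀, rep (r j) z = (z - z₀) ^ m * g j z) {c : ℂ} {o : ℕ} {υ : ℂ → ℂ}
    (hυ : AnalyticAt ℂ υ z₀) (hυ0 : υ z₀ ≠ 0)
    (hf : ∀ᶠ z in 𝓝 z₀, rho g c z = (z - z₀) ^ o * υ z) :
    ord z₀ (ev r (algebraMap ℂ Mer c)) = ((m + o : ℤ) : WithTop ℤ) := by
  unfold ord
  rw [meromorphicOrderAt_eq_int_iff (rep_mer _ z₀)]
  refine ⟨υ, hυ, hυ0, ?_⟩
  filter_upwards [rep_ev r c z₀, eventually_all.mpr h, hf.filter_mono nhdsWithin_le_nhds,
    self_mem_nhdsWithin] with z h1 h2 h3 h4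
  have h5 : z - z₀ ≠ 0 := sub_ne_zero.mpr h4
  rw [h1]
  have h6 : (fun j => rep (r j) z) = fun j => (z - z₀) ^ m * g j z := funext h2
  rw [h6, ev_smul, smul_eq_mul, zpow_add₀ h5, zpow_natCast, mul_assoc]
  congr 1

/-- Nearby square roots. -/
theorem exists_sqrt {f : ℂ → ℂ} {z₀ : ℂ} (hf : AnalyticAt ℂ f z₀) (h0 : f z₀ ≠ 0) :
    ∃ h : ℂ → ℂ, AnalyticAt ℂ h z₀ ∧ ∀ z, h z ^ 2 = f z := by
  obtain ⟨c, hc⟩ := IsAlgClosed.exists_pow_nat_eq (f z₀) (n := 2) two_pos
  refine ⟨fun z => c * (f z / f z₀) ^ ((2 : ℕ) : ℂ)⁻¹, ?_, fun z => ?_⟩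
  · refine analyticAt_const.fun_mul ?_
    refine AnalyticAt.cpow (hf.fun_div analyticAt_const h0) analyticAt_const ?_
    rw [div_self h0]
    exact Complex.one_mem_slitPlane
  · rw [mul_pow, Complex.cpow_nat_inv_pow _ two_ne_zero, hc]
    field_simp

/-- Two disjoint families of indices, the first containing a given set. -/
theorem exists_two (h : 2 * s ≤ k) (I : Finset (Fin k)) (hI : I.card ≤ s) :
    ∃ α β : Fin s → Fin k, Function.Injective α ∧ Function.Injective β ∧ (∀ i j, α i ≠ β j) ∧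
      ∀ i ∈ I, ∃ j, α j = i := by
  obtain ⟨S, hIS, -, hS⟩ := Finset.exists_subsuperset_card_eq (Finset.subset_univ I) hI
    (by rw [Finset.card_univ, Fintype.card_fin]; omega)
  obtain ⟨T, hTS, hT⟩ := Finset.exists_subset_card_eq (s := univ \ S) (n := s) (by
    rw [Finset.card_sdiff_of_subset (Finset.subset_univ S), Finset.card_univ, Fintype.card_fin, hS]
    omega)
  refine ⟨S.orderEmbOfFin hS, T.orderEmbOfFin hT, (S.orderEmbOfFin hS).injective,
    (T.orderEmbOfFin hT).injective, fun i j h => ?_, fun i hi => ?_⟩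
  · have h1 := Finset.orderEmbOfFin_mem S hS i
    have h2 := hTS (Finset.orderEmbOfFin_mem T hT j)
    rw [Finset.mem_sdiff] at h2
    rw [h] at h1
    exact h2.2 h1
  · have h1 := Finset.range_orderEmbOfFin S hS
    have h2 : i ∈ Set.range (S.orderEmbOfFin hS) := by
      rw [h1]
      exact hIS hi
    exact h2

/-- A nonzero polynomial of degree at most `s` has at most `s` zeros. -/
theorem card_zeros {a : Fin k → ℂ} (ha : Function.Injective a) {g : Fin (s + 1) → ℂ}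
    (hg : g ≠ 0) : (univ.filter fun i => ev g (a i) = 0).card ≤ s := by
  by_contra hcon
  push Not at hcon
  obtain ⟨T, hT, hTc⟩ := Finset.exists_subset_card_eq (s := univ.filter fun i => ev g (a i) = 0)
    (n := s + 1) hcon
  apply hg
  refine Matrix.eq_zero_of_forall_index_sum_mul_pow_eq_zero (f := fun i => a (T.orderEmbOfFin hTc i))
    (ha.comp (T.orderEmbOfFin hTc).injective) fun j => ?_
  have h1 := hT (Finset.orderEmbOfFin_mem T hTc j)
  rw [Finset.mem_filter] at h1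
  exact h1.2

/-- The determinant of the values of the Bezout form. -/
theorem det_vals {a : Fin k → ℂ} (ha : Function.Injective a) {α β : Fin s → Fin k}
    (hαβ : ∀ i j, α i ≠ β j) {g : Fin (s + 1) → ℂ → ℂ} {z : ℂ}
    (hg : ∀ j, DifferentiableAt ℂ (g j) z) :
    (vandermonde fun i => a (α i)).det * bb g z * (vandermonde fun i => a (β i)).det =
      (Matrix.of fun i j => (a (α i) - a (β j))⁻¹ *
        (rho g (a (α i)) z * deriv (rho g (a (β j))) z -
          rho g (a (β j)) z * deriv (rho g (a (α i))) z)).det := by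
  unfold bb
  rw [← det_bf]
  congr 1
  ext i j
  simp only [Matrix.of_apply]
  have h1 : a (α i) - a (β j) ≠ 0 := sub_ne_zero.mpr fun h => hαβ i j (ha h)
  rw [eq_comm, inv_mul_eq_iff_eq_mul₀ h1, bf_bez_mul, deriv_rho hg, deriv_rho hg]
  rfl

/-- Local data of a vector of meromorphic functions. -/
structure LD (a : Fin k → ℂ) (r : Fin (s + 1) → Mer) (z₀ : ℂ) (g : Fin (s + 1) → ℂ → ℂ)
    (P : ℂ → ℂ) : Prop where
  ga : ∀ j, AnalyticAt ℂ (g j) z₀
  gne : ∃ j, g j z₀ ≠ 0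
  rp : ∃ μ : ℂ → ℂ, MeromorphicAt μ z₀ ∧ ∀ᶠ z in 𝓝[≠] z₀, ∀ j, rep (r j) z = μ z * g j z
  Pa : AnalyticAt ℂ P z₀
  eq : ∀ᶠ z in 𝓝 z₀, P z * ∏ i, rho g (a i) z = bb g z ^ 2

theorem exists_LD {a : Fin k → ℂ} (ha : Function.Injective a) (hk : 2 * s ≤ k)
    {r : Fin (s + 1) → Mer} (hr : r ≠ 0) (hρ : ∀ i, ev r (algebraMap ℂ Mer (a i)) ≠ 0) {z₀ : ℂ}
    (hord : ∀ i, ord z₀ (ev r (algebraMap ℂ Mer (a i))) ≠
      (univ.inf fun j => ord z₀ (r j)) + 1) :
    ∃ g P, LD a r z₀ g P ∧ (P z₀ ≠ 0 → ∀ i, ∃ x : ℂ → ℂ, AnalyticAt ℂ x z₀ ∧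
      ∀ᶠ z in 𝓝 z₀, x z ^ 2 = rho g (a i) z) := by
  classical
  obtain ⟨m, g, hga, hgne, hg, hm⟩ := exists_local hr z₀
  have hgd : ∀ᶠ z in 𝓝 z₀, ∀ j, DifferentiableAt ℂ (g j) z := by
    rw [eventually_all]
    exact fun j => (hga j).eventually_analyticAt.mono fun z hz => hz.differentiableAt
  -- factorisation of the values
  have hfac : ∀ i, ∃ (o : ℕ) (υ : ℂ → ℂ), AnalyticAt ℂ υ z₀ ∧ υ z₀ ≠ 0 ∧
      ∀ᶠ z in 𝓝 z₀, rho g (a i) z = (z - z₀) ^ o * υ z := by
    intro i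
    refine exists_factor (analyticAt_rho hga (a i)) ?_
    refine Eventually.frequently ?_
    filter_upwards [rep_ne (hρ i) z₀, rep_ev r (a i) z₀, eventually_all.mpr hg] with z h1 h2 h3 h4
    apply h1
    rw [h2]
    have h6 : (fun j => rep (r j) z) = fun j => (z - z₀) ^ m * g j z := funext h3
    rw [h6, ev_smul]
    unfold rho at h4
    rw [h4, mul_zero]
  choose o υ hυ hυ0 hfac using hfac
  have ho1 : ∀ i, o i ≠ 1 := by
    intro i h1
    apply hord i
    rw [ord_ev_eq hg (hυ i) (hυ0 i) (hfac i), h1, hm]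
    push_cast
    rfl
  have hυd : ∀ᶠ z in 𝓝 z₀, ∀ i, DifferentiableAt ℂ (υ i) z := by
    rw [eventually_all]
    exact fun j => (hυ j).eventually_analyticAt.mono fun z hz => hz.differentiableAt
  -- the derivatives
  have hτ : ∀ i, ∃ τ : ℂ → ℂ, AnalyticAt ℂ τ z₀ ∧
      ∀ᶠ z in 𝓝 z₀, deriv (rho g (a i)) z = (z - z₀) ^ (o i - 1) * τ z := by
    intro i
    rcases Nat.eq_zero_or_pos (o i) with h0 | h0
    · refine ⟨deriv (υ i), (hυ i).deriv, ?_⟩
      filter_upwards [(hfac i).eventually_nhds] with z hz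
      have h1 : rho g (a i) =ᶠ[𝓝 z] υ i := by
        filter_upwards [hz] with w hw
        rw [hw, h0, pow_zero, one_mul]
      rw [h1.deriv_eq, h0]
      simp
    · refine ⟨fun z => o i * υ i z + (z - z₀) * deriv (υ i) z,
        (analyticAt_const.fun_mul (hυ i)).fun_add
          ((analyticAt_id.fun_sub analyticAt_const).fun_mul (hυ i).deriv), ?_⟩
      filter_upwards [(hfac i).eventually_nhds, hυd] with z hz hz2
      have h1 : rho g (a i) =ᶠ[𝓝 z] fun w => (w - z₀) ^ o i * υ i w := hz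
      have h2 : HasDerivAt (fun w => (w - z₀) ^ o i * υ i w)
          (((o i : ℂ) * (z - z₀) ^ (o i - 1) * 1) * υ i z + (z - z₀) ^ o i * deriv (υ i) z) z :=
        (((hasDerivAt_id z).sub_const z₀).pow (o i)).mul (hz2 i).hasDerivAt
      rw [h1.deriv_eq, h2.deriv]
      have h3 : (z - z₀) ^ o i = (z - z₀) ^ (o i - 1) * (z - z₀) := by
        rw [← pow_succ, Nat.sub_add_cancel h0]
      rw [h3]
      ring
  choose τ hτa hτ using hτ
  -- the zeros
  have hg0 : (fun j => g j z₀) ≠ 0 := by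
    obtain ⟨j, hj⟩ := hgne
    exact fun h => hj (congrFun h j)
  obtain ⟨α, β, hα, hβ, hαβ, hI⟩ := exists_two hk _ (card_zeros (s := s) ha hg0)
  have hoz : ∀ i, (∀ j, α j ≠ i) → o i = 0 := by
    intro i hi
    by_contra h0
    have h1 : ev (fun j => g j z₀) (a i) = 0 := by
      have h2 := (hfac i).self_of_nhds
      rw [sub_self, zero_pow h0, zero_mul] at h2
      exact h2
    obtain ⟨j, hj⟩ := hI i (by rw [Finset.mem_filter]; exact ⟨mem_univ _, h1⟩)
    exact hi j hj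
  have hsum : ∑ i, o i = ∑ i, o (α i) := by
    rw [← Finset.sum_image (s := univ) (g := α) (f := o) fun x _ y _ h => hα h]
    symm
    refine Finset.sum_subset (Finset.subset_univ _) fun i _ hi => hoz i fun j hj => hi ?_
    rw [Finset.mem_image]
    exact ⟨j, mem_univ _, hj⟩
  -- the determinant
  set Vα := (vandermonde fun i => a (α i)).det with hVα
  set Vβ := (vandermonde fun i => a (β i)).det with hVβ
  have hVα0 : Vα ≠ 0 := Matrix.det_vandermonde_ne_zero_iff.mpr (ha.comp hα)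
  have hVβ0 : Vβ ≠ 0 := Matrix.det_vandermonde_ne_zero_iff.mpr (ha.comp hβ)
  set N : ℂ → Matrix (Fin s) (Fin s) ℂ := fun z => Matrix.of fun i j =>
    (a (α i) - a (β j))⁻¹ * ((z - z₀) ^ (o (α i) - (o (α i) - 1)) * υ (α i) z *
      deriv (rho g (a (β j))) z - rho g (a (β j)) z * τ (α i) z) with hN
  have hNa : AnalyticAt ℂ (fun z => (N z).det) z₀ := by
    refine analyticAt_det fun i j => ?_
    simp only [hN, Matrix.of_apply]
    have hz : AnalyticAt ℂ (fun z : ℂ => z - z₀) z₀ := analyticAt_id.fun_sub analyticAt_const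
    exact analyticAt_const.fun_mul ((((hz.fun_pow _).fun_mul (hυ _)).fun_mul
      (analyticAt_rho hga _).deriv).fun_sub ((analyticAt_rho hga _).fun_mul (hτa _)))
  have hbN : ∀ᶠ z in 𝓝 z₀, Vα * bb g z * Vβ =
      (z - z₀) ^ (∑ i, (o (α i) - 1)) * (N z).det := by
    filter_upwards [hgd, eventually_all.mpr hfac, eventually_all.mpr hτ] with z h1 h2 h3
    rw [hVα, hVβ, det_vals ha hαβ h1, ← Finset.prod_pow_eq_pow_sum, ← Matrix.det_mul_column]
    congr 1
    ext i j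
    simp only [hN, Matrix.of_apply]
    rw [h2 (α i), h3 (α i)]
    have h4 : (z - z₀) ^ o (α i) = (z - z₀) ^ (o (α i) - 1) *
        (z - z₀) ^ (o (α i) - (o (α i) - 1)) := by
      rw [← pow_add]
      congr 1
      omega
    rw [h4]
    ring
  set P : ℂ → ℂ := fun z => (z - z₀) ^ (∑ i, (o (α i) - 2)) * ((N z).det / (Vα * Vβ)) ^ 2 /
    ∏ i, υ i z with hP
  have hprod : (∏ i, υ i z₀) ≠ 0 := Finset.prod_ne_zero_iff.mpr fun i _ => hυ0 i
  have hprodA : AnalyticAt ℂ (fun z => ∏ i, υ i z) z₀ :=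
    Finset.analyticAt_fun_prod _ fun i _ => hυ i
  have hexp : 2 * ∑ i, (o (α i) - 1) = ∑ i, (o (α i) - 2) + ∑ i, o (α i) := by
    rw [Finset.mul_sum, ← Finset.sum_add_distrib]
    refine Finset.sum_congr rfl fun i _ => ?_
    have := ho1 (α i)
    omega
  refine ⟨g, P, ⟨hga, hgne, ⟨fun z => (z - z₀) ^ m, by fun_prop, eventually_all.mpr hg⟩, ?_, ?_⟩,
    ?_⟩
  · simp only [hP]
    have hz : AnalyticAt ℂ (fun z : ℂ => z - z₀) z₀ := analyticAt_id.fun_sub analyticAt_const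
    exact ((hz.fun_pow _).fun_mul ((hNa.fun_div analyticAt_const
      (mul_ne_zero hVα0 hVβ0)).fun_pow _)).fun_div hprodA hprod
  · filter_upwards [hbN, eventually_all.mpr hfac, hprodA.continuousAt.eventually_ne hprod]
      with z h1 h2 h3
    have h4 : ∏ i, rho g (a i) z = (z - z₀) ^ (∑ i, o (α i)) * ∏ i, υ i z := by
      rw [Finset.prod_congr rfl fun i _ => h2 i, Finset.prod_mul_distrib,
        Finset.prod_pow_eq_pow_sum, hsum]
    have h5 : bb g z = (z - z₀) ^ (∑ i, (o (α i) - 1)) * ((N z).det / (Vα * Vβ)) := by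
      rw [← mul_div_assoc, ← h1]
      field_simp
    rw [h4, h5, mul_pow, ← pow_mul, mul_comm _ 2, hexp, pow_add]
    simp only [hP]
    field_simp
  · intro hPz i
    have hF : ∑ i, (o (α i) - 2) = 0 := by
      by_contra hF
      apply hPz
      simp only [hP]
      rw [sub_self, zero_pow hF]
      simp
    have ho2 : o i = 0 ∨ o i = 2 := by
      by_cases hi : ∃ j, α j = i
      · obtain ⟨j, rfl⟩ := hi
        have h1 := Finset.sum_eq_zero_iff.mp hF j (mem_univ _)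
        have h2 := ho1 (α j)
        omega
      · push Not at hi
        exact Or.inl (hoz i hi)
    obtain ⟨h, hh1, hh2⟩ := exists_sqrt (hυ i) (hυ0 i)
    have hz : AnalyticAt ℂ (fun z : ℂ => z - z₀) z₀ := analyticAt_id.fun_sub analyticAt_const
    rcases ho2 with h0 | h0
    · refine ⟨h, hh1, ?_⟩
      filter_upwards [hfac i] with z h1
      rw [h1, h0, hh2, pow_zero, one_mul]
    · refine ⟨fun z => (z - z₀) * h z, hz.fun_mul hh1, ?_⟩
      filter_upwards [hfac i] with z h1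
      rw [h1, h0, mul_pow, hh2]

end Pool.Agent.H89.Ci
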