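import Pool.Agent.Lib.H89.Ci.Loc
import Pool.Agent.Lib.H89.Ci.AS3

set_option autoImplicit false

/-!
The orbifold Ahlfors–Schwarz argument: the determinant of the Bezout matrix of a vector of
meromorphic functions and of its derivative vanishes if `4 s + 1` values have no simple zeros.
-/

open Filter Topology Finset Matrix
open Pool.Agent.H89.AS (nsq wsq)

namespace Pool.Agent.H89.Ci

variable {s k : ℕ}

theorem exists_pos_le {κ : Type*} [Finite κ] (f : κ → ℝ) (hf : ∀ i, 0 < f i) :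
    ∃ v : ℝ, 0 < v ∧ ∀ i, v ≤ f i := by
  rcases isEmpty_or_nonempty κ with h | h
  · exact ⟨1, one_pos, fun i => (h.false i).elim⟩
  · obtain ⟨i₀, hi₀⟩ := Finite.exists_min f
    exact ⟨f i₀, hf i₀, hi₀⟩

theorem exists_const_vander {a : Fin k → ℂ} (ha : Function.Injective a) :
    ∃ v : ℝ, 0 < v ∧ ∀ α : Fin s → Fin k, Function.Injective α →
      v ≤ ‖(vandermonde fun i => a (α i)).det‖ := by
  classical
  obtain ⟨v, hv, h⟩ := exists_pos_le (κ := Fin s → Fin k)
    (fun α => if Function.Injective α then ‖(vandermonde fun i => a (α i)).det‖ else 1) (by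
      intro α
      split_ifs with h
      · exact norm_pos_iff.mpr (Matrix.det_vandermonde_ne_zero_iff.mpr (ha.comp h))
      · exact one_pos)
  refine ⟨v, hv, fun α hα => ?_⟩
  have h1 := h α
  rwa [if_pos hα] at h1

theorem exists_const_dist {a : Fin k → ℂ} (ha : Function.Injective a) :
    ∃ v : ℝ, 0 < v ∧ ∀ i j, i ≠ j → v ≤ ‖a i - a j‖ := by
  classical
  obtain ⟨v, hv, h⟩ := exists_pos_le (κ := Fin k × Fin k)
    (fun x => if x.1 ≠ x.2 then ‖a x.1 - a x.2‖ else 1) (by
      intro x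
      split_ifs with h
      · exact norm_pos_iff.mpr (sub_ne_zero.mpr fun h' => h (ha h'))
      · exact one_pos)
  refine ⟨v, hv, fun i j hij => ?_⟩
  have h1 := h (i, j)
  simpa [hij] using h1

/-- At most `s` of the values of a polynomial are small. -/
theorem exists_const_cone {a : Fin k → ℂ} (ha : Function.Injective a) :
    ∃ c : ℝ, 0 < c ∧ ∀ g : Fin (s + 1) → ℂ, g ≠ 0 →
      (univ.filter fun i => ‖ev g (a i)‖ < c * ∑ j, ‖ev g (a j)‖).card ≤ s := by
  classical
  -- upper bound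
  obtain ⟨K', hK'0, hK'⟩ : ∃ K' : ℝ, 0 ≤ K' ∧ ∀ g : Fin (s + 1) → ℂ,
      ∑ j, ‖ev g (a j)‖ ≤ K' * ‖g‖ := by
    refine ⟨∑ j, ∑ m : Fin (s + 1), ‖a j‖ ^ (m : ℕ), by positivity, fun g => ?_⟩
    rw [Finset.sum_mul]
    refine Finset.sum_le_sum fun j _ => ?_
    unfold ev
    rw [Finset.sum_mul]
    refine (norm_sum_le _ _).trans (Finset.sum_le_sum fun m _ => ?_)
    rw [norm_mul, norm_pow, mul_comm]
    gcongr
    exact norm_le_pi_norm g m
  have key : ∀ σ : Fin (s + 1) → Fin k, ∃ c : ℝ, 0 < c ∧ (Function.Injective σ →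
      ∀ g : Fin (s + 1) → ℂ, g ≠ 0 → ∃ i, c * ∑ j, ‖ev g (a j)‖ ≤ ‖ev g (a (σ i))‖) := by
    intro σ
    by_cases hσ : Function.Injective σ
    swap
    · exact ⟨1, one_pos, fun h => absurd h hσ⟩
    let L : (Fin (s + 1) → ℂ) →ₗ[ℂ] (Fin (s + 1) → ℂ) :=
      { toFun := fun g i => ev g (a (σ i))
        map_add' := by
          intro g g'
          ext i
          simp only [ev, Pi.add_apply, add_mul, Finset.sum_add_distrib]
        map_smul' := by
          intro c g
          ext i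
          simp only [ev, Pi.smul_apply, smul_eq_mul, RingHom.id_apply, Finset.mul_sum, mul_assoc] }
    have hL : LinearMap.ker L = ⊥ := by
      rw [LinearMap.ker_eq_bot']
      intro g hg
      exact Matrix.eq_zero_of_forall_index_sum_mul_pow_eq_zero (f := fun i => a (σ i))
        (ha.comp hσ) fun j => congrFun hg j
    obtain ⟨K, hK, hanti⟩ := L.exists_antilipschitzWith hL
    have hK0 : (0 : ℝ) < K := by exact_mod_cast hK
    refine ⟨1 / (K * (K' + 1)), by positivity, fun _ g hg => ?_⟩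
    by_contra hcon
    push Not at hcon
    have hg0 : 0 < ‖g‖ := norm_pos_iff.mpr hg
    have h1 : ‖L g‖ ≤ 1 / (K * (K' + 1)) * ∑ j, ‖ev g (a j)‖ := by
      rw [pi_norm_le_iff_of_nonneg (by positivity)]
      exact fun i => (hcon i).le
    have h2 : ‖g‖ ≤ K * ‖L g‖ := by
      have h3 := hanti.le_mul_dist g 0
      rwa [map_zero, dist_zero_right, dist_zero_right] at h3
    have h3 : ‖g‖ ≤ K' / (K' + 1) * ‖g‖ := by
      calc ‖g‖ ≤ K * ‖L g‖ := h2
        _ ≤ K * (1 / (K * (K' + 1)) * ∑ j, ‖ev g (a j)‖) := by gcongr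
        _ ≤ K * (1 / (K * (K' + 1)) * (K' * ‖g‖)) := by
          gcongr
          exact hK' g
        _ = K' / (K' + 1) * ‖g‖ := by field_simp
    have h4 : K' / (K' + 1) < 1 := by
      rw [div_lt_one (by positivity)]
      linarith
    nlinarith
  choose c hc hcσ using key
  obtain ⟨c₀, hc₀, hcc⟩ := exists_pos_le c hc
  refine ⟨c₀, hc₀, fun g hg => ?_⟩
  by_contra hcon
  push Not at hcon
  obtain ⟨T, hT, hTc⟩ := Finset.exists_subset_card_eq
    (s := univ.filter fun i => ‖ev g (a i)‖ < c₀ * ∑ j, ‖ev g (a j)‖) (n := s + 1) hcon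
  obtain ⟨i, hi⟩ := hcσ (fun i => T.orderEmbOfFin hTc i) (T.orderEmbOfFin hTc).injective g hg
  have h1 := hT (Finset.orderEmbOfFin_mem T hTc i)
  rw [Finset.mem_filter] at h1
  have h2 : c₀ * ∑ j, ‖ev g (a j)‖ ≤ c (fun i => T.orderEmbOfFin hTc i) * ∑ j, ‖ev g (a j)‖ := by
    have := hcc (fun i => T.orderEmbOfFin hTc i)
    gcongr
  linarith [h1.2]

theorem eventually_punctured {Q : ℂ → Prop} {z₀ : ℂ} (h : ∀ᶠ z in 𝓝[≠] z₀, Q z) :
    ∀ᶠ w in 𝓝 z₀, ∀ᶠ z in 𝓝[≠] w, Q z := by
  have h1 := h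
  rw [eventually_nhdsWithin_iff] at h1
  filter_upwards [h1.eventually_nhds] with w hw
  by_cases hwz : w = z₀
  · rw [hwz]
    exact h
  · have h2 : ∀ᶠ z in 𝓝 w, z ≠ z₀ := isOpen_ne.mem_nhds hwz
    have h3 : ∀ᶠ z in 𝓝 w, Q z := by
      filter_upwards [hw, h2] with z h4 h5
      exact h4 h5
    exact h3.filter_mono nhdsWithin_le_nhds

theorem LD.eventually {a : Fin k → ℂ} {r : Fin (s + 1) → Mer} {z₀ : ℂ}
    {g : Fin (s + 1) → ℂ → ℂ} {P : ℂ → ℂ} (h : LD a r z₀ g P) : ∀ᶠ z in 𝓝 z₀, LD a r z g P := by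
  obtain ⟨ga, ⟨j, hj⟩, ⟨μ, hμ, hrp⟩, Pa, eq⟩ := h
  have h1 : ∀ᶠ z in 𝓝 z₀, MeromorphicAt μ z := by
    have h2 := hμ.eventually_analyticAt
    rw [eventually_nhdsWithin_iff] at h2
    filter_upwards [h2] with z hz
    by_cases hzz : z = z₀
    · rw [hzz]
      exact hμ
    · exact (hz hzz).meromorphicAt
  filter_upwards [eventually_all.mpr fun j => (ga j).eventually_analyticAt,
    (ga j).continuousAt.eventually_ne hj, h1, eventually_punctured hrp, Pa.eventually_analyticAt,
    eq.eventually_nhds] with z h1 h2 h3 h4 h5 h6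
  exact ⟨h1, ⟨j, h2⟩, ⟨μ, h3, h4⟩, h5, h6⟩

theorem LD.rho_ne {a : Fin k → ℂ} {r : Fin (s + 1) → Mer} {z₀ : ℂ}
    (hρ : ∀ i, ev r (algebraMap ℂ Mer (a i)) ≠ 0)
    {g : Fin (s + 1) → ℂ → ℂ} {P : ℂ → ℂ} (h : LD a r z₀ g P) :
    ∀ᶠ z in 𝓝[≠] z₀, ∀ i, rho g (a i) z ≠ 0 := by
  rw [eventually_all]
  intro i
  obtain ⟨μ, -, hrp⟩ := h.rp
  filter_upwards [rep_ne (hρ i) z₀, rep_ev r (a i) z₀, hrp] with z h1 h2 h3 h4
  apply h1
  rw [h2]
  have h6 : (fun j => rep (r j) z) = fun j => μ z * g j z := funext h3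
  rw [h6, ev_smul]
  unfold rho at h4
  rw [h4, mul_zero]

/-- The value of the function to which the Ahlfors–Schwarz lemma will be applied. -/
noncomputable def Hval (a : Fin k → ℂ) (p : ℕ) (g : Fin (s + 1) → ℂ → ℂ) (P : ℂ → ℂ) (z : ℂ) : ℝ :=
  ‖P z‖ * (∑ i, ‖rho g (a i) z‖) ^ p

theorem LD.unique {a : Fin k → ℂ} {p : ℕ} (hk : k = 4 * s + p) (hk0 : 1 ≤ k)
    {r : Fin (s + 1) → Mer} {z₀ : ℂ} (hρ : ∀ i, ev r (algebraMap ℂ Mer (a i)) ≠ 0)
    {g g' : Fin (s + 1) → ℂ → ℂ} {P P' : ℂ → ℂ} (h : LD a r z₀ g P) (h' : LD a r z₀ g' P') :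
    Hval a p g P z₀ = Hval a p g' P' z₀ := by
  obtain ⟨μ, hμ, hrp⟩ := h.rp
  obtain ⟨μ', hμ', hrp'⟩ := h'.rp
  obtain ⟨j₀, hj₀⟩ := h'.gne
  set l : ℂ → ℂ := fun z => g j₀ z / g' j₀ z with hl
  have hla : AnalyticAt ℂ l z₀ := (h.ga j₀).fun_div (h'.ga j₀) hj₀
  have hμne : ∀ᶠ z in 𝓝[≠] z₀, μ z ≠ 0 := by
    filter_upwards [rep_ne (hρ ⟨0, hk0⟩) z₀, rep_ev r (a ⟨0, hk0⟩) z₀, hrp] with z h1 h2 h3 h4
    apply h1
    rw [h2]
    have h6 : (fun j => rep (r j) z) = fun j => μ z * g j z := funext h3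
    rw [h6, ev_smul, h4, zero_mul]
  have hg : ∀ j, ∀ᶠ z in 𝓝 z₀, g j z = l z * g' j z := by
    intro j
    have h1 : ∀ᶠ z in 𝓝[≠] z₀, g j z = l z * g' j z := by
      filter_upwards [hμne, hrp, hrp', ((h'.ga j₀).continuousAt.eventually_ne hj₀).filter_mono
        nhdsWithin_le_nhds] with z h1 h2 h3 h4
      have h5 : ∀ j, μ z * g j z = μ' z * g' j z := fun j => (h2 j).symm.trans (h3 j)
      simp only [hl]
      rw [div_mul_eq_mul_div, eq_div_iff h4]
      apply mul_left_cancel₀ h1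
      calc μ z * (g j z * g' j₀ z) = (μ z * g j z) * g' j₀ z := by ring
        _ = (μ' z * g' j₀ z) * g' j z := by rw [h5]; ring
        _ = _ := by rw [← h5]; ring
    exact (ContinuousAt.eventuallyEq_nhds_iff_eventuallyEq_nhdsNE (h.ga j).continuousAt
      (hla.continuousAt.mul (h'.ga j).continuousAt)).mp h1
  have hg' := eventually_all.mpr hg
  have hl0 : l z₀ ≠ 0 := by
    obtain ⟨j, hj⟩ := h.gne
    intro h0
    apply hj
    rw [(hg j).self_of_nhds, h0, zero_mul]
  have hrho : ∀ᶠ z in 𝓝 z₀, ∀ c, rho g c z = l z * rho g' c z := by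
    filter_upwards [hg'] with z hz c
    unfold rho
    rw [← ev_smul]
    congr 1
    exact funext hz
  have hbb : ∀ᶠ z in 𝓝 z₀, bb g z = l z ^ (2 * s) * bb g' z := by
    filter_upwards [hg'.eventually_nhds, hla.eventually_analyticAt,
      eventually_all.mpr fun j => (h'.ga j).eventually_analyticAt] with z h1 h2 h3
    unfold bb
    have h4 : (fun j => g j z) = l z • fun j => g' j z := by
      ext j
      exact h1.self_of_nhds j
    have h5 : (fun j => deriv (g j) z) =
        (l z • fun j => deriv (g' j) z) + deriv l z • fun j => g' j z := by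
      ext j
      have h6 : g j =ᶠ[𝓝 z] fun w => l w * g' j w := by
        filter_upwards [h1] with w hw
        exact hw j
      rw [h6.deriv_eq, deriv_fun_mul h2.differentiableAt (h3 j).differentiableAt]
      simp only [Pi.add_apply, Pi.smul_apply, smul_eq_mul]
      ring
    rw [h4, h5, det_bez_smul]
  have hP : ∀ᶠ z in 𝓝[≠] z₀, P z * l z ^ p = P' z := by
    filter_upwards [h.eq.filter_mono nhdsWithin_le_nhds, h'.eq.filter_mono nhdsWithin_le_nhds,
      hrho.filter_mono nhdsWithin_le_nhds, hbb.filter_mono nhdsWithin_le_nhds,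
      h'.rho_ne hρ, (hla.continuousAt.eventually_ne hl0).filter_mono nhdsWithin_le_nhds]
      with z h1 h2 h3 h4 h5 h6
    have h7 : (∏ i, rho g' (a i) z) ≠ 0 := Finset.prod_ne_zero_iff.mpr fun i _ => h5 i
    have h8 : ∏ i, rho g (a i) z = l z ^ k * ∏ i, rho g' (a i) z := by
      rw [Finset.prod_congr rfl fun i _ => h3 (a i), Finset.prod_mul_distrib,
        Finset.prod_const, Finset.card_univ, Fintype.card_fin]
    have h10 : l z ^ k = l z ^ (4 * s) * l z ^ p := by rw [← pow_add, ← hk]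
    rw [h8, h4, mul_pow, ← h2, ← pow_mul, h10] at h1
    have h9 : l z ^ (2 * s * 2) = l z ^ (4 * s) := by
      congr 1
      ring
    rw [h9] at h1
    apply mul_left_cancel₀ (mul_ne_zero (pow_ne_zero (4 * s) h6) h7)
    linear_combination h1
  have hP0 : P z₀ * l z₀ ^ p = P' z₀ := by
    have h1 : Tendsto (fun z => P z * l z ^ p) (𝓝[≠] z₀) (𝓝 (P z₀ * l z₀ ^ p)) :=
      (h.Pa.continuousAt.mul (hla.continuousAt.pow p)).tendsto.mono_left nhdsWithin_le_nhds
    have h2 : Tendsto P' (𝓝[≠] z₀) (𝓝 (P' z₀)) :=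
      h'.Pa.continuousAt.tendsto.mono_left nhdsWithin_le_nhds
    exact tendsto_nhds_unique (h1.congr' hP) h2
  unfold Hval
  rw [← hP0, norm_mul, norm_pow]
  have h1 : ∑ i, ‖rho g (a i) z₀‖ = ‖l z₀‖ * ∑ i, ‖rho g' (a i) z₀‖ := by
    rw [Finset.mul_sum]
    refine Finset.sum_congr rfl fun i _ => ?_
    rw [hrho.self_of_nhds, norm_mul]
  rw [h1, mul_pow]
  ring

theorem continuousAt_Hval {a : Fin k → ℂ} {p : ℕ} {r : Fin (s + 1) → Mer} {z₀ : ℂ}
    {g : Fin (s + 1) → ℂ → ℂ} {P : ℂ → ℂ} (h : LD a r z₀ g P) :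
    ContinuousAt (Hval a p g P) z₀ := by
  unfold Hval
  refine h.Pa.continuousAt.norm.mul (ContinuousAt.pow ?_ p)
  exact tendsto_finsetSum _ fun i _ => (analyticAt_rho h.ga (a i)).continuousAt.norm

/-- The identity at a point where the local data have square roots. -/
theorem LD.key {a : Fin k → ℂ} (ha : Function.Injective a)
    {r : Fin (s + 1) → Mer} {z₀ : ℂ} (hρ : ∀ i, ev r (algebraMap ℂ Mer (a i)) ≠ 0)
    {g : Fin (s + 1) → ℂ → ℂ} {P : ℂ → ℂ} (h : LD a r z₀ g P)
    {α β : Fin s → Fin k} (hα : Function.Injective α) (hβ : Function.Injective β)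
    (hαβ : ∀ i j, α i ≠ β j)
    {x : Fin k → ℂ → ℂ} (hxa : ∀ i, AnalyticAt ℂ (x i) z₀)
    (hx : ∀ i, ∀ᶠ z in 𝓝 z₀, x i z ^ 2 = rho g (a i) z)
    {Q : ℂ → ℂ} (hQa : AnalyticAt ℂ Q z₀) (hQ : ∀ z, Q z ^ 2 = P z) :
    (Q z₀ * (∏ i ∈ univ.filter (fun i => (∀ j, α j ≠ i) ∧ ∀ j, β j ≠ i), x i z₀) *
      ((vandermonde fun i => a (α i)).det * (vandermonde fun i => a (β i)).det)) ^ 2 =
    (2 ^ s * (Matrix.of fun i j => (a (α i) - a (β j))⁻¹ *
      (x (α i) z₀ * deriv (x (β j)) z₀ - x (β j) z₀ * deriv (x (α i)) z₀)).det) ^ 2 := by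
  classical
  set Vα := (vandermonde fun i => a (α i)).det with hVα
  set Vβ := (vandermonde fun i => a (β i)).det with hVβ
  set S := univ.filter (fun i => (∀ j, α j ≠ i) ∧ ∀ j, β j ≠ i) with hS
  set A : ℂ → ℂ := fun z => (Q z * (∏ i ∈ S, x i z) * (Vα * Vβ)) ^ 2 with hA
  set B : ℂ → ℂ := fun z => (2 ^ s * (Matrix.of fun i j => (a (α i) - a (β j))⁻¹ *
      (x (α i) z * deriv (x (β j)) z - x (β j) z * deriv (x (α i)) z)).det) ^ 2 with hB
  have hAa : AnalyticAt ℂ A z₀ := by
    simp only [hA]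
    exact ((hQa.fun_mul (Finset.analyticAt_fun_prod _ fun i _ => hxa i)).fun_mul
      analyticAt_const).fun_pow 2
  have hBa : AnalyticAt ℂ B z₀ := by
    simp only [hB]
    refine (analyticAt_const.fun_mul (analyticAt_det fun i j => ?_)).fun_pow 2
    simp only [Matrix.of_apply]
    exact analyticAt_const.fun_mul (((hxa _).fun_mul (hxa _).deriv).fun_sub
      ((hxa _).fun_mul (hxa _).deriv))
  have hprod : ∀ z, ∏ i, x i z = (∏ i, x (α i) z) * (∏ i, x (β i) z) * ∏ i ∈ S, x i z := by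
    intro z
    have h1 : (univ : Finset (Fin k)) = (univ.image α ∪ univ.image β) ∪ S := by
      ext i
      simp only [mem_univ, mem_union, mem_image, true_and, hS, mem_filter, true_iff]
      by_cases h1 : ∃ j, α j = i
      · exact Or.inl (Or.inl h1)
      · by_cases h2 : ∃ j, β j = i
        · exact Or.inl (Or.inr h2)
        · push Not at h1 h2
          exact Or.inr ⟨h1, h2⟩
    have h2 : Disjoint (univ.image α ∪ univ.image β) S := by
      rw [Finset.disjoint_left]
      intro i hi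
      simp only [mem_union, mem_image, mem_univ, true_and] at hi
      simp only [hS, mem_filter, mem_univ, true_and, not_and, not_forall, not_not]
      intro h3
      rcases hi with ⟨j, hj⟩ | ⟨j, hj⟩
      · exact absurd hj (h3 j)
      · exact ⟨j, hj⟩
    have h3 : Disjoint (univ.image α) (univ.image β) := by
      rw [Finset.disjoint_left]
      intro i hi hi'
      simp only [mem_image, mem_univ, true_and] at hi hi'
      obtain ⟨j, rfl⟩ := hi
      obtain ⟨l, hl⟩ := hi'
      exact hαβ j l hl.symm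
    conv_lhs => rw [h1]
    rw [Finset.prod_union h2, Finset.prod_union h3, Finset.prod_image fun x _ y _ h => hα h,
      Finset.prod_image fun x _ y _ h => hβ h]
  have hmain : ∀ᶠ z in 𝓝 z₀, ((∏ i, x (α i) z) * (∏ i, x (β i) z)) ^ 2 * A z =
      ((∏ i, x (α i) z) * (∏ i, x (β i) z)) ^ 2 * B z := by
    have hgd : ∀ᶠ z in 𝓝 z₀, ∀ j, DifferentiableAt ℂ (g j) z := by
      rw [eventually_all]
      exact fun j => (h.ga j).eventually_analyticAt.mono fun z hz => hz.differentiableAt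
    have hxd : ∀ᶠ z in 𝓝 z₀, ∀ j, DifferentiableAt ℂ (x j) z := by
      rw [eventually_all]
      exact fun j => (hxa j).eventually_analyticAt.mono fun z hz => hz.differentiableAt
    filter_upwards [hgd, hxd, (eventually_all.mpr hx).eventually_nhds, h.eq] with z h1 h2 h3 h4
    have h5 : ∀ i, rho g (a i) z = x i z ^ 2 := fun i => (h3.self_of_nhds i).symm
    have h6 : ∀ i, deriv (rho g (a i)) z = 2 * x i z * deriv (x i) z := by
      intro i
      have h7 : rho g (a i) =ᶠ[𝓝 z] fun w => x i w ^ 2 := by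
        filter_upwards [h3] with w hw
        exact (hw i).symm
      rw [h7.deriv_eq]
      have h8 := ((h2 i).hasDerivAt.pow 2).deriv
      simp only [Nat.cast_ofNat, Nat.add_one_sub_one, pow_one] at h8
      exact h8
    have h7 := det_vals ha hαβ h1
    have h8 : (Matrix.of fun i j => (a (α i) - a (β j))⁻¹ *
        (rho g (a (α i)) z * deriv (rho g (a (β j))) z -
          rho g (a (β j)) z * deriv (rho g (a (α i))) z)) =
        Matrix.of fun i j => (2 * x (α i) z) * (Matrix.of fun i j => x (β j) z *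
          (Matrix.of fun i j => (a (α i) - a (β j))⁻¹ *
            (x (α i) z * deriv (x (β j)) z - x (β j) z * deriv (x (α i)) z)) i j) i j := by
      ext i j
      simp only [Matrix.of_apply]
      rw [h5, h5, h6, h6]
      ring
    rw [h8, Matrix.det_mul_column, Matrix.det_mul_row, Finset.prod_mul_distrib,
      Finset.prod_const, Finset.card_univ, Fintype.card_fin] at h7
    have h9 : Q z ^ 2 * (∏ i, x i z) ^ 2 = bb g z ^ 2 := by
      rw [← h4, hQ, ← Finset.prod_pow]
      congr 1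
      exact Finset.prod_congr rfl fun i _ => (h5 i).symm
    rw [hprod] at h9
    simp only [hA, hB]
    calc ((∏ i, x (α i) z) * ∏ i, x (β i) z) ^ 2 *
          (Q z * (∏ i ∈ S, x i z) * (Vα * Vβ)) ^ 2
        = (Q z ^ 2 * ((∏ i, x (α i) z) * (∏ i, x (β i) z) * ∏ i ∈ S, x i z) ^ 2) *
            (Vα * Vβ) ^ 2 := by ring
      _ = (Vα * bb g z * Vβ) ^ 2 := by rw [h9]; ring
      _ = _ := by rw [h7]; ring
  have hne : ∀ᶠ z in 𝓝[≠] z₀, ((∏ i, x (α i) z) * (∏ i, x (β i) z)) ^ 2 ≠ 0 := by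
    filter_upwards [h.rho_ne hρ, (eventually_all.mpr hx).filter_mono nhdsWithin_le_nhds]
      with z h1 h2
    have h3 : ∀ i, x i z ≠ 0 := by
      intro i h0
      apply h1 i
      rw [← h2 i, h0]
      simp
    exact pow_ne_zero _ (mul_ne_zero (Finset.prod_ne_zero_iff.mpr fun i _ => h3 _)
      (Finset.prod_ne_zero_iff.mpr fun i _ => h3 _))
  have hAB : ∀ᶠ z in 𝓝[≠] z₀, A z = B z := by
    filter_upwards [hne, hmain.filter_mono nhdsWithin_le_nhds] with z h1 h2
    exact mul_left_cancel₀ h1 h2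
  have h1 : Tendsto A (𝓝[≠] z₀) (𝓝 (A z₀)) :=
    hAa.continuousAt.tendsto.mono_left nhdsWithin_le_nhds
  have h2 : Tendsto B (𝓝[≠] z₀) (𝓝 (B z₀)) :=
    hBa.continuousAt.tendsto.mono_left nhdsWithin_le_nhds
  exact tendsto_nhds_unique (h1.congr' hAB) h2

theorem rep_det {m : ℕ} (M : Matrix (Fin m) (Fin m) Mer) (z₀ : ℂ) :
    rep M.det =ᶠ[𝓝[≠] z₀] fun w => (M.map fun x => rep x w).det := by
  have h1 : ∀ σ : Equiv.Perm (Fin m), rep (((Equiv.Perm.sign σ : ℤ) : Mer) * ∏ i, M (σ i) i)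
      =ᶠ[𝓝[≠] z₀] fun w => ((Equiv.Perm.sign σ : ℤ) : ℂ) * ∏ i, rep (M (σ i) i) w := by
    intro σ
    have h2 : ((Equiv.Perm.sign σ : ℤ) : Mer) = algebraMap ℂ Mer ((Equiv.Perm.sign σ : ℤ) : ℂ) := by
      rw [map_intCast]
    rw [h2]
    filter_upwards [rep_mul (algebraMap ℂ Mer ((Equiv.Perm.sign σ : ℤ) : ℂ)) (∏ i, M (σ i) i) z₀,
      rep_const ((Equiv.Perm.sign σ : ℤ) : ℂ) z₀, rep_prod univ (fun i => M (σ i) i) z₀]
      with w h3 h4 h5
    rw [h3, h4, h5]
  rw [Matrix.det_apply']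
  filter_upwards [rep_sum univ (fun σ : Equiv.Perm (Fin m) =>
    ((Equiv.Perm.sign σ : ℤ) : Mer) * ∏ i, M (σ i) i) z₀, eventually_all.mpr h1] with w h2 h3
  rw [h2, Matrix.det_apply']
  exact Finset.sum_congr rfl fun σ _ => h3 σ

theorem rep_bez (r t : Fin (s + 1) → Mer) (z₀ : ℂ) : ∀ᶠ w in 𝓝[≠] z₀,
    (bez r t).map (fun x => rep x w) = bez (fun j => rep (r j) w) (fun j => rep (t j) w) := by
  have h1 : ∀ p q : Fin s, ∀ᶠ w in 𝓝[≠] z₀, rep (bez r t p q) w =
      bez (fun j => rep (r j) w) (fun j => rep (t j) w) p q := by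
    intro p q
    have h2 : ∀ m l : Fin (s + 1), ∀ᶠ w in 𝓝[≠] z₀,
        rep ((bezK m l p q : Mer) * (r m * t l)) w =
          (bezK m l p q : ℂ) * (rep (r m) w * rep (t l) w) := by
      intro m l
      have h3 : (bezK m l p q : Mer) = algebraMap ℂ Mer (bezK m l p q : ℂ) := by
        rw [map_intCast]
      rw [h3]
      filter_upwards [rep_mul (algebraMap ℂ Mer (bezK m l p q : ℂ)) (r m * t l) z₀,
        rep_const (bezK m l p q : ℂ) z₀, rep_mul (r m) (t l) z₀] with w h4 h5 h6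
      rw [h4, h5, h6]
    have h3 : ∀ m : Fin (s + 1), ∀ᶠ w in 𝓝[≠] z₀,
        rep (∑ l, (bezK m l p q : Mer) * (r m * t l)) w =
          ∑ l, (bezK m l p q : ℂ) * (rep (r m) w * rep (t l) w) := by
      intro m
      filter_upwards [rep_sum univ (fun l => (bezK m l p q : Mer) * (r m * t l)) z₀,
        eventually_all.mpr (h2 m)] with w h4 h5
      rw [h4]
      exact Finset.sum_congr rfl fun l _ => h5 l
    simp only [bez, Matrix.of_apply]
    filter_upwards [rep_sum univ (fun m => ∑ l, (bezK m l p q : Mer) * (r m * t l)) z₀,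
      eventually_all.mpr h3] with w h4 h5
    rw [h4]
    exact Finset.sum_congr rfl fun l _ => h5 l
  filter_upwards [eventually_all.mpr fun p => eventually_all.mpr fun q => h1 p q] with w hw
  ext p q
  exact hw p q

/-- If the local data vanish, so does the determinant. -/
theorem LD.det_eq_zero {a : Fin k → ℂ} {r : Fin (s + 1) → Mer} {z₀ : ℂ}
    {g : Fin (s + 1) → ℂ → ℂ} {P : ℂ → ℂ} (h : LD a r z₀ g P) (h0 : ∀ᶠ z in 𝓝[≠] z₀, bb g z = 0) :
    (bez r fun j => dd (r j)).det = 0 := by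
  obtain ⟨μ, hμ, hrp⟩ := h.rp
  apply eq_zero_of_rep (z := z₀)
  refine Eventually.frequently ?_
  have h1 : ∀ᶠ z in 𝓝[≠] z₀, ∀ j, deriv (rep (r j)) z =
      μ z * deriv (g j) z + deriv μ z * g j z := by
    rw [eventually_all]
    intro j
    have h2 : rep (r j) =ᶠ[𝓝[≠] z₀] fun z => μ z * g j z := by
      filter_upwards [hrp] with z hz
      exact hz j
    filter_upwards [deriv_congr_punctured h2, hμ.eventually_analyticAt,
      (h.ga j).eventually_analyticAt.filter_mono nhdsWithin_le_nhds] with z h3 h4 h5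
    rw [h3, deriv_fun_mul h4.differentiableAt h5.differentiableAt]
    ring
  filter_upwards [rep_det (bez r fun j => dd (r j)) z₀, rep_bez r (fun j => dd (r j)) z₀, hrp, h1,
    eventually_all.mpr fun j => rep_dd (r j) z₀, h0] with z h2 h3 h4 h5 h6 h7
  rw [h2, h3]
  have h8 : (fun j => rep (r j) z) = μ z • fun j => g j z := by
    ext j
    exact h4 j
  have h9 : (fun j => rep (dd (r j)) z) =
      (μ z • fun j => deriv (g j) z) + deriv μ z • fun j => g j z := by
    ext j
    rw [h6 j, h5 j]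
    rfl
  rw [h8, h9, det_bez_smul]
  unfold bb at h7
  rw [h7, mul_zero]

/-- **The orbifold Ahlfors–Schwarz lemma** for values of a polynomial with meromorphic
coefficients. -/
theorem det_bez_eq_zero {a : Fin k → ℂ} (ha : Function.Injective a) (hs : 1 ≤ s)
    (hk : 4 * s + 1 ≤ k) {r : Fin (s + 1) → Mer}
    (hρ : ∀ i, ev r (algebraMap ℂ Mer (a i)) ≠ 0)
    (hord : ∀ z i, ord z (ev r (algebraMap ℂ Mer (a i))) ≠
      (univ.inf fun j => ord z (r j)) + 1) :
    (bez r fun j => dd (r j)).det = 0 := by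
  classical
  obtain ⟨p, hkp, hp⟩ : ∃ p, k = 4 * s + p ∧ 1 ≤ p := ⟨k - 4 * s, by omega, by omega⟩
  have hr : r ≠ 0 := by
    rintro rfl
    apply hρ ⟨0, by omega⟩
    unfold ev
    simp
  have hex := fun z₀ => exists_LD ha (by omega) hr hρ (fun i => hord z₀ i)
  choose G PP hLD hsq using hex
  set H : ℂ → ℝ := fun z => Hval a p (G z) (PP z) z with hH
  have hHe : ∀ z₀, ∀ᶠ z in 𝓝 z₀, H z = Hval a p (G z₀) (PP z₀) z := by
    intro z₀
    filter_upwards [(hLD z₀).eventually] with z hz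
    exact LD.unique hkp (by omega) hρ (hLD z) hz
  have hHc : Continuous H := by
    rw [continuous_iff_continuousAt]
    intro z₀
    exact (continuousAt_Hval (hLD z₀)).congr
      (by filter_upwards [hHe z₀] with z hz; exact hz.symm)
  have hH0 : ∀ z, 0 ≤ H z := fun z => by
    simp only [hH, Hval]
    positivity
  obtain ⟨v, hv, hV⟩ := exists_const_vander (s := s) ha
  obtain ⟨δ, hδ, hD⟩ := exists_const_dist ha
  obtain ⟨c, hc, hcone⟩ := exists_const_cone (s := s) ha
  have hHz := AS.eq_zero_of_local' (ι := Fin k) hHc hH0 hp hs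
    (C := 4 ^ s * ((s.factorial : ℝ) * (δ⁻¹) ^ s) ^ 2 / (c ^ (p + 2 * s) * v ^ 4)) (by positivity)
    (by
      intro z₀ hz₀
      have hPne : PP z₀ z₀ ≠ 0 := by
        intro h0
        apply hz₀
        simp only [hH, Hval, h0, norm_zero, zero_mul]
      have hNne : (∑ i, ‖rho (G z₀) (a i) z₀‖) ≠ 0 := by
        intro h0
        apply hz₀
        simp only [hH, Hval, h0]
        rw [zero_pow (by omega), mul_zero]
      choose x hxa hx using hsq z₀ hPne
      obtain ⟨Q, hQa, hQ⟩ := exists_sqrt (hLD z₀).Pa hPne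
      have hg0 : (fun j => G z₀ j z₀) ≠ 0 := by
        obtain ⟨j, hj⟩ := (hLD z₀).gne
        exact fun h => hj (congrFun h j)
      have hcard := hcone _ hg0
      obtain ⟨α, β, hα, hβ, hαβ, hI⟩ := exists_two (k := k) (by omega) _ hcard
      have hnsq : ∀ᶠ z in 𝓝 z₀, nsq (fun i => x i z) = ∑ i, ‖rho (G z₀) (a i) z‖ := by
        filter_upwards [eventually_all.mpr hx] with z hz
        unfold nsq
        refine Finset.sum_congr rfl fun i _ => ?_
        rw [← hz i, norm_pow]
      refine ⟨fun z i => x i z, Q, fun i => ?_, ?_, ?_, ?_, ?_⟩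
      · exact (hxa i).eventually_analyticAt.mono fun z hz => hz.differentiableAt
      · exact hQa.eventually_analyticAt.mono fun z hz => hz.differentiableAt
      · intro h0
        apply hNne
        have h0' : (fun i => x i z₀) = 0 := h0
        rw [← hnsq.self_of_nhds, h0']
        unfold nsq
        simp
      · filter_upwards [hHe z₀, hnsq] with z h1 h2
        rw [h1, h2]
        unfold Hval
        rw [← hQ, norm_pow]
      · set N := nsq (fun i => x i z₀) with hN
        have hN' : N = ∑ i, ‖rho (G z₀) (a i) z₀‖ := hnsq.self_of_nhds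
        set W := wsq (fun i => x i z₀) (fun i => deriv (fun z => x i z) z₀) with hW
        have hW0 : 0 ≤ W := AS.wsq_nonneg _ _
        set S := univ.filter (fun i => (∀ j, α j ≠ i) ∧ ∀ j, β j ≠ i) with hS
        have hScard : S.card = p + 2 * s := by
          have h1 : S = univ \ (univ.image α ∪ univ.image β) := by
            ext i
            simp only [hS, mem_filter, mem_univ, true_and, Finset.mem_sdiff, mem_union, mem_image,
              not_or, not_exists, ne_eq]
          have h3 : Disjoint (univ.image α) (univ.image β) := by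
            rw [Finset.disjoint_left]
            intro i hi hi'
            simp only [mem_image, mem_univ, true_and] at hi hi'
            obtain ⟨j, rfl⟩ := hi
            obtain ⟨l, hl⟩ := hi'
            exact hαβ j l hl.symm
          rw [h1, Finset.card_sdiff_of_subset (Finset.subset_univ _),
            Finset.card_union_of_disjoint h3, Finset.card_image_of_injective _ hα,
            Finset.card_image_of_injective _ hβ]
          simp only [Finset.card_univ, Fintype.card_fin]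
          omega
        have hkey := LD.key ha hρ (hLD z₀) hα hβ hαβ hxa hx hQa hQ
        have hkey' := congrArg norm hkey
        simp only [norm_pow, norm_mul] at hkey'
        rw [norm_prod] at hkey'
        set U : Matrix (Fin s) (Fin s) ℂ := Matrix.of fun i j => (a (α i) - a (β j))⁻¹ *
          (x (α i) z₀ * deriv (x (β j)) z₀ - x (β j) z₀ * deriv (x (α i)) z₀) with hU
        have hprodlow : (c * N) ^ (p + 2 * s) ≤ (∏ i ∈ S, ‖x i z₀‖) ^ 2 := by
          rw [← Finset.prod_pow, ← hScard, ← Finset.prod_const]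
          refine Finset.prod_le_prod (fun i _ => ?_) fun i hi => ?_
          · rw [hN']
            positivity
          · rw [← norm_pow, (hx i).self_of_nhds, hN']
            by_contra hcon
            push Not at hcon
            obtain ⟨j, hj⟩ := hI i (by
              rw [Finset.mem_filter]
              exact ⟨mem_univ _, hcon⟩)
            rw [hS, Finset.mem_filter] at hi
            exact hi.2.1 j hj
        have hUdet : ‖U.det‖ ^ 2 ≤ ((s.factorial : ℝ) * (δ⁻¹) ^ s) ^ 2 * W ^ s := by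
          have h1 : ∀ i j, ‖U i j‖ ≤ δ⁻¹ * √W := by
            intro i j
            simp only [hU, Matrix.of_apply]
            rw [norm_mul, norm_inv]
            have h2 : ‖a (α i) - a (β j)‖⁻¹ ≤ δ⁻¹ := by
              gcongr
              exact hD _ _ (hαβ i j)
            have h3 : ‖x (α i) z₀ * deriv (x (β j)) z₀ - x (β j) z₀ * deriv (x (α i)) z₀‖ ≤
                √W := by
              apply Real.le_sqrt_of_sq_le
              rw [hW]
              unfold wsq
              refine le_trans ?_ (Finset.single_le_sum (f := fun i' => ∑ j',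
                ‖x i' z₀ * deriv (fun z => x j' z) z₀ - x j' z₀ * deriv (fun z => x i' z) z₀‖ ^ 2)
                (fun _ _ => Finset.sum_nonneg fun _ _ => by positivity) (mem_univ (α i)))
              exact Finset.single_le_sum (f := fun j' =>
                ‖x (α i) z₀ * deriv (fun z => x j' z) z₀ -
                  x j' z₀ * deriv (fun z => x (α i) z) z₀‖ ^ 2)
                (fun _ _ => by positivity) (mem_univ (β j))
            gcongr
          have h2 := Matrix.det_le (A := U) (abv := NormedField.toAbsoluteValue ℂ)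
            (x := δ⁻¹ * √W) (fun i j => h1 i j)
          have h3 : ‖U.det‖ ≤ (s.factorial : ℝ) * (δ⁻¹ * √W) ^ s := by
            rw [Fintype.card_fin, nsmul_eq_mul] at h2
            exact h2
          calc ‖U.det‖ ^ 2 ≤ ((s.factorial : ℝ) * (δ⁻¹ * √W) ^ s) ^ 2 := by gcongr
            _ = ((s.factorial : ℝ) * (δ⁻¹) ^ s) ^ 2 * (√W ^ 2) ^ s := by ring
            _ = _ := by rw [Real.sq_sqrt hW0]
        have hVα := hV α hα
        have hVβ := hV β hβ
        rw [div_mul_eq_mul_div, le_div_iff₀ (by positivity)]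
        have hN0 : 0 ≤ N := by
          rw [hN']
          positivity
        have h2n : ‖(2 : ℂ)‖ = 2 := by norm_num
        calc ‖Q z₀‖ ^ 2 * N ^ (p + 2 * s) * (c ^ (p + 2 * s) * v ^ 4)
            = ‖Q z₀‖ ^ 2 * (c * N) ^ (p + 2 * s) * (v * v) ^ 2 := by rw [mul_pow]; ring
          _ ≤ ‖Q z₀‖ ^ 2 * (∏ i ∈ S, ‖x i z₀‖) ^ 2 *
              (‖(vandermonde fun i => a (α i)).det‖ * ‖(vandermonde fun i => a (β i)).det‖) ^ 2 := by
            gcongr
          _ = ((‖Q z₀‖ * ∏ i ∈ S, ‖x i z₀‖) *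
              (‖(vandermonde fun i => a (α i)).det‖ *
                ‖(vandermonde fun i => a (β i)).det‖)) ^ 2 := by ring
          _ = (‖(2 : ℂ)‖ ^ s * ‖U.det‖) ^ 2 := hkey'
          _ = 4 ^ s * ‖U.det‖ ^ 2 := by
            rw [mul_pow, ← pow_mul, mul_comm s 2, pow_mul, h2n]
            norm_num
          _ ≤ 4 ^ s * (((s.factorial : ℝ) * (δ⁻¹) ^ s) ^ 2 * W ^ s) := by gcongr
          _ = _ := by ring)
  refine (hLD 0).det_eq_zero ?_
  filter_upwards [(hLD 0).rho_ne hρ, (hHe 0).filter_mono nhdsWithin_le_nhds,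
    (hLD 0).eq.filter_mono nhdsWithin_le_nhds] with z h1 h2 h3
  rw [hHz z] at h2
  have h4 : (∑ i, ‖rho (G 0) (a i) z‖) ^ p ≠ 0 := by
    apply pow_ne_zero
    refine ne_of_gt (Finset.sum_pos (fun i _ => norm_pos_iff.mpr (h1 i)) ⟨⟨0, by omega⟩, mem_univ _⟩)
  have h5 : PP 0 z = 0 := by
    unfold Hval at h2
    exact norm_eq_zero.mp ((mul_eq_zero.mp h2.symm).resolve_right h4)
  rw [h5, zero_mul] at h3
  exact pow_eq_zero_iff (two_ne_zero) |>.mp h3.symm

end Pool.Agent.H89.Ci
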