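import Pool.Agent.Lib.H89.Ci.Five

set_option autoImplicit false

/-!
Rigidity: relations which force quotients to be constant.
-/

open Filter Topology Finset

namespace Pool.Agent.H89.Ci

theorem mer_two_ne : (2 : Mer) ≠ 0 := by
  have h6 : (2 : Mer) = algebraMap ℂ Mer 2 := (map_ofNat _ 2).symm
  rw [h6]
  exact fun h => two_ne_zero ((algebraMap ℂ Mer).injective (by rw [h, map_zero]))

theorem mer_natCast_ne {d : ℕ} (hd : d ≠ 0) : (d : Mer) ≠ 0 := by
  have h6 : (d : Mer) = algebraMap ℂ Mer (d : ℂ) := (map_natCast _ d).symm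
  rw [h6]
  exact fun h => (Nat.cast_ne_zero.mpr hd : (d : ℂ) ≠ 0)
    ((algebraMap ℂ Mer).injective (by rw [h, map_zero]))

theorem dd_eq_zero_of_pow {x : Mer} {d : ℕ} (hd : d ≠ 0) (h : dd (x ^ d) = 0) : dd x = 0 := by
  by_cases hx : x = 0
  · rw [hx, map_zero]
  rw [Derivation.leibniz_pow, smul_eq_mul, nsmul_eq_mul] at h
  have h3 := (mul_eq_zero.mp h).resolve_left (mer_natCast_ne hd)
  exact (mul_eq_zero.mp h3).resolve_left (pow_ne_zero _ hx)

/-- If `z ^ d` is a constant multiple of `t ^ d`, then `z` is a constant multiple of `t`. -/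
theorem exists_mul_of_pow {z t : Mer} {d : ℕ} (hd : d ≠ 0) {a : ℂ}
    (h : z ^ d = algebraMap ℂ Mer a * t ^ d) : ∃ b : ℂ, z = algebraMap ℂ Mer b * t := by
  by_cases ht : t = 0
  · refine ⟨0, ?_⟩
    rw [ht, zero_pow hd, mul_zero] at h
    rw [pow_eq_zero_iff hd |>.mp h, map_zero, zero_mul]
  · have h1 : (z / t) ^ d = algebraMap ℂ Mer a := by
      rw [div_pow, h, mul_div_cancel_right₀ _ (pow_ne_zero _ ht)]
    have h2 : dd (z / t) = 0 := dd_eq_zero_of_pow hd (by rw [h1]; exact dd_const a)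
    obtain ⟨b, hb⟩ := exists_const_of_dd h2
    exact ⟨b, by rw [← hb, div_mul_cancel₀ _ ht]⟩

theorem exists_of_div {q M : Mer} (hM : M ≠ 0) {r : ℕ} (h : dd (q / M ^ r) = 0) :
    ∃ κ : ℂ, q = algebraMap ℂ Mer κ * M ^ r := by
  obtain ⟨b, hb⟩ := exists_const_of_dd h
  exact ⟨b, by rw [← hb, div_mul_cancel₀ _ (pow_ne_zero _ hM)]⟩

theorem dd_of_eq_pow {v u : Mer} {k : ℕ} (h : v = u ^ k) (hu : dd u = 0) : dd v = 0 := by
  rw [h, Derivation.leibniz_pow, hu, smul_zero, smul_zero]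

/-! ### Quadratic units -/

theorem rigA {M q z : Mer} (hM : M ≠ 0) {d : ℕ} (hd : 5 ≤ d)
    (h : z ^ d = M ^ (d - 4) * q ^ 2 - M ^ d) : ∃ κ : ℂ, q = algebraMap ℂ Mer κ * M ^ 2 := by
  have hMd : M ^ d = M ^ (d - 4) * M ^ 4 := by
    rw [← pow_add]
    congr 1
    omega
  have h1 : (q / M ^ 2) ^ 2 = (z / M) ^ d + algebraMap ℂ Mer 1 := by
    rw [map_one, div_pow, div_pow, h, hMd]
    have h3 : M ^ (d - 4) ≠ 0 := pow_ne_zero _ hM
    field_simp
    ring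
  have h2 := const_of_pow hd le_rfl one_ne_zero h1
  apply exists_of_div hM
  apply dd_eq_zero_of_pow two_ne_zero
  rw [h1, map_add, Derivation.leibniz_pow, h2, smul_zero, smul_zero, dd_const, add_zero]

theorem rigB {M q z z' : Mer} (hM : M ≠ 0) {d' : ℕ} (hd' : 2 ≤ d')
    (h : z ^ 4 = q ^ 2 - M ^ 4) (h' : z' ^ d' = M ^ (d' - 2) * q) :
    ∃ κ : ℂ, q = algebraMap ℂ Mer κ * M ^ 2 := by
  have hMd : M ^ d' = M ^ (d' - 2) * M ^ 2 := by
    rw [← pow_add]
    congr 1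
    omega
  apply exists_of_div hM
  refine const_of_quartic (u := z / M) (x := z' / M) hd' ?_ ?_
  · rw [div_pow, div_pow, h]
    field_simp
    ring
  · rw [div_pow, h', hMd]
    have h3 : M ^ (d' - 2) ≠ 0 := pow_ne_zero _ hM
    field_simp

theorem rigC {M q z z' : Mer} (hM : M ≠ 0) (h : z ^ 3 = M * q) (h' : z' ^ 3 = z * q + M ^ 3) :
    ∃ κ : ℂ, q = algebraMap ℂ Mer κ * M ^ 2 := by
  have h1 : q / M ^ 2 = (z / M) ^ 3 := by
    rw [div_pow, h]
    field_simp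
  have h2 : (z' / M) ^ 3 = (z / M) ^ 4 + algebraMap ℂ Mer 1 := by
    have h3 : z ^ 4 = z * (M * q) := by
      rw [← h]
      ring
    rw [map_one, div_pow, div_pow, h', h3]
    field_simp
  exact exists_of_div hM (dd_of_eq_pow h1 (const_of_picard one_ne_zero h2))

theorem rigD {M q z z' z'' : Mer} (hM : M ≠ 0) (h : z ^ 3 = M * q) (h' : z' ^ 2 = q - M ^ 2)
    (h'' : z'' ^ 2 = q + M ^ 2) : ∃ κ : ℂ, q = algebraMap ℂ Mer κ * M ^ 2 := by
  have h1 : q / M ^ 2 = (z / M) ^ 3 := by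
    rw [div_pow, h]
    field_simp
  have h2 : (z' * z'' / M ^ 2) ^ 2 = (z / M) ^ 6 + algebraMap ℂ Mer (-1) := by
    have h3 : z ^ 6 = (M * q) ^ 2 := by
      rw [← h]
      ring
    rw [map_neg, map_one, div_pow, div_pow, mul_pow, h', h'', h3]
    field_simp
    ring
  exact exists_of_div hM (dd_of_eq_pow h1 (const_of_pow (by norm_num) le_rfl
    (neg_ne_zero.mpr one_ne_zero) h2))

theorem rigE {M q : Mer} (hM : M ≠ 0) {k : Fin 4 → ℕ} (hk : ∀ i, 2 ≤ k i) {z : Fin 4 → Mer}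
    (h : ∀ i, z i ^ k i = M ^ (k i - 2) * (q - algebraMap ℂ Mer ((i : ℕ) + 1) * M ^ 2)) :
    ∃ κ : ℂ, q = algebraMap ℂ Mer κ * M ^ 2 := by
  apply exists_of_div hM
  refine const_of_four (b := fun i : Fin 4 => ((i : ℕ) : ℂ) + 1) (k := k)
    (x := fun i => z i / M) ?_ ?_ hk ?_
  · intro i j hij
    have h1 : ((i : ℕ) : ℂ) + 1 = ((j : ℕ) : ℂ) + 1 := hij
    exact Fin.ext (by exact_mod_cast add_right_cancel h1)
  · intro i
    exact Nat.cast_add_one_ne_zero _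
  · intro i
    have hMd : M ^ k i = M ^ (k i - 2) * M ^ 2 := by
      rw [← pow_add]
      congr 1
      have := hk i
      omega
    change q / M ^ 2 - algebraMap ℂ Mer (((i : ℕ) : ℂ) + 1) = (z i / M) ^ k i
    rw [div_pow, h i, hMd]
    have h3 : M ^ (k i - 2) ≠ 0 := pow_ne_zero _ hM
    field_simp

/-! ### Linear units -/

theorem rigA1 {M q z : Mer} (hM : M ≠ 0) {d : ℕ} (hd : 4 ≤ d)
    (h : z ^ d = M ^ (d - 4) * q ^ 4 - M ^ d) : ∃ κ : ℂ, q = algebraMap ℂ Mer κ * M ^ 1 := by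
  have hMd : M ^ d = M ^ (d - 4) * M ^ 4 := by
    rw [← pow_add]
    congr 1
    omega
  have h1 : ((q / M ^ 1) ^ 2) ^ 2 = (z / M) ^ d + algebraMap ℂ Mer 1 := by
    rw [map_one, ← pow_mul, div_pow, div_pow, h, hMd]
    have h3 : M ^ (d - 4) ≠ 0 := pow_ne_zero _ hM
    field_simp
    ring
  apply exists_of_div hM
  apply dd_eq_zero_of_pow two_ne_zero
  rcases hd.eq_or_lt with h4 | h4
  · subst h4
    rw [map_one] at h1
    exact const_of_quartic le_rfl h1 rfl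
  · have h2 := const_of_pow h4 le_rfl one_ne_zero h1
    apply dd_eq_zero_of_pow two_ne_zero
    rw [h1, map_add, Derivation.leibniz_pow, h2, smul_zero, smul_zero, dd_const, add_zero]

theorem rigB1 {M q z z' : Mer} (hM : M ≠ 0) {d' : ℕ} (hd' : 2 ≤ d')
    (h : z ^ 3 = M ^ 2 * q) (h' : z' ^ d' = M ^ (d' - 2) * (q ^ 2 - M ^ 2)) :
    ∃ κ : ℂ, q = algebraMap ℂ Mer κ * M ^ 1 := by
  have hMd : M ^ d' = M ^ (d' - 2) * M ^ 2 := by
    rw [← pow_add]
    congr 1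
    omega
  have h1 : q / M ^ 1 = (z / M) ^ 3 := by
    rw [div_pow, h]
    field_simp
  have h2 : (z' / M) ^ d' = (z / M) ^ 6 + algebraMap ℂ Mer (-1) := by
    have h3 : z ^ 6 = (M ^ 2 * q) ^ 2 := by
      rw [← h]
      ring
    have h4 : M ^ (d' - 2) ≠ 0 := pow_ne_zero _ hM
    rw [map_neg, map_one, div_pow, div_pow, h', hMd, h3]
    field_simp
    ring
  exact exists_of_div hM (dd_of_eq_pow h1 (const_of_pow (by norm_num) hd'
    (neg_ne_zero.mpr one_ne_zero) h2))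

theorem rigC1 {M q : Mer} (hM : M ≠ 0) {k : Fin 3 → ℕ} (hk : ∀ i, 2 ≤ k i) {z : Fin 3 → Mer}
    (h : ∀ i, z i ^ k i = M ^ (k i - 2) *
      (q ^ 2 - algebraMap ℂ Mer (((i : ℕ) + 1) ^ 2) * M ^ 2)) :
    ∃ κ : ℂ, q = algebraMap ℂ Mer κ * M ^ 1 := by
  have h1 : ∀ i : Fin 3, (q / M ^ 1) ^ 2 - algebraMap ℂ Mer ((((i : ℕ) : ℂ) + 1) ^ 2) =
      (z i / M) ^ k i := by
    intro i
    have hMd : M ^ k i = M ^ (k i - 2) * M ^ 2 := by
      rw [← pow_add]
      congr 1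
      have := hk i
      omega
    rw [div_pow (z i) M, h i, hMd]
    have h3 : M ^ (k i - 2) ≠ 0 := pow_ne_zero _ hM
    field_simp
  apply exists_of_div hM
  have h2 : ∀ (i : Fin 3) (b : ℂ), b ≠ 0 → b ^ 2 = (((i : ℕ) : ℂ) + 1) ^ 2 → ∀ z : ℂ,
      ord z (q / M ^ 1 - algebraMap ℂ Mer b) ≠ 1 := by
    intro i b hb hbi z'
    refine ram (v := z i / M) (G := Polynomial.X ^ 2 - Polynomial.C ((((i : ℕ) : ℂ) + 1) ^ 2))
      (hk i) ?_ ?_ ?_ z'
    · simp [hbi]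
    · rw [Polynomial.derivative_sub, Polynomial.derivative_C, sub_zero,
        Polynomial.derivative_X_pow]
      simp [hb]
    · rw [map_sub, map_pow, Polynomial.aeval_X, Polynomial.aeval_C, h1 i]
  refine dd_eq_zero_of_five (a := ![1, -1, 2⁻¹, -2⁻¹, 3⁻¹]) ?_ ?_ ?_
  · intro i j hij
    fin_cases i <;> fin_cases j <;> first | rfl | (exfalso; norm_num at hij)
  · intro i _ z'
    fin_cases i
    · exact h2 0 _ (by norm_num) (by norm_num) z'
    · exact h2 0 _ (by norm_num) (by norm_num) z'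
    · exact h2 1 _ (by norm_num) (by norm_num) z'
    · exact h2 1 _ (by norm_num) (by norm_num) z'
    · exact h2 2 _ (by norm_num) (by norm_num) z'
  · intro i hi
    exfalso
    fin_cases i <;> norm_num at hi

end Pool.Agent.H89.Ci
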