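import Mathlib

set_option autoImplicit false

/-!
Algebraically independent complex numbers.
-/

open Cardinal

namespace Pool.Agent.H89.Ci

/-- A finite family of algebraically independent complex numbers. -/
theorem exists_algInd (ι : Type) [Finite ι] : ∃ x : ι → ℂ, AlgebraicIndependent ℚ x := by
  obtain ⟨κ, x, hx⟩ := exists_isTranscendenceBasis' ℚ ℂ
  have h1 : #ℂ = #κ := IsAlgClosed.cardinal_eq_cardinal_transcendence_basis_of_aleph0_lt' x hx
    (by simp) (by rw [Cardinal.mk_complex]; exact Cardinal.aleph0_lt_continuum)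
  have h2 : #ι ≤ #κ := by
    rw [← h1, Cardinal.mk_complex]
    exact (Cardinal.lt_aleph0_of_finite ι).le.trans Cardinal.aleph0_le_continuum
  obtain ⟨f⟩ := h2
  exact ⟨x ∘ f, hx.1.comp f f.injective⟩

/-- Algebraically independent numbers in the field generated by a finite set. -/
theorem card_le_of_mem_adjoin {ι : Type} [Fintype ι] {x : ι → ℂ} (hx : AlgebraicIndependent ℚ x)
    {S : Finset ℂ} (hS : ∀ i, x i ∈ IntermediateField.adjoin ℚ (S : Set ℂ)) :
    Fintype.card ι ≤ S.card := by
  set K := IntermediateField.adjoin ℚ (S : Set ℂ) with hK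
  set s : Set K := {y | (y : ℂ) ∈ S} with hs
  have halg : Algebra.IsAlgebraic (Algebra.adjoin ℚ s) K := by
    refine ⟨fun y => ?_⟩
    have key : ∀ (w : ℂ) (hw : w ∈ K), IsAlgebraic (Algebra.adjoin ℚ s) (⟨w, hw⟩ : K) := by
      intro w hw
      induction hw using IntermediateField.adjoin_induction with
      | mem w hw =>
        have h1 : (⟨w, IntermediateField.subset_adjoin ℚ _ hw⟩ : K) ∈ Algebra.adjoin ℚ s :=
          Algebra.subset_adjoin hw
        exact isAlgebraic_algebraMap (R := Algebra.adjoin ℚ s) (A := K) ⟨_, h1⟩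
      | algebraMap q =>
        have h1 : algebraMap ℚ K q ∈ Algebra.adjoin ℚ s := Subalgebra.algebraMap_mem _ _
        exact isAlgebraic_algebraMap (R := Algebra.adjoin ℚ s) (A := K) ⟨_, h1⟩
      | add a b ha hb h1 h2 => exact h1.add h2
      | inv a ha h1 => exact h1.inv
      | mul a b ha hb h1 h2 => exact h1.mul h2
    exact key y y.2
  have h1 : Algebra.trdeg ℚ K ≤ #s := Algebra.IsAlgebraic.trdeg_le_cardinalMk ℚ s
  have h2 : AlgebraicIndependent ℚ (fun i => (⟨x i, hS i⟩ : K)) :=
    (AlgHom.algebraicIndependent_iff K.val K.val.injective).mp hx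
  have h3 := h2.cardinalMk_le_trdeg
  have h4 : #s ≤ S.card := by
    have h5 : #s ≤ #(S : Set ℂ) :=
      Cardinal.mk_le_of_injective (f := fun y : s => (⟨(y : K), y.2⟩ : (S : Set ℂ))) (by
        intro a b hab
        have h6 := congrArg (fun t : (S : Set ℂ) => (t : ℂ)) hab
        exact Subtype.ext (Subtype.ext h6))
    simpa using h5
  have h5 := (h3.trans h1).trans h4
  rw [Cardinal.mk_fintype] at h5
  exact_mod_cast h5

/-- If algebraically independent numbers lie in the field generated by a finite set which is not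
larger, then the elements of this field are algebraic over them. -/
theorem isAlgebraic_of_card_le {ι : Type} [Fintype ι] {x : ι → ℂ}
    (hx : AlgebraicIndependent ℚ x) {S : Finset ℂ}
    (hS : ∀ i, x i ∈ IntermediateField.adjoin ℚ (S : Set ℂ)) (hcard : S.card ≤ Fintype.card ι)
    {w : ℂ} (hw : w ∈ IntermediateField.adjoin ℚ (S : Set ℂ)) :
    IsAlgebraic (Algebra.adjoin ℚ (Set.range x)) w := by
  set K := IntermediateField.adjoin ℚ (S : Set ℂ) with hK
  set s : Set K := {y | (y : ℂ) ∈ S} with hs
  have halg : Algebra.IsAlgebraic (Algebra.adjoin ℚ s) K := by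
    refine ⟨fun y => ?_⟩
    have key : ∀ (w : ℂ) (hw : w ∈ K), IsAlgebraic (Algebra.adjoin ℚ s) (⟨w, hw⟩ : K) := by
      intro w hw
      induction hw using IntermediateField.adjoin_induction with
      | mem w hw =>
        have h1 : (⟨w, IntermediateField.subset_adjoin ℚ _ hw⟩ : K) ∈ Algebra.adjoin ℚ s :=
          Algebra.subset_adjoin hw
        exact isAlgebraic_algebraMap (R := Algebra.adjoin ℚ s) (A := K) ⟨_, h1⟩
      | algebraMap q =>
        have h1 : algebraMap ℚ K q ∈ Algebra.adjoin ℚ s := Subalgebra.algebraMap_mem _ _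
        exact isAlgebraic_algebraMap (R := Algebra.adjoin ℚ s) (A := K) ⟨_, h1⟩
      | add a b ha hb h1 h2 => exact h1.add h2
      | inv a ha h1 => exact h1.inv
      | mul a b ha hb h1 h2 => exact h1.mul h2
    exact key y y.2
  have h1 : Algebra.trdeg ℚ K ≤ #s := Algebra.IsAlgebraic.trdeg_le_cardinalMk ℚ s
  set x' : ι → K := fun i => ⟨x i, hS i⟩ with hx'
  have h2 : AlgebraicIndependent ℚ x' :=
    (AlgHom.algebraicIndependent_iff K.val K.val.injective).mp hx
  have h4 : #s ≤ S.card := by
    have h5 : #s ≤ #(S : Set ℂ) :=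
      Cardinal.mk_le_of_injective (f := fun y : s => (⟨(y : K), y.2⟩ : (S : Set ℂ))) (by
        intro a b hab
        have h6 := congrArg (fun t : (S : Set ℂ) => (t : ℂ)) hab
        exact Subtype.ext (Subtype.ext h6))
    simpa using h5
  have h5 : Algebra.trdeg ℚ K ≤ #ι := by
    refine (h1.trans h4).trans ?_
    rw [Cardinal.mk_fintype]
    exact_mod_cast hcard
  have h6 := h2.isTranscendenceBasis_of_trdeg_le_of_finite h5
  have h7 : IsAlgebraic (Algebra.adjoin ℚ (Set.range x')) (⟨w, hw⟩ : K) :=
    h6.isAlgebraic.isAlgebraic _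
  have hmap0 : ∀ a ∈ Algebra.adjoin ℚ (Set.range x'),
      (a : ℂ) ∈ Algebra.adjoin ℚ (Set.range x) := by
    intro a ha
    induction ha using Algebra.adjoin_induction with
    | mem a ha =>
      obtain ⟨i, rfl⟩ := ha
      exact Algebra.subset_adjoin ⟨i, rfl⟩
    | algebraMap q =>
      have h8 : ((algebraMap ℚ K q : K) : ℂ) = algebraMap ℚ ℂ q := by simp
      rw [h8]
      exact Subalgebra.algebraMap_mem _ _
    | add a b _ _ h8 h9 => exact add_mem h8 h9
    | mul a b _ _ h8 h9 => exact mul_mem h8 h9
  let f : Algebra.adjoin ℚ (Set.range x') →+* Algebra.adjoin ℚ (Set.range x) :=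
    ((algebraMap K ℂ).comp (algebraMap (Algebra.adjoin ℚ (Set.range x')) K)).codRestrict
      (Algebra.adjoin ℚ (Set.range x)) (fun a => hmap0 a a.2)
  have hf : Function.Injective f := by
    intro a b hab
    have h8 := congrArg (fun t : Algebra.adjoin ℚ (Set.range x) => (t : ℂ)) hab
    exact Subtype.ext (Subtype.ext h8)
  exact h7.ringHom_of_comp_eq f (algebraMap K ℂ) hf rfl

/-- The numbers algebraic over a finite family form a countable set. -/
theorem countable_algebraic {ι : Type} [Fintype ι] (x : ι → ℂ) :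
    {w : ℂ | IsAlgebraic (Algebra.adjoin ℚ (Set.range x)) w}.Countable := by
  have h1 : Countable (Algebra.adjoin ℚ (Set.range x)) := by
    rw [Algebra.adjoin_range_eq_range_aeval]
    have h2 : Countable (MvPolynomial ι ℚ) := by
      rw [← Cardinal.mk_le_aleph0_iff]
      refine MvPolynomial.cardinalMk_le_max.trans ?_
      simp
    exact (MvPolynomial.aeval x).rangeRestrict_surjective.countable
  exact Algebraic.countable _ _

end Pool.Agent.H89.Ci
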