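import Pool.Agent.Lib.H89.Ci.Rig

set_option autoImplicit false

/-!
Units: groups of equations which force a quadratic (or linear) form to be proportional to the
square of a coordinate (to a coordinate).
-/

open Filter Topology Finset
open MvPolynomial (X C aeval)

namespace Pool.Agent.H89.Ci

variable {n c : ℕ}

/-- A unit: the equations `Z_l ^ (d l) = H l` for `l ∈ G` force `Q` to be a constant multiple of
`X_j ^ r`. -/
structure Un (r : ℕ) (d : Fin c → ℕ) (G : Finset (Fin c)) (j : Fin (n + 1))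
    (Q : MvPolynomial (Fin (n + 1 + c)) ℂ)
    (H : Fin c → MvPolynomial (Fin (n + 1 + c)) ℂ) : Prop where
  hom : ∀ l, (H l).IsHomogeneous (d l)
  rig : ∀ w : Fin (n + 1 + c) → Mer,
    (∀ l ∈ G, w (Fin.natAdd (n + 1) l) ^ d l = aeval w (H l)) →
    w (Fin.castAdd c j) ≠ 0 →
    ∃ κ : ℂ, aeval w Q = algebraMap ℂ Mer κ * w (Fin.castAdd c j) ^ r
  con : ∀ w : Fin (n + 1 + c) → Mer,
    (∀ l ∈ G, w (Fin.natAdd (n + 1) l) ^ d l = aeval w (H l)) →
    ∀ (t : Mer) (a q : ℂ), w (Fin.castAdd c j) = algebraMap ℂ Mer a * t →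
      aeval w Q = algebraMap ℂ Mer q * t ^ r →
      ∀ l ∈ G, ∃ b : ℂ, w (Fin.natAdd (n + 1) l) = algebraMap ℂ Mer b * t

theorem hom_cast {φ : MvPolynomial (Fin (n + 1 + c)) ℂ} {m k : ℕ} (h : φ.IsHomogeneous m)
    (e : m = k) : φ.IsHomogeneous k := e ▸ h

theorem hom_X (i : Fin (n + 1 + c)) : (X i : MvPolynomial (Fin (n + 1 + c)) ℂ).IsHomogeneous 1 :=
  MvPolynomial.isHomogeneous_X ℂ i

theorem hom_C (a : ℂ) : (C a : MvPolynomial (Fin (n + 1 + c)) ℂ).IsHomogeneous 0 :=
  MvPolynomial.isHomogeneous_C _ a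

/-- Construction of a unit. -/
theorem exists_un {N r : ℕ} {d : Fin c → ℕ} {G : Finset (Fin c)} {j : Fin (n + 1)}
    {Q : MvPolynomial (Fin (n + 1 + c)) ℂ} {σ : Fin N → Fin c} (hσ : Function.Injective σ)
    {K : Fin N → MvPolynomial (Fin (n + 1 + c)) ℂ} (hK : ∀ i, (K i).IsHomogeneous (d (σ i)))
    (hd : ∀ l, d l ≠ 0) (hσG : ∀ i, σ i ∈ G)
    (rig : ∀ w : Fin (n + 1 + c) → Mer,
      (∀ i, w (Fin.natAdd (n + 1) (σ i)) ^ d (σ i) = aeval w (K i)) →
      w (Fin.castAdd c j) ≠ 0 →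
      ∃ κ : ℂ, aeval w Q = algebraMap ℂ Mer κ * w (Fin.castAdd c j) ^ r)
    (con : ∀ w : Fin (n + 1 + c) → Mer,
      (∀ i, w (Fin.natAdd (n + 1) (σ i)) ^ d (σ i) = aeval w (K i)) →
      ∀ (t : Mer) (a q : ℂ), w (Fin.castAdd c j) = algebraMap ℂ Mer a * t →
        aeval w Q = algebraMap ℂ Mer q * t ^ r →
        ∀ i, ∃ b : ℂ, w (Fin.natAdd (n + 1) (σ i)) = algebraMap ℂ Mer b * t) :
    ∃ H, Un r d G j Q H := by
  classical
  set H : Fin c → MvPolynomial (Fin (n + 1 + c)) ℂ :=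
    fun l => ∑ i, if σ i = l then K i else 0 with hH
  have hHσ : ∀ i, H (σ i) = K i := by
    intro i
    simp only [hH]
    rw [Finset.sum_eq_single i]
    · rw [if_pos rfl]
    · intro i' _ hi'
      rw [if_neg fun h => hi' (hσ h)]
    · intro h
      exact absurd (mem_univ _) h
  have hH0 : ∀ l, (∀ i, σ i ≠ l) → H l = 0 := by
    intro l hl
    simp only [hH]
    exact Finset.sum_eq_zero fun i _ => if_neg (hl i)
  refine ⟨H, ?_, ?_, ?_⟩
  · intro l
    by_cases hl : ∃ i, σ i = l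
    · obtain ⟨i, rfl⟩ := hl
      rw [hHσ]
      exact hK i
    · push Not at hl
      rw [hH0 l hl]
      exact MvPolynomial.isHomogeneous_zero _ _ _
  · intro w hw hwj
    refine rig w (fun i => ?_) hwj
    rw [← hHσ]
    exact hw _ (hσG i)
  · intro w hw t a q h1 h2 l hl
    by_cases hl' : ∃ i, σ i = l
    · obtain ⟨i, rfl⟩ := hl'
      refine con w (fun i => ?_) t a q h1 h2 i
      rw [← hHσ]
      exact hw _ (hσG i)
    · push Not at hl'
      refine ⟨0, ?_⟩
      have h3 := hw l hl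
      rw [hH0 l hl', map_zero] at h3
      rw [pow_eq_zero_iff (hd l) |>.mp h3, map_zero, zero_mul]

theorem inj_one (l : Fin c) : Function.Injective (![l] : Fin 1 → Fin c) :=
  Function.injective_of_subsingleton _

theorem inj_two {l l' : Fin c} (h : l ≠ l') : Function.Injective (![l, l'] : Fin 2 → Fin c) := by
  intro i j hij
  fin_cases i <;> fin_cases j <;> first | rfl | skip
  · exact absurd hij h
  · exact absurd hij.symm h

theorem inj_three {l l' l'' : Fin c} (h : l ≠ l') (h' : l ≠ l'') (h'' : l' ≠ l'') :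
    Function.Injective (![l, l', l''] : Fin 3 → Fin c) := by
  intro i j hij
  fin_cases i <;> fin_cases j <;> first | rfl | skip
  · exact absurd hij h
  · exact absurd hij h'
  · exact absurd hij.symm h
  · exact absurd hij h''
  · exact absurd hij.symm h'
  · exact absurd hij.symm h''

section two

variable {d : Fin c → ℕ} {G : Finset (Fin c)} (hd : ∀ l, d l ≠ 0) (j : Fin (n + 1))
  {Q : MvPolynomial (Fin (n + 1 + c)) ℂ} (hQ : Q.IsHomogeneous 2)

include hd hQ

theorem un_A {l : Fin c} (hl : l ∈ G) (h5 : 5 ≤ d l) : ∃ H, Un 2 d G j Q H := by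
  refine exists_un (inj_one l) (K := ![X (Fin.castAdd c j) ^ (d l - 4) * Q ^ 2 -
    X (Fin.castAdd c j) ^ d l]) ?_ hd ?_ ?_ ?_
  · intro i
    fin_cases i
    change (X (Fin.castAdd c j) ^ (d l - 4) * Q ^ 2 - X (Fin.castAdd c j) ^ d l :
      MvPolynomial (Fin (n + 1 + c)) ℂ).IsHomogeneous (d l)
    exact (hom_cast (((hom_X _).pow _).mul (hQ.pow 2)) (by omega)).sub
      (hom_cast ((hom_X _).pow _) (by omega))
  · intro i
    fin_cases i
    exact hl
  · intro w hw hwj
    have h := hw 0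
    change w (Fin.natAdd (n + 1) l) ^ d l = aeval w (X (Fin.castAdd c j) ^ (d l - 4) * Q ^ 2 -
      X (Fin.castAdd c j) ^ d l) at h
    rw [map_sub, map_mul, map_pow, map_pow, map_pow, MvPolynomial.aeval_X] at h
    exact rigA hwj h5 h
  · intro w hw t a q h1 h2 i
    have h := hw 0
    fin_cases i
    change w (Fin.natAdd (n + 1) l) ^ d l = aeval w (X (Fin.castAdd c j) ^ (d l - 4) * Q ^ 2 -
      X (Fin.castAdd c j) ^ d l) at h
    rw [map_sub, map_mul, map_pow, map_pow, map_pow, MvPolynomial.aeval_X, h1, h2] at h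
    refine exists_mul_of_pow (hd l) (a := a ^ (d l - 4) * q ^ 2 - a ^ d l) ?_
    change w (Fin.natAdd (n + 1) l) ^ d l = _
    rw [h, map_sub, map_mul, map_pow, map_pow, map_pow]
    obtain ⟨k, hk⟩ : ∃ k, d l = k + 4 := ⟨d l - 4, by omega⟩
    rw [hk, Nat.add_sub_cancel]
    ring

theorem un_B {l l' : Fin c} (hl : l ∈ G) (hl' : l' ∈ G) (hne : l ≠ l') (h4 : d l = 4)
    (h2' : 2 ≤ d l') : ∃ H, Un 2 d G j Q H := by
  refine exists_un (inj_two hne) (K := ![Q ^ 2 - X (Fin.castAdd c j) ^ 4,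
    X (Fin.castAdd c j) ^ (d l' - 2) * Q]) ?_ hd ?_ ?_ ?_
  · intro i
    fin_cases i
    · change (Q ^ 2 - X (Fin.castAdd c j) ^ 4 :
        MvPolynomial (Fin (n + 1 + c)) ℂ).IsHomogeneous (d l)
      exact (hom_cast (hQ.pow 2) (by omega)).sub (hom_cast ((hom_X _).pow _) (by omega))
    · change (X (Fin.castAdd c j) ^ (d l' - 2) * Q :
        MvPolynomial (Fin (n + 1 + c)) ℂ).IsHomogeneous (d l')
      exact hom_cast (((hom_X _).pow _).mul hQ) (by omega)
  · intro i
    fin_cases i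
    · exact hl
    · exact hl'
  · intro w hw hwj
    have h := hw 0
    have h' := hw 1
    change w (Fin.natAdd (n + 1) l) ^ d l = aeval w (Q ^ 2 - X (Fin.castAdd c j) ^ 4) at h
    change w (Fin.natAdd (n + 1) l') ^ d l' = aeval w (X (Fin.castAdd c j) ^ (d l' - 2) * Q) at h'
    rw [map_sub, map_pow, map_pow, MvPolynomial.aeval_X, h4] at h
    rw [map_mul, map_pow, MvPolynomial.aeval_X] at h'
    exact rigB hwj h2' h h'
  · intro w hw t a q h1 h2 i
    have h := hw 0
    have h' := hw 1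
    change w (Fin.natAdd (n + 1) l) ^ d l = aeval w (Q ^ 2 - X (Fin.castAdd c j) ^ 4) at h
    change w (Fin.natAdd (n + 1) l') ^ d l' = aeval w (X (Fin.castAdd c j) ^ (d l' - 2) * Q) at h'
    rw [map_sub, map_pow, map_pow, MvPolynomial.aeval_X, h1, h2] at h
    rw [map_mul, map_pow, MvPolynomial.aeval_X, h1, h2] at h'
    fin_cases i
    · refine exists_mul_of_pow (hd l) (a := q ^ 2 - a ^ 4) ?_
      change w (Fin.natAdd (n + 1) l) ^ d l = _
      rw [h, map_sub, map_pow, map_pow, h4]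
      ring
    · refine exists_mul_of_pow (hd l') (a := a ^ (d l' - 2) * q) ?_
      change w (Fin.natAdd (n + 1) l') ^ d l' = _
      rw [h', map_mul, map_pow]
      obtain ⟨k, hk⟩ : ∃ k, d l' = k + 2 := ⟨d l' - 2, by omega⟩
      rw [hk, Nat.add_sub_cancel]
      ring

theorem un_C {l l' : Fin c} (hl : l ∈ G) (hl' : l' ∈ G) (hne : l ≠ l') (h3 : d l = 3)
    (h3' : d l' = 3) : ∃ H, Un 2 d G j Q H := by
  refine exists_un (inj_two hne) (K := ![X (Fin.castAdd c j) * Q,
    X (Fin.natAdd (n + 1) l) * Q + X (Fin.castAdd c j) ^ 3]) ?_ hd ?_ ?_ ?_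
  · intro i
    fin_cases i
    · change (X (Fin.castAdd c j) * Q : MvPolynomial (Fin (n + 1 + c)) ℂ).IsHomogeneous (d l)
      exact hom_cast ((hom_X _).mul hQ) (by omega)
    · change (X (Fin.natAdd (n + 1) l) * Q + X (Fin.castAdd c j) ^ 3 :
        MvPolynomial (Fin (n + 1 + c)) ℂ).IsHomogeneous (d l')
      exact (hom_cast ((hom_X _).mul hQ) (by omega)).add
        (hom_cast ((hom_X _).pow 3) (by omega))
  · intro i
    fin_cases i
    · exact hl
    · exact hl'
  · intro w hw hwj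
    have h := hw 0
    have h' := hw 1
    change w (Fin.natAdd (n + 1) l) ^ d l = aeval w (X (Fin.castAdd c j) * Q) at h
    change w (Fin.natAdd (n + 1) l') ^ d l' = aeval w (X (Fin.natAdd (n + 1) l) * Q +
      X (Fin.castAdd c j) ^ 3) at h'
    rw [map_mul, MvPolynomial.aeval_X, h3] at h
    rw [map_add, map_mul, map_pow, MvPolynomial.aeval_X, MvPolynomial.aeval_X, h3'] at h'
    exact rigC hwj h h'
  · intro w hw t a q h1 h2 i
    have h := hw 0
    have h' := hw 1
    change w (Fin.natAdd (n + 1) l) ^ d l = aeval w (X (Fin.castAdd c j) * Q) at h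
    change w (Fin.natAdd (n + 1) l') ^ d l' = aeval w (X (Fin.natAdd (n + 1) l) * Q +
      X (Fin.castAdd c j) ^ 3) at h'
    rw [map_mul, MvPolynomial.aeval_X, h1, h2] at h
    rw [map_add, map_mul, map_pow, MvPolynomial.aeval_X, MvPolynomial.aeval_X, h1, h2] at h'
    have h0 : ∃ b : ℂ, w (Fin.natAdd (n + 1) l) = algebraMap ℂ Mer b * t := by
      refine exists_mul_of_pow (hd l) (a := a * q) ?_
      rw [h, map_mul, h3]
      ring
    fin_cases i
    · exact h0
    · obtain ⟨b, hb⟩ := h0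
      refine exists_mul_of_pow (hd l') (a := b * q + a ^ 3) ?_
      change w (Fin.natAdd (n + 1) l') ^ d l' = _
      rw [h', hb, map_add, map_mul, map_pow, h3']
      ring

theorem un_D {l l' l'' : Fin c} (hl : l ∈ G) (hl' : l' ∈ G) (hl'' : l'' ∈ G) (hne : l ≠ l')
    (hne' : l ≠ l'') (hne'' : l' ≠ l'') (h3 : d l = 3) (h2' : d l' = 2) (h2'' : d l'' = 2) :
    ∃ H, Un 2 d G j Q H := by
  refine exists_un (inj_three hne hne' hne'') (K := ![X (Fin.castAdd c j) * Q,
    Q - X (Fin.castAdd c j) ^ 2, Q + X (Fin.castAdd c j) ^ 2]) ?_ hd ?_ ?_ ?_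
  · intro i
    fin_cases i
    · change (X (Fin.castAdd c j) * Q : MvPolynomial (Fin (n + 1 + c)) ℂ).IsHomogeneous (d l)
      exact hom_cast ((hom_X _).mul hQ) (by omega)
    · change (Q - X (Fin.castAdd c j) ^ 2 :
        MvPolynomial (Fin (n + 1 + c)) ℂ).IsHomogeneous (d l')
      exact (hom_cast hQ (by omega)).sub (hom_cast ((hom_X _).pow 2) (by omega))
    · change (Q + X (Fin.castAdd c j) ^ 2 :
        MvPolynomial (Fin (n + 1 + c)) ℂ).IsHomogeneous (d l'')
      exact (hom_cast hQ (by omega)).add (hom_cast ((hom_X _).pow 2) (by omega))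
  · intro i
    fin_cases i
    · exact hl
    · exact hl'
    · exact hl''
  · intro w hw hwj
    have h := hw 0
    have h' := hw 1
    have h'' := hw 2
    change w (Fin.natAdd (n + 1) l) ^ d l = aeval w (X (Fin.castAdd c j) * Q) at h
    change w (Fin.natAdd (n + 1) l') ^ d l' = aeval w (Q - X (Fin.castAdd c j) ^ 2) at h'
    change w (Fin.natAdd (n + 1) l'') ^ d l'' = aeval w (Q + X (Fin.castAdd c j) ^ 2) at h''
    rw [map_mul, MvPolynomial.aeval_X, h3] at h
    rw [map_sub, map_pow, MvPolynomial.aeval_X, h2'] at h'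
    rw [map_add, map_pow, MvPolynomial.aeval_X, h2''] at h''
    exact rigD hwj h h' h''
  · intro w hw t a q h1 h2 i
    have h := hw 0
    have h' := hw 1
    have h'' := hw 2
    change w (Fin.natAdd (n + 1) l) ^ d l = aeval w (X (Fin.castAdd c j) * Q) at h
    change w (Fin.natAdd (n + 1) l') ^ d l' = aeval w (Q - X (Fin.castAdd c j) ^ 2) at h'
    change w (Fin.natAdd (n + 1) l'') ^ d l'' = aeval w (Q + X (Fin.castAdd c j) ^ 2) at h''
    rw [map_mul, MvPolynomial.aeval_X, h1, h2] at h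
    rw [map_sub, map_pow, MvPolynomial.aeval_X, h1, h2] at h'
    rw [map_add, map_pow, MvPolynomial.aeval_X, h1, h2] at h''
    fin_cases i
    · refine exists_mul_of_pow (hd l) (a := a * q) ?_
      change w (Fin.natAdd (n + 1) l) ^ d l = _
      rw [h, map_mul, h3]
      ring
    · refine exists_mul_of_pow (hd l') (a := q - a ^ 2) ?_
      change w (Fin.natAdd (n + 1) l') ^ d l' = _
      rw [h', map_sub, map_pow, h2']
      ring
    · refine exists_mul_of_pow (hd l'') (a := q + a ^ 2) ?_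
      change w (Fin.natAdd (n + 1) l'') ^ d l'' = _
      rw [h'', map_add, map_pow, h2'']
      ring

theorem un_E {σ : Fin 4 → Fin c} (hσ : Function.Injective σ) (hσG : ∀ i, σ i ∈ G)
    (h2 : ∀ i, 2 ≤ d (σ i)) : ∃ H, Un 2 d G j Q H := by
  refine exists_un hσ (K := fun i => X (Fin.castAdd c j) ^ (d (σ i) - 2) *
    (Q - C ((i : ℕ) + 1 : ℂ) * X (Fin.castAdd c j) ^ 2)) ?_ hd hσG ?_ ?_
  · intro i
    have h3 := h2 i
    refine hom_cast (((hom_X _).pow _).mul (hQ.sub (hom_cast ((hom_C _).mul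
      ((hom_X _).pow 2)) (by norm_num)))) (by omega)
  · intro w hw hwj
    refine rigE hwj h2 (z := fun i => w (Fin.natAdd (n + 1) (σ i))) fun i => ?_
    have h := hw i
    rw [map_mul, map_pow, map_sub, map_mul, map_pow, MvPolynomial.aeval_X,
      MvPolynomial.aeval_C] at h
    exact h
  · intro w hw t a q h1 h3 i
    have h := hw i
    rw [map_mul, map_pow, map_sub, map_mul, map_pow, MvPolynomial.aeval_X,
      MvPolynomial.aeval_C, h1, h3] at h
    refine exists_mul_of_pow (hd (σ i))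
      (a := a ^ (d (σ i) - 2) * (q - ((i : ℕ) + 1) * a ^ 2)) ?_
    rw [h, map_mul, map_pow, map_sub, map_mul, map_pow]
    obtain ⟨k, hk⟩ : ∃ k, d (σ i) = k + 2 := ⟨d (σ i) - 2, by have := h2 i; omega⟩
    rw [hk, Nat.add_sub_cancel]
    ring

end two

section one

variable {d : Fin c → ℕ} {G : Finset (Fin c)} (hd : ∀ l, d l ≠ 0) (j : Fin (n + 1))
  {Q : MvPolynomial (Fin (n + 1 + c)) ℂ} (hQ : Q.IsHomogeneous 1)

include hd hQ

theorem un_A1 {l : Fin c} (hl : l ∈ G) (h4 : 4 ≤ d l) : ∃ H, Un 1 d G j Q H := by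
  refine exists_un (inj_one l) (K := ![X (Fin.castAdd c j) ^ (d l - 4) * Q ^ 4 -
    X (Fin.castAdd c j) ^ d l]) ?_ hd ?_ ?_ ?_
  · intro i
    fin_cases i
    change (X (Fin.castAdd c j) ^ (d l - 4) * Q ^ 4 - X (Fin.castAdd c j) ^ d l :
      MvPolynomial (Fin (n + 1 + c)) ℂ).IsHomogeneous (d l)
    exact (hom_cast (((hom_X _).pow _).mul (hQ.pow 4)) (by omega)).sub
      (hom_cast ((hom_X _).pow _) (by omega))
  · intro i
    fin_cases i
    exact hl
  · intro w hw hwj
    have h := hw 0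
    change w (Fin.natAdd (n + 1) l) ^ d l = aeval w (X (Fin.castAdd c j) ^ (d l - 4) * Q ^ 4 -
      X (Fin.castAdd c j) ^ d l) at h
    rw [map_sub, map_mul, map_pow, map_pow, map_pow, MvPolynomial.aeval_X] at h
    exact rigA1 hwj h4 h
  · intro w hw t a q h1 h2 i
    have h := hw 0
    fin_cases i
    change w (Fin.natAdd (n + 1) l) ^ d l = aeval w (X (Fin.castAdd c j) ^ (d l - 4) * Q ^ 4 -
      X (Fin.castAdd c j) ^ d l) at h
    rw [map_sub, map_mul, map_pow, map_pow, map_pow, MvPolynomial.aeval_X, h1, h2] at h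
    refine exists_mul_of_pow (hd l) (a := a ^ (d l - 4) * q ^ 4 - a ^ d l) ?_
    change w (Fin.natAdd (n + 1) l) ^ d l = _
    rw [h, map_sub, map_mul, map_pow, map_pow, map_pow]
    obtain ⟨k, hk⟩ : ∃ k, d l = k + 4 := ⟨d l - 4, by omega⟩
    rw [hk, Nat.add_sub_cancel]
    ring

theorem un_B1 {l l' : Fin c} (hl : l ∈ G) (hl' : l' ∈ G) (hne : l ≠ l') (h3 : d l = 3)
    (h2' : 2 ≤ d l') : ∃ H, Un 1 d G j Q H := by
  refine exists_un (inj_two hne) (K := ![X (Fin.castAdd c j) ^ 2 * Q,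
    X (Fin.castAdd c j) ^ (d l' - 2) * (Q ^ 2 - X (Fin.castAdd c j) ^ 2)]) ?_ hd ?_ ?_ ?_
  · intro i
    fin_cases i
    · change (X (Fin.castAdd c j) ^ 2 * Q : MvPolynomial (Fin (n + 1 + c)) ℂ).IsHomogeneous (d l)
      exact hom_cast (((hom_X _).pow 2).mul hQ) (by omega)
    · change (X (Fin.castAdd c j) ^ (d l' - 2) * (Q ^ 2 - X (Fin.castAdd c j) ^ 2) :
        MvPolynomial (Fin (n + 1 + c)) ℂ).IsHomogeneous (d l')
      exact hom_cast (((hom_X _).pow _).mul ((hQ.pow 2).sub ((hom_X _).pow 2))) (by omega)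
  · intro i
    fin_cases i
    · exact hl
    · exact hl'
  · intro w hw hwj
    have h := hw 0
    have h' := hw 1
    change w (Fin.natAdd (n + 1) l) ^ d l = aeval w (X (Fin.castAdd c j) ^ 2 * Q) at h
    change w (Fin.natAdd (n + 1) l') ^ d l' = aeval w (X (Fin.castAdd c j) ^ (d l' - 2) *
      (Q ^ 2 - X (Fin.castAdd c j) ^ 2)) at h'
    rw [map_mul, map_pow, MvPolynomial.aeval_X, h3] at h
    rw [map_mul, map_pow, map_sub, map_pow, map_pow, MvPolynomial.aeval_X] at h'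
    exact rigB1 hwj h2' h h'
  · intro w hw t a q h1 h2 i
    have h := hw 0
    have h' := hw 1
    change w (Fin.natAdd (n + 1) l) ^ d l = aeval w (X (Fin.castAdd c j) ^ 2 * Q) at h
    change w (Fin.natAdd (n + 1) l') ^ d l' = aeval w (X (Fin.castAdd c j) ^ (d l' - 2) *
      (Q ^ 2 - X (Fin.castAdd c j) ^ 2)) at h'
    rw [map_mul, map_pow, MvPolynomial.aeval_X, h1, h2] at h
    rw [map_mul, map_pow, map_sub, map_pow, map_pow, MvPolynomial.aeval_X, h1, h2] at h'
    fin_cases i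
    · refine exists_mul_of_pow (hd l) (a := a ^ 2 * q) ?_
      change w (Fin.natAdd (n + 1) l) ^ d l = _
      rw [h, map_mul, map_pow, h3]
      ring
    · refine exists_mul_of_pow (hd l') (a := a ^ (d l' - 2) * (q ^ 2 - a ^ 2)) ?_
      change w (Fin.natAdd (n + 1) l') ^ d l' = _
      rw [h', map_mul, map_pow, map_sub, map_pow, map_pow]
      obtain ⟨k, hk⟩ : ∃ k, d l' = k + 2 := ⟨d l' - 2, by omega⟩
      rw [hk, Nat.add_sub_cancel]
      ring

theorem un_C1 {σ : Fin 3 → Fin c} (hσ : Function.Injective σ) (hσG : ∀ i, σ i ∈ G)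
    (h2 : ∀ i, 2 ≤ d (σ i)) : ∃ H, Un 1 d G j Q H := by
  refine exists_un hσ (K := fun i => X (Fin.castAdd c j) ^ (d (σ i) - 2) *
    (Q ^ 2 - C (((i : ℕ) + 1 : ℂ) ^ 2) * X (Fin.castAdd c j) ^ 2)) ?_ hd hσG ?_ ?_
  · intro i
    have h3 := h2 i
    refine hom_cast (((hom_X _).pow _).mul ((hQ.pow 2).sub (hom_cast ((hom_C _).mul
      ((hom_X _).pow 2)) (by norm_num)))) (by omega)
  · intro w hw hwj
    refine rigC1 hwj h2 (z := fun i => w (Fin.natAdd (n + 1) (σ i))) fun i => ?_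
    have h := hw i
    rw [map_mul, map_pow, map_sub, map_mul, map_pow (aeval w) Q 2, MvPolynomial.aeval_C,
      map_pow (aeval w) (X (Fin.castAdd c j)) 2, MvPolynomial.aeval_X] at h
    exact h
  · intro w hw t a q h1 h3 i
    have h := hw i
    rw [map_mul, map_pow, map_sub, map_mul, map_pow (aeval w) Q 2, MvPolynomial.aeval_C,
      map_pow (aeval w) (X (Fin.castAdd c j)) 2, MvPolynomial.aeval_X, h1, h3] at h
    refine exists_mul_of_pow (hd (σ i))
      (a := a ^ (d (σ i) - 2) * (q ^ 2 - (((i : ℕ) + 1) ^ 2) * a ^ 2)) ?_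
    obtain ⟨k, hk⟩ : ∃ k, d (σ i) = k + 2 := ⟨d (σ i) - 2, by have := h2 i; omega⟩
    rw [h, hk, Nat.add_sub_cancel]
    simp only [map_mul, map_sub, map_pow]
    ring

end one

end Pool.Agent.H89.Ci
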